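import Mathlib

/-!
# Lifting lemmas
-/

open Set Filter MeasureTheory
open scoped Topology ComplexConjugate

namespace Pool.Agent.H785.RP

section var
variable {f f' : ℝ → ℝ} (hf : ∀ t, HasDerivAt f (f' t) t) (hc : Continuous f')
include hf hc

theorem abs_sub_le_integral {a b : ℝ} (hab : a ≤ b) : |f b - f a| ≤ ∫ t in a..b, |f' t| := by
  rw [← intervalIntegral.integral_eq_sub_of_hasDerivAt (fun t _ => hf t)
    (hc.intervalIntegrable a b)]
  exact intervalIntegral.abs_integral_le_integral_abs hab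

theorem var_closed (h01 : f 1 = f 0) {a b : ℝ} (ha : a ∈ Icc (0 : ℝ) 1) (hb : b ∈ Icc (0 : ℝ) 1) :
    2 * |f a - f b| ≤ ∫ t in (0 : ℝ)..1, |f' t| := by
  wlog hab : a ≤ b generalizing a b
  · rw [abs_sub_comm]
    exact this hb ha (le_of_not_ge hab)
  have hi : ∀ u v : ℝ, IntervalIntegrable (fun t => |f' t|) volume u v := fun u v =>
    hc.abs.intervalIntegrable u v
  rw [← intervalIntegral.integral_add_adjacent_intervals (hi 0 a) (hi a 1),
    ← intervalIntegral.integral_add_adjacent_intervals (hi a b) (hi b 1)]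
  have h1 := abs_sub_le_integral hf hc ha.1
  have h2 := abs_sub_le_integral hf hc hab
  have h3 := abs_sub_le_integral hf hc hb.2
  rw [h01] at h3
  have h4 : |f a - f b| ≤ |f a - f 0| + |f 0 - f b| := abs_sub_le _ _ _
  rw [abs_sub_comm] at h2
  linarith

theorem var_odd (h01 : f 1 = -f 0) {a : ℝ} (ha : a ∈ Icc (0 : ℝ) 1) :
    2 * |f a| ≤ ∫ t in (0 : ℝ)..1, |f' t| := by
  have hi : ∀ u v : ℝ, IntervalIntegrable (fun t => |f' t|) volume u v := fun u v =>
    hc.abs.intervalIntegrable u v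
  rw [← intervalIntegral.integral_add_adjacent_intervals (hi 0 a) (hi a 1)]
  have h1 := abs_sub_le_integral hf hc ha.1
  have h3 := abs_sub_le_integral hf hc ha.2
  rw [h01] at h3
  have h4 : |2 * f a| ≤ |f a - f 0| + |f a + f 0| := by
    have := abs_add_le (f a - f 0) (f a + f 0)
    rwa [show f a - f 0 + (f a + f 0) = 2 * f a by ring] at this
  have h5 : |-f 0 - f a| = |f a + f 0| := by
    rw [← abs_neg]; congr 1; ring
  rw [abs_mul, abs_two] at h4
  linarith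

end var

theorem lift_eq {E : ℝ → ℂ} {g : ℝ → ℝ} (hg : Continuous g)
    (hE : ∀ t ∈ Icc (0 : ℝ) 1, HasDerivAt E (2 * Complex.I * g t * E t) t) :
    ∀ t ∈ Icc (0 : ℝ) 1, E t = E 0 * Complex.exp (2 * Complex.I * ((∫ u in (0 : ℝ)..t, g u : ℝ) : ℂ)) := by
  have hθ : ∀ t, HasDerivAt (fun t => ∫ u in (0 : ℝ)..t, g u) (g t) t := fun t =>
    intervalIntegral.integral_hasDerivAt_right (hg.intervalIntegrable 0 t)
      (hg.stronglyMeasurableAtFilter _ _) hg.continuousAt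
  set f : ℝ → ℂ := fun t =>
    E t * Complex.exp (-(2 * Complex.I * ((∫ u in (0 : ℝ)..t, g u : ℝ) : ℂ))) with hf
  have hd : ∀ t ∈ Icc (0 : ℝ) 1, HasDerivAt f 0 t := by
    intro t ht
    have h1 : HasDerivAt (fun t => ((∫ u in (0 : ℝ)..t, g u : ℝ) : ℂ)) (g t : ℂ) t :=
      (hθ t).ofReal_comp
    have h2 := ((h1.const_mul (2 * Complex.I)).neg).cexp
    have h3 := (hE t ht).mul h2
    refine h3.congr_deriv ?_
    ring
  have hconst : ∀ t ∈ Icc (0 : ℝ) 1, f t = f 0 :=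
    constant_of_has_deriv_right_zero (fun t ht => (hd t ht).continuousAt.continuousWithinAt)
      fun t ht => (hd t (Ico_subset_Icc_self ht)).hasDerivWithinAt
  intro t ht
  have h1 := hconst t ht
  simp only [hf, intervalIntegral.integral_same, Complex.ofReal_zero, mul_zero, neg_zero,
    Complex.exp_zero, mul_one] at h1
  rw [← h1, mul_assoc, ← Complex.exp_add, neg_add_cancel, Complex.exp_zero, mul_one]

theorem lift_int {E : ℝ → ℂ} {g : ℝ → ℝ} (hg : Continuous g)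
    (hE : ∀ t ∈ Icc (0 : ℝ) 1, HasDerivAt E (2 * Complex.I * g t * E t) t)
    (hE0 : ‖E 0‖ = 1) (hE1 : E 1 = E 0) : ∃ k : ℤ, ∫ u in (0 : ℝ)..1, g u = k * Real.pi := by
  have h := lift_eq hg hE 1 ⟨zero_le_one, le_rfl⟩
  have hne : E 0 ≠ 0 := by
    intro h0; rw [h0, norm_zero] at hE0; exact zero_ne_one hE0
  rw [hE1] at h
  have h2 : Complex.exp (2 * Complex.I * ((∫ u in (0 : ℝ)..1, g u : ℝ) : ℂ)) = 1 := by
    have : E 0 * Complex.exp (2 * Complex.I * ((∫ u in (0 : ℝ)..1, g u : ℝ) : ℂ)) = E 0 * 1 := by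
      rw [← h, mul_one]
    exact mul_left_cancel₀ hne this
  obtain ⟨k, hk⟩ := Complex.exp_eq_one_iff.1 h2
  refine ⟨k, ?_⟩
  have h3 : ((∫ u in (0 : ℝ)..1, g u : ℝ) : ℂ) = ((k * Real.pi : ℝ) : ℂ) := by
    have hI : (2 * Complex.I) ≠ 0 := by simp
    apply mul_left_cancel₀ hI
    rw [hk]; push_cast; ring
  exact_mod_cast h3

theorem lift_zero {Z E : ℝ → ℂ} {g : ℝ → ℝ} (hg : Continuous g)
    (hE : ∀ t ∈ Icc (0 : ℝ) 1, HasDerivAt E (2 * Complex.I * g t * E t) t)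
    (hE0 : ‖E 0‖ = 1) (hZ : ContinuousOn Z (Icc 0 1)) {c : ℝ} (hc : c < 0)
    (hZ1 : Z 1 = c * Z 0) (h0 : ∫ u in (0 : ℝ)..1, g u = 0) :
    ∃ t ∈ Icc (0 : ℝ) 1, conj (E t) * Z t ^ 2 = -(‖Z t‖ ^ 2 : ℝ) := by
  obtain ⟨d, hd⟩ : ∃ d : ℂ, d ^ 2 = E 0 := IsAlgClosed.exists_pow_nat_eq (E 0) two_pos
  have hdn : ‖d‖ = 1 := by
    have : ‖d‖ ^ 2 = 1 := by rw [← norm_pow, hd, hE0]
    exact (pow_eq_one_iff_of_nonneg (norm_nonneg d) two_ne_zero).1 this
  have hθc : Continuous fun t => ∫ u in (0 : ℝ)..t, g u :=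
    intervalIntegral.continuous_primitive (fun a b => hg.intervalIntegrable a b) 0
  set D : ℝ → ℂ := fun t => d * Complex.exp (Complex.I * ((∫ u in (0 : ℝ)..t, g u : ℝ) : ℂ)) with hD
  have hDc : Continuous D := by
    refine continuous_const.mul (Complex.continuous_exp.comp (continuous_const.mul ?_))
    exact Complex.continuous_ofReal.comp hθc
  have hDn : ∀ t, ‖D t‖ = 1 := fun t => by
    simp only [hD]
    rw [norm_mul, hdn, one_mul, mul_comm Complex.I, Complex.norm_exp_ofReal_mul_I]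
  have hDsq : ∀ t ∈ Icc (0 : ℝ) 1, D t ^ 2 = E t := fun t ht => by
    rw [lift_eq hg hE t ht, hD]
    simp only
    rw [mul_pow, hd, ← Complex.exp_nat_mul]
    congr 2
    push_cast; ring
  have hD0 : D 0 = d := by simp [hD]
  have hD1 : D 1 = d := by simp [hD, h0]
  set r : ℝ → ℝ := fun t => (conj (D t) * Z t).re with hr
  have hrc : ContinuousOn r (Icc 0 1) := by
    refine Complex.continuous_re.comp_continuousOn ?_
    exact (Complex.continuous_conj.comp hDc).continuousOn.mul hZ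
  have hr1 : r 1 = c * r 0 := by
    simp only [hr]
    rw [hD0, hD1, hZ1, show conj d * ((c : ℂ) * Z 0) = (c : ℂ) * (conj d * Z 0) by ring,
      Complex.re_ofReal_mul]
  obtain ⟨t, ht, hrt⟩ : ∃ t ∈ Icc (0 : ℝ) 1, r t = 0 := by
    rcases le_total (r 0) 0 with h | h
    · have h1 : 0 ≤ r 1 := by rw [hr1]; exact mul_nonneg_of_nonpos_of_nonpos hc.le h
      exact intermediate_value_Icc zero_le_one hrc ⟨h, h1⟩
    · have h1 : r 1 ≤ 0 := by rw [hr1]; exact mul_nonpos_of_nonpos_of_nonneg hc.le h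
      exact intermediate_value_Icc' zero_le_one hrc ⟨h1, h⟩
  refine ⟨t, ht, ?_⟩
  have h1 : conj (E t) * Z t ^ 2 = (conj (D t) * Z t) ^ 2 := by
    rw [← hDsq t ht, map_pow, mul_pow]
  set ζ : ℂ := conj (D t) * Z t with hζ
  have h2 : ζ.re = 0 := hrt
  have h3 : ‖ζ‖ = ‖Z t‖ := by rw [hζ, norm_mul, RCLike.norm_conj, hDn, one_mul]
  have h4 : ζ = ζ.im * Complex.I := by
    apply Complex.ext <;> simp [h2]
  have h5 : ‖ζ‖ ^ 2 = ζ.im ^ 2 := by
    rw [← Complex.normSq_eq_norm_sq, Complex.normSq_apply, h2]; ring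
  rw [h1, ← h3, h5, h4]
  simp only [mul_pow, Complex.I_sq]
  simp

theorem hasDerivAt_U {Z : ℝ → ℂ} {Z' : ℂ} {t : ℝ} (hZ : HasDerivAt Z Z' t) (h0 : Z t ≠ 0) :
    HasDerivAt (fun t => Z t / conj (Z t))
      (2 * Complex.I * ((Z' / Z t).im : ℂ) * (Z t / conj (Z t))) t := by
  have hc : HasDerivAt (fun t => conj (Z t)) (conj Z') t := hZ.star
  have h0' : conj (Z t) ≠ 0 := by simpa using h0
  refine (hZ.div hc h0').congr_deriv ?_
  have h1 : (2 * Complex.I * ((Z' / Z t).im : ℂ)) = Z' / Z t - conj Z' / conj (Z t) := by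
    rw [← map_div₀, Complex.sub_conj]; push_cast; ring
  rw [h1]
  field_simp

theorem norm_U {z : ℂ} (h : z ≠ 0) : ‖z / conj z‖ = 1 := by
  rw [norm_div, RCLike.norm_conj, div_self (norm_ne_zero_iff.2 h)]

theorem conj_U_mul_sq {z : ℂ} (h : z ≠ 0) : conj (z / conj z) * z ^ 2 = (‖z‖ ^ 2 : ℝ) := by
  have h0' : conj z ≠ 0 := by simpa using h
  rw [map_div₀, Complex.conj_conj]
  have : (((‖z‖ ^ 2 : ℝ)) : ℂ) = z * conj z := by
    rw [Complex.mul_conj, Complex.normSq_eq_norm_sq]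
  rw [this]
  field_simp

end Pool.Agent.H785.RP
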