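import Pool.Agent.H785.RP.Ex2
import Pool.Agent.H785.RP.Lift

/-!
# The unit complex functions `E_j`
-/

open Set Filter
open scoped ContDiff Topology ComplexConjugate

namespace Pool.Agent.H785.RP.Ex

/-- the complex coordinates -/
noncomputable def Z (k : Fin 3) (x : Co 5) : ℂ := (x (ix k) : ℂ) + (x (iy k) : ℂ) * Complex.I

theorem Z_re (k : Fin 3) (x : Co 5) : (Z k x).re = x (ix k) := by simp [Z]

theorem Z_im (k : Fin 3) (x : Co 5) : (Z k x).im = x (iy k) := by simp [Z]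

theorem Z_smul (k : Fin 3) (x : Co 5) (c : ℝ) : Z k (c • x) = c * Z k x := by
  simp only [Z, Pi.smul_apply, smul_eq_mul]; push_cast; ring

theorem normSq_Z (k : Fin 3) (x : Co 5) : Complex.normSq (Z k x) = sq k x := by
  rw [Complex.normSq_apply, Z_re, Z_im, sq]; ring

theorem norm_Z_sq (k : Fin 3) (x : Co 5) : ‖Z k x‖ ^ 2 = sq k x := by
  rw [← Complex.normSq_eq_norm_sq, normSq_Z]

theorem Z_ne {k : Fin 3} {x : Co 5} (h : 0 < s k x) : Z k x ≠ 0 := by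
  intro h0
  have := sq_pos_of h
  rw [← normSq_Z, h0, map_zero] at this
  exact lt_irrefl _ this

theorem A_eq (k : Fin 3) (x v : Co 5) : A k x v = (Z k v / Z k x).im := by
  rw [Complex.div_im, normSq_Z, Z_re, Z_im, Z_re, Z_im, A]; ring

theorem hasDerivAt_Z (k : Fin 3) {γ : ℝ → Co 5} {γ' : Co 5} {t : ℝ} (hγ : HasDerivAt γ γ' t) :
    HasDerivAt (fun t => Z k (γ t)) (Z k γ') t := by
  have h := hasDerivAt_pi.1 hγ
  exact ((h (ix k)).ofReal_comp).add (((h (iy k)).ofReal_comp).mul_const Complex.I)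

theorem P_eq (x : Co 5) : Z 0 x * Z 1 x * Z 2 x = (Pr x : ℂ) + (Pi x : ℂ) * Complex.I := by
  apply Complex.ext
  · simp [Z, Pr, ix, iy]
  · simp [Z, Pi, ix, iy]

/-- the squared phase -/
noncomputable def U (k : Fin 3) (x : Co 5) : ℂ := Z k x / conj (Z k x)

theorem U_smul (k : Fin 3) (x : Co 5) {c : ℝ} (hc : c ≠ 0) : U k (c • x) = U k x := by
  have : (c : ℂ) ≠ 0 := by exact_mod_cast hc
  rw [U, U, Z_smul, map_mul, Complex.conj_ofReal, mul_div_mul_left _ _ this]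

theorem norm_U' {k : Fin 3} {x : Co 5} (h : 0 < s k x) : ‖U k x‖ = 1 := norm_U (Z_ne h)

theorem U_mul_conj {k : Fin 3} {x : Co 5} (h : 0 < s k x) : U k x * conj (U k x) = 1 := by
  rw [Complex.mul_conj, Complex.normSq_eq_norm_sq, norm_U' h]; simp

theorem hasDerivAt_U' (k : Fin 3) {γ : ℝ → Co 5} {γ' : Co 5} {t : ℝ} (hγ : HasDerivAt γ γ' t)
    (h : 0 < s k (γ t)) :
    HasDerivAt (fun t => U k (γ t)) (2 * Complex.I * (A k (γ t) γ' : ℂ) * U k (γ t)) t := by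
  have := hasDerivAt_U (hasDerivAt_Z k hγ) (Z_ne h)
  rw [← A_eq] at this
  exact this

theorem s_pos_of_Pi {x : Co 5} (hx : x ≠ 0) (hP : Pi x ≠ 0) (k : Fin 3) : 0 < s k x := by
  have h := normSq_P x
  have h1 : 0 < Pr x ^ 2 + Pi x ^ 2 := by positivity
  rw [h] at h1
  have h2 : sq k x ≠ 0 := by
    intro h0
    fin_cases k <;> simp at h0 <;> simp [h0] at h1
  exact div_pos (lt_of_le_of_ne (sq_nonneg' k x) h2.symm) (nsq_pos hx)

theorem hasDerivAt_τ {γ : ℝ → Co 5} {γ' : Co 5} {t : ℝ} (hγ : HasDerivAt γ γ' t)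
    (hx : γ t ≠ 0) (hP : Pi (γ t) ≠ 0) :
    HasDerivAt (fun t => τ (γ t)) (-(A 0 (γ t) γ' + A 1 (γ t) γ' + A 2 (γ t) γ')) t := by
  have hs := s_pos_of_Pi hx hP
  have h0 := Z_ne (hs 0)
  have h1 := Z_ne (hs 1)
  have h2 := Z_ne (hs 2)
  set W' : ℂ := (Z 0 γ' * Z 1 (γ t) + Z 0 (γ t) * Z 1 γ') * Z 2 (γ t)
    + Z 0 (γ t) * Z 1 (γ t) * Z 2 γ' with hW'
  have hW : HasDerivAt (fun t => Z 0 (γ t) * Z 1 (γ t) * Z 2 (γ t)) W' t :=
    ((hasDerivAt_Z 0 hγ).mul (hasDerivAt_Z 1 hγ)).mul (hasDerivAt_Z 2 hγ)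
  have hre : HasDerivAt (fun t => Pr (γ t)) W'.re t := by
    have := Complex.reCLM.hasFDerivAt.comp_hasDerivAt t hW
    refine (this.congr_deriv rfl).congr_of_eventuallyEq (Eventually.of_forall fun u => ?_)
    simp [P_eq]
  have him : HasDerivAt (fun t => Pi (γ t)) W'.im t := by
    have := Complex.imCLM.hasFDerivAt.comp_hasDerivAt t hW
    refine (this.congr_deriv rfl).congr_of_eventuallyEq (Eventually.of_forall fun u => ?_)
    simp [P_eq]
  have h := (hre.div him hP).arctan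
  refine h.congr_deriv ?_
  have e1 : A 0 (γ t) γ' + A 1 (γ t) γ' + A 2 (γ t) γ' = (W' / (Pr (γ t) + Pi (γ t) * Complex.I)).im := by
    rw [A_eq, A_eq, A_eq, ← Complex.add_im, ← Complex.add_im, ← P_eq]
    congr 1
    rw [hW']
    field_simp
  rw [e1, Complex.div_im]
  have hn : Complex.normSq ((Pr (γ t) : ℂ) + Pi (γ t) * Complex.I) = Pr (γ t) ^ 2 + Pi (γ t) ^ 2 := by
    rw [Complex.normSq_apply]; simp; ring
  have hpos : Pr (γ t) ^ 2 + Pi (γ t) ^ 2 ≠ 0 := by positivity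
  rw [hn]
  simp only [Complex.add_re, Complex.ofReal_re, Complex.mul_re, Complex.I_re, mul_zero,
    Complex.ofReal_im, Complex.I_im, mul_one, sub_self, add_zero, Complex.add_im, Complex.mul_im,
    zero_add]
  have e2 : 1 + (Pr (γ t) / Pi (γ t)) ^ 2 = (Pr (γ t) ^ 2 + Pi (γ t) ^ 2) / Pi (γ t) ^ 2 := by
    field_simp; ring
  simp only [Pi.div_apply]
  rw [e2]
  field_simp
  ring

theorem exp_τ {x : Co 5} (hx : x ≠ 0) (hP : Pi x ≠ 0) :
    Complex.exp (2 * Complex.I * (τ x : ℂ)) = -conj (U 0 x * U 1 x * U 2 x) := by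
  have hs := s_pos_of_Pi hx hP
  have h0 := Z_ne (hs 0)
  have h1 := Z_ne (hs 1)
  have h2 := Z_ne (hs 2)
  have hPc := P_eq x
  have hne : (Pr x : ℂ) + (Pi x : ℂ) * Complex.I ≠ 0 := by
    rw [← hPc]; exact mul_ne_zero (mul_ne_zero h0 h1) h2
  have e1 : conj (U 0 x * U 1 x * U 2 x)
      = ((Pr x : ℂ) - (Pi x : ℂ) * Complex.I) / ((Pr x : ℂ) + (Pi x : ℂ) * Complex.I) := by
    have e2 : (Pr x : ℂ) - (Pi x : ℂ) * Complex.I = conj (Z 0 x * Z 1 x * Z 2 x) := by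
      rw [hPc]; simp [sub_eq_add_neg]
    rw [e2, ← hPc]
    simp only [U, map_mul, map_div₀, Complex.conj_conj]
    have h0' : conj (Z 0 x) ≠ 0 := by simpa using h0
    have h1' : conj (Z 1 x) ≠ 0 := by simpa using h1
    have h2' : conj (Z 2 x) ≠ 0 := by simpa using h2
    field_simp
  rw [e1]
  have e3 : Complex.exp (2 * Complex.I * (τ x : ℂ)) = ((Real.cos (τ x) : ℂ) + (Real.sin (τ x) : ℂ)
      * Complex.I) ^ 2 := by
    rw [Complex.ofReal_cos, Complex.ofReal_sin, ← Complex.exp_mul_I, ← Complex.exp_nat_mul]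
    congr 1; push_cast; ring
  set q := Pr x / Pi x with hq
  have hq2 : 0 < 1 + q ^ 2 := by positivity
  have hsq : (√(1 + q ^ 2)) ^ 2 = 1 + q ^ 2 := Real.sq_sqrt hq2.le
  have hsqne : √(1 + q ^ 2) ≠ 0 := (Real.sqrt_pos.2 hq2).ne'
  have e4 : ((Real.cos (τ x) : ℂ) + (Real.sin (τ x) : ℂ) * Complex.I)
      = (1 + (q : ℂ) * Complex.I) / (√(1 + q ^ 2) : ℝ) := by
    rw [τ, Real.cos_arctan, Real.sin_arctan, ← hq]
    push_cast
    ring
  rw [e3, e4, div_pow, ← Complex.ofReal_pow, hsq]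
  have hPc' : (Pi x : ℂ) ≠ 0 := by exact_mod_cast hP
  have hq3 : ((1 + q ^ 2 : ℝ) : ℂ) ≠ 0 := by exact_mod_cast hq2.ne'
  have e5 : (q : ℂ) * Pi x = Pr x := by
    rw [hq]; push_cast; field_simp
  rw [div_eq_iff hq3, ← neg_div, div_mul_eq_mul_div, eq_div_iff hne]
  apply mul_left_cancel₀ (pow_ne_zero 2 hPc')
  push_cast
  have e6 : (Pi x : ℂ) ^ 2 * ((1 + q * Complex.I) ^ 2 * (Pr x + Pi x * Complex.I))
      = (Pi x + (q * Pi x) * Complex.I) ^ 2 * (Pr x + Pi x * Complex.I) := by ring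
  have e7 : (Pi x : ℂ) ^ 2 * (-(Pr x - Pi x * Complex.I) * (1 + (q : ℂ) ^ 2))
      = -(Pr x - Pi x * Complex.I) * ((Pi x : ℂ) ^ 2 + (q * Pi x) ^ 2) := by ring
  rw [e6, e7, e5]
  linear_combination (2 * (Pr x : ℂ) * (Pi x : ℂ) ^ 2 + (Pr x : ℂ) ^ 2 * (Pi x : ℂ) * Complex.I
    + (Pr x : ℂ) ^ 3) * Complex.I_sq

end Pool.Agent.H785.RP.Ex
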