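import Pool.Agent.H785.RP.Ang

/-!
# The unit complex functions `E_j`
-/

open Set Filter
open scoped ContDiff Topology ComplexConjugate

namespace Pool.Agent.H785.RP.Ex

theorem Reg.eventually {x : Co 5} (h : Reg x) : ∀ᶠ z in 𝓝 x, Reg z := by
  have h1 : ∀ᶠ z in 𝓝 x, z ≠ 0 := isOpen_ne.mem_nhds h.1
  have h2 : ∀ᶠ z in 𝓝 x, ∀ k, s k z < 9 / 10 := by
    rw [eventually_all]
    exact fun k => ((func_s k).diff h.1).continuousAt.eventually_lt continuousAt_const (h.2.1 k)
  have h3 : ∀ᶠ z in 𝓝 x, (100 * Q z) ^ 2 < 3 := by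
    have hc : ContinuousAt (fun z => (100 * Q z) ^ 2) x := by
      have := (func_Q.diff h.1).continuousAt
      fun_prop
    exact hc.eventually_lt continuousAt_const h.2.2
  filter_upwards [h1, h2, h3] with z hz1 hz2 hz3 using ⟨hz1, hz2, hz3⟩

theorem Reg.small {x : Co 5} (h : Reg x) {j : Fin 3} (hj : s j x < 1 / 25) :
    ∀ i, i ≠ j → 1 / 20 < s i x := by
  rcases h.cases with ⟨h1, -⟩ | ⟨i, -, h2⟩
  · exact absurd (h1 j) (not_le.2 hj)
  · by_cases hij : j = i
    · subst hij; exact h2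
    · exact absurd (h2 j hij) (not_lt.2 (hj.le.trans (by norm_num)))

theorem Reg.w_mem {x : Co 5} (h : Reg x) (j : Fin 3) : 0 ≤ w j x ∧ w j x ≤ 1 := by
  have h0 := lam_mem (s 0 x)
  have h1 := lam_mem (s 1 x)
  have h2 := nu_mem (s 2 x)
  have h3 : lam (s 0 x) = 0 ∨ lam (s 1 x) = 0 := by
    by_contra hc
    push Not at hc
    have ha : s 0 x < 1 / 20 := by
      by_contra h'; exact hc.1 (lam_zero (not_lt.1 h'))
    have hb : s 1 x < 1 / 20 := by
      by_contra h'; exact hc.2 (lam_zero (not_lt.1 h'))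
    have := sum_s h.1
    have := h.2.1 2
    linarith
  have h4 : 0 ≤ 1 - lam (s 0 x) - lam (s 1 x) ∧ 1 - lam (s 0 x) - lam (s 1 x) ≤ 1 := by
    rcases h3 with h3 | h3 <;> rw [h3] <;> constructor <;> linarith
  have h5 : 0 ≤ w 0 x ∧ 0 ≤ w 1 x ∧ 0 ≤ w 2 x := by
    refine ⟨?_, ?_, ?_⟩
    · exact add_nonneg h0.1 (mul_nonneg h4.1 (by linarith))
    · exact h1.1
    · exact mul_nonneg h4.1 h2.1
  have h6 := w_sum x
  fin_cases j <;> simp <;> constructor <;> linarith

/-- the functions `E_j` -/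
noncomputable def EE (j : Fin 3) (x : Co 5) : ℂ :=
  if s j x < 1 / 25 then -conj (U (j + 1) x * U (j + 2) x)
  else U j x * Complex.exp (2 * Complex.I * ((w j x * τ x : ℝ) : ℂ))

theorem ne_one (j : Fin 3) : j + 1 ≠ j := by fin_cases j <;> decide
theorem ne_two (j : Fin 3) : j + 2 ≠ j := by fin_cases j <;> decide

theorem sum_shift (f : Fin 3 → ℝ) (j : Fin 3) : f 0 + f 1 + f 2 = f j + f (j + 1) + f (j + 2) := by
  fin_cases j <;> simp <;> ring

theorem prod_shift (f : Fin 3 → ℂ) (j : Fin 3) : f 0 * f 1 * f 2 = f j * f (j + 1) * f (j + 2) := by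
  fin_cases j <;> simp <;> ring

theorem EE_smul (j : Fin 3) {x : Co 5} (hx : x ≠ 0) {c : ℝ} (hc : c ≠ 0) :
    EE j (c • x) = EE j x := by
  simp only [EE, s_smul _ x hc, U_smul _ x hc, τ_inv x hc, Func.one_inv (func_w j) hx hc]

theorem norm_EE (j : Fin 3) {x : Co 5} (h : Reg x) : ‖EE j x‖ = 1 := by
  rw [EE]
  split_ifs with hj
  · have h1 := h.small hj
    have p1 : 0 < s (j + 1) x := lt_trans (by norm_num) (h1 _ (ne_one j))
    have p2 : 0 < s (j + 2) x := lt_trans (by norm_num) (h1 _ (ne_two j))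
    rw [norm_neg, RCLike.norm_conj, norm_mul, norm_U' p1, norm_U' p2, one_mul]
  · have p : 0 < s j x := lt_of_lt_of_le (by norm_num) (not_lt.1 hj)
    rw [norm_mul, norm_U' p, one_mul,
      show 2 * Complex.I * ((w j x * τ x : ℝ) : ℂ) = ((2 * (w j x * τ x) : ℝ) : ℂ) * Complex.I by
        push_cast; ring, Complex.norm_exp_ofReal_mul_I]

theorem EE_ne (j : Fin 3) {x : Co 5} (h : Reg x) (hj : 1 / 25 ≤ s j x) :
    conj (EE j x) * Z j x ^ 2 ≠ -(‖Z j x‖ ^ 2 : ℝ) := by
  intro heq
  have p : 0 < s j x := lt_of_lt_of_le (by norm_num) hj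
  have hZ := Z_ne p
  rw [EE, if_neg (not_lt.2 hj), map_mul, mul_right_comm, U, conj_U_mul_sq hZ] at heq
  have hn : (((‖Z j x‖ ^ 2 : ℝ)) : ℂ) ≠ 0 := by
    have : ‖Z j x‖ ^ 2 ≠ 0 := pow_ne_zero 2 (norm_ne_zero_iff.2 hZ)
    exact_mod_cast this
  have h1 : conj (Complex.exp (2 * Complex.I * ((w j x * τ x : ℝ) : ℂ))) = -1 := by
    apply mul_left_cancel₀ hn
    rw [heq]; ring
  have h2 : Complex.exp (2 * Complex.I * ((w j x * τ x : ℝ) : ℂ)) = -1 := by
    have := congrArg conj h1
    rw [Complex.conj_conj] at this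
    rw [this]; simp
  have h3 : Real.cos (2 * (w j x * τ x)) = -1 := by
    have := congrArg Complex.re h2
    rw [show 2 * Complex.I * ((w j x * τ x : ℝ) : ℂ) = ((2 * (w j x * τ x) : ℝ) : ℂ) * Complex.I by
        push_cast; ring, Complex.exp_ofReal_mul_I_re] at this
    rw [this]; simp
  have h4 := h.w_mem j
  have h5 : |τ x| < Real.pi / 2 := by
    rw [abs_lt]; exact ⟨Real.neg_pi_div_two_lt_arctan _, Real.arctan_lt_pi_div_two _⟩
  have h6 : |w j x * τ x| < Real.pi / 2 := by
    rw [abs_mul, abs_of_nonneg h4.1]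
    exact lt_of_le_of_lt (mul_le_of_le_one_left (abs_nonneg _) h4.2) h5
  rw [abs_lt] at h6
  have h7 := Real.cos_pos_of_mem_Ioo h6
  rw [Real.cos_two_mul] at h3
  nlinarith

/-- the forms `om j` are the logarithmic derivatives of the functions `E_j` -/
theorem hasDerivAt_EE (j : Fin 3) {γ : ℝ → Co 5} {γ' : Co 5} {t : ℝ} (hγ : HasDerivAt γ γ' t)
    (hr : Reg (γ t)) :
    HasDerivAt (fun t => EE j (γ t)) (2 * Complex.I * (om j (γ t) γ' : ℂ) * EE j (γ t)) t := by
  have hc : ContinuousAt γ t := hγ.continuousAt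
  rcases hr.cases with ⟨h1, hP⟩ | ⟨i, h1, h2⟩
  · have hPe : ∀ᶠ z in 𝓝 (γ t), Pi z ≠ 0 :=
      contDiff_Pi.continuous.continuousAt.eventually_ne hP
    have hev : ∀ᶠ z in 𝓝 (γ t), EE j z
        = U j z * Complex.exp (2 * Complex.I * ((w j z * τ z : ℝ) : ℂ)) := by
      filter_upwards [hPe, hr.eventually] with z hz1 hz2
      rw [EE]
      split_ifs with hj
      · have h3 := hz2.small hj
        have h4 := w_eq j hj.le (fun i hi => (h3 i hi).le) j
        rw [if_pos rfl] at h4
        rw [h4, one_mul, exp_τ hz2.1 hz1, prod_shift (fun k => U k z) j]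
        have h5 := U_mul_conj (s_pos_of_Pi hz2.1 hz1 j)
        simp only [map_mul]
        linear_combination (-(conj (U (j + 1) z) * conj (U (j + 2) z))) * h5 * (-1)
      · rfl
    have hev' : (fun u => EE j (γ u)) =ᶠ[𝓝 t]
        fun u => U j (γ u) * Complex.exp (2 * Complex.I * ((w j (γ u) * τ (γ u) : ℝ) : ℂ)) :=
      hc.eventually hev
    have hw : HasDerivAt (fun u => w j (γ u)) (fderiv ℝ (w j) (γ t) γ') t :=
      ((func_w j).diff hr.1).hasFDerivAt.comp_hasDerivAt t hγ
    have hτ := hasDerivAt_τ hγ hr.1 hP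
    have hU := hasDerivAt_U' j hγ (s_pos_of_Pi hr.1 hP j)
    have he := ((hw.mul hτ).ofReal_comp.const_mul (2 * Complex.I)).cexp
    have hfin := hU.mul he
    rw [hev.self_of_nhds]
    refine (hfin.congr_deriv ?_).congr_of_eventuallyEq hev'
    simp only [om, Pi.mul_apply]
    push_cast
    ring
  · have hom := om_eq hr.1 i h1 h2
    by_cases hij : j = i
    · subst hij
      have hev : ∀ᶠ z in 𝓝 (γ t), EE j z = -conj (U (j + 1) z * U (j + 2) z) := by
        have : ∀ᶠ z in 𝓝 (γ t), s j z < 1 / 25 :=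
          ((func_s j).diff hr.1).continuousAt.eventually_lt continuousAt_const h1
        filter_upwards [this] with z hz
        rw [EE, if_pos hz]
      have hev' : (fun u => EE j (γ u)) =ᶠ[𝓝 t]
          fun u => -conj (U (j + 1) (γ u) * U (j + 2) (γ u)) := hc.eventually hev
      have p1 : 0 < s (j + 1) (γ t) := lt_trans (by norm_num) (h2 _ (ne_one j))
      have p2 : 0 < s (j + 2) (γ t) := lt_trans (by norm_num) (h2 _ (ne_two j))
      have hfin := ((hasDerivAt_U' (j + 1) hγ p1).mul (hasDerivAt_U' (j + 2) hγ p2)).star.neg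
      have ho : om j (γ t) γ' = -(A (j + 1) (γ t) γ' + A (j + 2) (γ t) γ') := by
        have := (hom.self_of_nhds j γ').2
        rw [this, if_pos rfl, sum_shift (fun k => A k (γ t) γ') j]; ring
      rw [hev.self_of_nhds]
      refine (hfin.congr_deriv ?_).congr_of_eventuallyEq hev'
      rw [ho]
      have hs : ∀ z : ℂ, star z = conj z := fun z => rfl
      rw [hs]
      simp only [map_add, map_mul, Complex.conj_I, Complex.conj_ofReal, map_ofNat]
      push_cast
      ring
    · have hev : ∀ᶠ z in 𝓝 (γ t), EE j z = U j z := by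
        have : ∀ᶠ z in 𝓝 (γ t), 1 / 20 < s j z :=
          continuousAt_const.eventually_lt ((func_s j).diff hr.1).continuousAt (h2 j hij)
        filter_upwards [this, hom] with z hz1 hz2
        have h3 := (hz2 j 0).1
        rw [if_neg hij] at h3
        rw [EE, if_neg (not_lt.2 (le_trans (by norm_num) hz1.le)), h3]
        simp
      have hev' : (fun u => EE j (γ u)) =ᶠ[𝓝 t] fun u => U j (γ u) := hc.eventually hev
      have ho : om j (γ t) γ' = A j (γ t) γ' := by
        have := (hom.self_of_nhds j γ').2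
        rw [this, if_neg hij]; ring
      rw [hev.self_of_nhds, ho]
      exact (hasDerivAt_U' j hγ (lt_trans (by norm_num) (h2 j hij))).congr_of_eventuallyEq hev'

end Pool.Agent.H785.RP.Ex
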