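import Pool.Agent.H785.RP.Forms

/-!
# Strong convexity of the metrics
-/

open MeasureTheory Set Filter
open scoped ContDiff ENNReal Nat Topology

namespace Pool.Agent.H785.RP

variable {n : ℕ}

/-- the second derivative of a smooth convex function is nonnegative -/
theorem deriv2_nonneg {h : ℝ → ℝ} (hc : ConvexOn ℝ univ h) (hs : ContDiffAt ℝ 2 h 0) :
    0 ≤ deriv (deriv h) 0 := by
  have h1 : ∀ᶠ t in 𝓝 (0 : ℝ), DifferentiableAt ℝ h t := by
    have := hs.eventually (by simp)
    filter_upwards [this] with t ht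
    exact ht.differentiableAt (by norm_num)
  obtain ⟨r, hr, hball⟩ := Metric.eventually_nhds_iff_ball.1 h1
  have hmono : MonotoneOn (deriv h) (Metric.ball 0 r) :=
    (hc.subset (subset_univ _) (convex_ball 0 r)).monotoneOn_deriv hball
  have h2 := hmono.derivWithin_nonneg (x := 0)
  rwa [derivWithin_of_mem_nhds (Metric.ball_mem_nhds 0 hr)] at h2

theorem line_notMem {x v w : Co n} (hv : v ∉ Submodule.span ℝ {x}) :
    ∀ᶠ t in 𝓝 (0 : ℝ), v + t • w ∉ Submodule.span ℝ {x} := by
  have hcl : IsClosed ((Submodule.span ℝ {x} : Submodule ℝ (Co n)) : Set (Co n)) :=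
    Submodule.closed_of_finiteDimensional _
  have hcont : Continuous fun t : ℝ => v + t • w := by fun_prop
  exact (hcl.isOpen_compl.preimage hcont).mem_nhds (by simpa using hv)

section
variable {ι κ : Type} [Fintype ι] [Fintype κ] (a : ι → AForm n) (b : κ → AForm n) {ε : ℝ}

theorem isOpen_nonzeroTangent : IsOpen (nonzeroTangent n) := by
  have h : nonzeroTangent n = {p : Co n × Co n | 0 < gram p.1 p.2} := by
    ext ⟨x, v⟩
    constructor
    · rintro ⟨h1, h2⟩; exact gram_pos h1 h2
    · intro (h : 0 < gram x v)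
      refine ⟨?_, ?_⟩
      · rintro (rfl : x = 0)
        simp [gram, nsq, ip] at h
      · intro (h2 : v ∈ Submodule.span ℝ {x})
        obtain ⟨c, rfl⟩ := Submodule.mem_span_singleton.1 h2
        rw [gram, nsq_smul, ip_smul_right, ← nsq_eq] at h
        nlinarith
  rw [h]
  exact isOpen_lt continuous_const contDiff_gram.continuous

theorem strong_metric (hε : 0 < ε) {m : ℕ} (hm : m ≠ 0) {x v w : Co n} (hx : x ≠ 0)
    (hv : v ∉ Submodule.span ℝ {x}) (hw : w ∉ Submodule.span ℝ {x}) :
    0 < deriv (deriv fun t : ℝ => metric a b ε m x (v + t • w) ^ 2) 0 := by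
  set h : ℝ → ℝ := fun t => pre a b ε m x (v + t • w) ^ 2 with hh
  set q : ℝ → ℝ := fun t => (ε * rnd x (v + t • w)) ^ 2 with hq
  have hN := nsq_pos hx
  have hline : ContDiff ℝ ∞ fun t : ℝ => ((x, v + t • w) : Co n × Co n) := by fun_prop
  have hhs : ContDiffAt ℝ 2 h 0 := by
    have h1 : ContDiffAt ℝ ∞ (fun p : Co n × Co n => pre a b ε m p.1 p.2) (x, v + (0 : ℝ) • w) := by
      refine (contDiffOn_pre a b hε hm).contDiffAt (isOpen_nonzeroTangent.mem_nhds ?_)
      exact ⟨hx, by simpa using hv⟩
    have h2 : ContDiffAt ℝ ∞ (fun t : ℝ => pre a b ε m x (v + t • w)) 0 :=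
      h1.comp (0 : ℝ) (f := fun t : ℝ => ((x, v + t • w) : Co n × Co n)) hline.contDiffAt
    exact (h2.of_le ENat.LEInfty.out).pow 2
  have hqe : q = fun t => ε ^ 2 / nsq x ^ 2 * (gram x v + 2 * (nsq x * ip v w - ip x v * ip x w) * t
      + gram x w * t ^ 2) := by
    funext t
    simp only [hq]
    rw [rnd, mul_pow, div_pow, Real.sq_sqrt (gram_nonneg _ _), gram, nsq_add, nsq_smul,
      ip_smul_right, ip_add_right, ip_smul_right, gram, gram]
    ring
  have hqs : ContDiff ℝ 2 q := by rw [hqe]; fun_prop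
  have hconv : ConvexOn ℝ univ h := by
    have h1 : ConvexOn ℝ univ fun t : ℝ => pre a b ε m x (v + t • w) := by
      refine ⟨convex_univ, fun s _ t _ α β hα hβ hαβ => ?_⟩
      have e : v + (α • s + β • t) • w = α • (v + s • w) + β • (v + t • w) := by
        have : v = (α + β) • v := by rw [hαβ, one_smul]
        calc v + (α • s + β • t) • w = (α + β) • v + (α • s + β • t) • w := by rw [← this]
          _ = _ := by simp only [smul_add, smul_smul, add_smul, smul_eq_mul]; abel
      simp only [e]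
      refine (pre_add_le a b hε.le (Nat.one_le_iff_ne_zero.2 hm) hx _ _).trans ?_
      rw [pre_smul a b hε.le hm x _ hα, pre_smul a b hε.le hm x _ hβ, smul_eq_mul, smul_eq_mul]
    exact h1.pow (fun t _ => pre_nonneg a b hε.le m x _) 2
  have hsum : (fun t : ℝ => metric a b ε m x (v + t • w) ^ 2) = h + q := by
    funext t; rw [metric_sq]; rfl
  have hd1 : ∀ᶠ t in 𝓝 (0 : ℝ), deriv (h + q) t = deriv h t + deriv q t := by
    have := hhs.eventually (by simp)
    filter_upwards [this] with t ht
    exact deriv_add (ht.differentiableAt (by norm_num))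
      ((hqs.differentiable (by norm_num)) t)
  have hdh : DifferentiableAt ℝ (deriv h) 0 := by
    have h1 : ContDiffAt ℝ 1 (fderiv ℝ h) 0 := hhs.fderiv_right (by norm_num)
    have h2 := (h1.differentiableAt (by norm_num)).clm_apply (differentiableAt_const (1 : ℝ))
    exact h2
  have hdq : DifferentiableAt ℝ (deriv q) 0 := by
    have h1 : ContDiffAt ℝ 1 (fderiv ℝ q) 0 := hqs.contDiffAt.fderiv_right (by norm_num)
    have h2 := (h1.differentiableAt (by norm_num)).clm_apply (differentiableAt_const (1 : ℝ))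
    exact h2
  have hd2 : deriv (deriv (h + q)) 0 = deriv (deriv h) 0 + deriv (deriv q) 0 := by
    rw [Filter.EventuallyEq.deriv_eq hd1]
    exact deriv_add hdh hdq
  have hdq2 : deriv (deriv q) 0 = ε ^ 2 / nsq x ^ 2 * (2 * gram x w) := by
    have e1 : deriv q = fun t => ε ^ 2 / nsq x ^ 2 *
        (2 * (nsq x * ip v w - ip x v * ip x w) + gram x w * (2 * t)) := by
      funext t
      rw [hqe]
      have : HasDerivAt (fun t : ℝ => ε ^ 2 / nsq x ^ 2 * (gram x v
          + 2 * (nsq x * ip v w - ip x v * ip x w) * t + gram x w * t ^ 2))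
          (ε ^ 2 / nsq x ^ 2 * (0 + 2 * (nsq x * ip v w - ip x v * ip x w) * 1
          + gram x w * (2 * t ^ (2 - 1) * 1))) t :=
        ((((hasDerivAt_const t _).add ((hasDerivAt_id' t).const_mul _)).add
          (((hasDerivAt_id' t).pow 2).const_mul _))).const_mul _
      rw [this.deriv]
      ring
    rw [e1]
    have : HasDerivAt (fun t : ℝ => ε ^ 2 / nsq x ^ 2 *
        (2 * (nsq x * ip v w - ip x v * ip x w) + gram x w * (2 * t)))
        (ε ^ 2 / nsq x ^ 2 * (0 + gram x w * (2 * 1))) 0 :=
      (((hasDerivAt_const (0 : ℝ) _).add (((hasDerivAt_id' (0 : ℝ)).const_mul 2).const_mul _))).const_mul _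
    rw [this.deriv]
    ring
  rw [hsum, hd2, hdq2]
  have h1 := deriv2_nonneg hconv hhs
  have h2 := gram_pos hx hw
  have : 0 < ε ^ 2 / nsq x ^ 2 * (2 * gram x w) := by positivity
  linarith

/-- the Finsler metric -/
noncomputable def finsler (a : ι → AForm n) (b : κ → AForm n) (hb : Inv b) (ε : ℝ) (hε : 0 < ε)
    (m : ℕ) (hm : m ≠ 0) : Finsler n where
  toFun := metric a b ε m
  invariant := fun _ v _ α hx hc => metric_invariant a b hb m hx v hc α
  smooth := contDiffOn_metric a b hε hm
  homogeneous := fun x v _ _ hr => metric_smul a b hε.le hm x v hr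
  subadditive := fun _ v w hx => metric_add_le a b hε.le (Nat.one_le_iff_ne_zero.2 hm) hx v w
  positive := fun _ _ hx hv => metric_pos a b hε m hx hv
  strong := fun _ _ _ hx hv hw => strong_metric a b hε hm hx hv hw

theorem finsler_toFun (hb : Inv b) (hε : 0 < ε) {m : ℕ} (hm : m ≠ 0) (x v : Co n) :
    (finsler a b hb ε hε m hm).toFun x v = metric a b ε m x v := rfl

end

end Pool.Agent.H785.RP
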