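import Pool.Agent.H785.RP.Dom
import Pool.Agent.H785.RP.Strong

/-!
# Approximation: volumes of the smooth metrics converge
-/

open MeasureTheory Set Filter
open scoped ContDiff ENNReal Nat Topology

namespace Pool.Agent.H785.RP

variable {n : ℕ}

theorem dir_notMem_span {y w : Fin n → ℝ} (hw : w ≠ 0) :
    dir w ∉ Submodule.span ℝ {aff y} := by
  rw [Submodule.mem_span_singleton]
  rintro ⟨c, hc⟩
  have h0 := congrFun hc 0
  simp only [Pi.smul_apply, aff, dir, Fin.cons_zero, smul_eq_mul, mul_one] at h0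
  apply hw
  funext i
  have h1 := congrFun hc i.succ
  simp only [Pi.smul_apply, aff, dir, Fin.cons_succ, smul_eq_mul, h0, zero_mul] at h1
  exact h1.symm

theorem dir_smul (r : ℝ) (w : Fin n → ℝ) : dir (r • w) = r • dir w := by
  funext i
  refine Fin.cases ?_ (fun i => ?_) i <;> simp [dir]

theorem dir_zero : dir (0 : Fin n → ℝ) = 0 := by
  funext i
  refine Fin.cases ?_ (fun i => ?_) i <;> simp [dir]

theorem polarBody_eq (F : Finsler n) (y : Fin n → ℝ) :
    F.polarBody y = body fun w => F.toFun (aff y) (dir w) := by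
  ext p
  constructor
  · intro hp w
    by_cases hw : w = 0
    · subst hw
      have := F.homogeneous (aff y) (dir 0) 0 (aff_ne_zero y) le_rfl
      rw [zero_smul, zero_mul] at this
      simp only [dir_zero, this]
      simp
    · have hF : 0 < F.toFun (aff y) (dir w) := F.positive _ _ (aff_ne_zero y) (dir_notMem_span hw)
      have h1 := hp ((F.toFun (aff y) (dir w))⁻¹ • w) (by
        rw [dir_smul, F.homogeneous _ _ _ (aff_ne_zero y) (inv_nonneg.2 hF.le),
          inv_mul_cancel₀ hF.ne'])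
      have e : ∑ i, p i * ((F.toFun (aff y) (dir w))⁻¹ • w) i
          = (F.toFun (aff y) (dir w))⁻¹ * ∑ i, p i * w i := by
        rw [Finset.mul_sum]
        exact Finset.sum_congr rfl fun i _ => by simp; ring
      rw [e, inv_mul_le_iff₀ hF, mul_one] at h1
      exact h1
  · intro hp w hw
    exact (hp w).trans hw

/-- the unit sphere bundle is compact -/
theorem isCompact_sphere : IsCompact {p : Co n × Co n | nsq p.1 = 1 ∧ ip p.1 p.2 = 0 ∧
    nsq p.2 = 1} := by
  have hb : ∀ x : Co n, nsq x = 1 → ‖x‖ ≤ 1 := fun x hx => by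
    refine (pi_norm_le_iff_of_nonneg zero_le_one).2 fun i => ?_
    rw [Real.norm_eq_abs, ← sq_le_one_iff_abs_le_one, sq, ← hx]
    exact Finset.single_le_sum (f := fun i => x i * x i) (fun i _ => mul_self_nonneg (x i))
      (Finset.mem_univ i)
  refine Metric.isCompact_of_isClosed_isBounded ?_ ?_
  · have h1 : Continuous fun p : Co n × Co n => nsq p.1 := (contDiff_nsq.continuous).comp continuous_fst
    have h2 : Continuous fun p : Co n × Co n => nsq p.2 := (contDiff_nsq.continuous).comp continuous_snd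
    have h3 : Continuous fun p : Co n × Co n => ip p.1 p.2 := contDiff_ip.continuous
    exact (isClosed_eq h1 continuous_const).inter
      ((isClosed_eq h3 continuous_const).inter (isClosed_eq h2 continuous_const))
  · refine (Metric.isBounded_closedBall (x := (0 : Co n × Co n)) (r := 1)).subset ?_
    rintro ⟨x, v⟩ ⟨h1, -, h2⟩
    rw [mem_closedBall_zero_iff, Prod.norm_def]
    exact max_le (hb x h1) (hb v h2)

theorem AForm.bound (α : AForm n) : ∃ C : ℝ, 0 ≤ C ∧ ∀ x v : Co n, x ≠ 0 →
    |α.f x v| ≤ C * rnd x v := by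
  have hcont : ContinuousOn (fun p : Co n × Co n => α.f p.1 p.2)
      {p : Co n × Co n | nsq p.1 = 1 ∧ ip p.1 p.2 = 0 ∧ nsq p.2 = 1} :=
    α.smooth.continuousOn.mono fun p hp h => by
      have h1 := hp.1
      rw [h] at h1
      simp [nsq] at h1
  obtain ⟨C, hC⟩ := isCompact_sphere.exists_bound_of_continuousOn hcont
  refine ⟨|C|, abs_nonneg C, fun x v hx => ?_⟩
  have hN := nsq_pos hx
  have hen := en_pos hx
  have hen2 := en_mul_self x
  set c : ℝ := (en x)⁻¹ with hc
  have hc0 : c ≠ 0 := inv_ne_zero hen.ne'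
  set s : ℝ := -(c * ip x v / nsq x) with hs
  set x' := c • x with hx'
  set v' := c • v + s • x with hv'
  have hcc : c ^ 2 * nsq x = 1 := by
    rw [hc, ← hen2]; field_simp
  have h1 : nsq x' = 1 := by
    rw [hx', nsq_smul, hcc]
  have h2 : ip x' v' = 0 := by
    rw [hx', hv', ip_smul_left, ip_add_right, ip_smul_right, ip_smul_right, ← nsq_eq, hs]
    field_simp
    ring
  have hf : |α.f x v| = |α.f x' v'| := (α.inv x v c s hx hc0).symm
  have hr : rnd x v = en v' := by
    rw [← rnd_invariant hx v hc0 s, ← hx', ← hv', rnd, gram, h1, h2, en]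
    simp
  rw [hf, hr]
  by_cases hv0 : v' = 0
  · have := α.smul x' 0 0
    rw [zero_smul, zero_mul] at this
    rw [hv0, this, abs_zero]
    exact mul_nonneg (abs_nonneg _) (Real.sqrt_nonneg _)
  · have hp := en_pos hv0
    have hp2 := en_mul_self v'
    have h3 := hC (x', (en v')⁻¹ • v') ⟨h1, by rw [ip_smul_right, h2, mul_zero], by
      rw [nsq_smul, ← hp2]; field_simp⟩
    have h4 : α.f x' v' = en v' * α.f x' ((en v')⁻¹ • v') := by
      rw [α.smul, ← mul_assoc, mul_inv_cancel₀ hp.ne', one_mul]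
    rw [h4, abs_mul, abs_of_pos hp, mul_comm]
    exact mul_le_mul_of_nonneg_right (h3.trans (le_abs_self C)) hp.le

section
variable {ι κ : Type} [Fintype ι] [Fintype κ] (a : ι → AForm n) (b : κ → AForm n)

theorem fmax_bound : ∃ C : ℝ, 0 ≤ C ∧ ∀ x v : Co n, x ≠ 0 → fmax a b x v ≤ C * rnd x v := by
  choose Ca hCa0 hCa using fun i => (a i).bound
  choose Cb hCb0 hCb using fun j => (b j).bound
  refine ⟨∑ i, Ca i + ∑ j, Cb j, add_nonneg (Finset.sum_nonneg fun i _ => hCa0 i)
    (Finset.sum_nonneg fun j _ => hCb0 j), fun x v hx => ?_⟩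
  have hr := rnd_nonneg x v
  have hA : 0 ≤ ∑ i, Ca i := Finset.sum_nonneg fun i _ => hCa0 i
  have hB : 0 ≤ ∑ j, Cb j := Finset.sum_nonneg fun j _ => hCb0 j
  refine fmax_le a b (mul_nonneg (add_nonneg hA hB) hr) (fun i => ?_) (fun j => ?_)
  · refine (hCa i x v hx).trans (mul_le_mul_of_nonneg_right ?_ hr)
    have := Finset.single_le_sum (f := Ca) (fun i _ => hCa0 i) (Finset.mem_univ i)
    linarith
  · refine (le_abs_self _).trans ((hCb j x v hx).trans (mul_le_mul_of_nonneg_right ?_ hr))
    have := Finset.single_le_sum (f := Cb) (fun j _ => hCb0 j) (Finset.mem_univ j)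
    linarith

theorem measurable_volume_body {G : (Fin n → ℝ) → (Fin n → ℝ) → ℝ}
    (hG : ∀ w, Continuous fun y => G y w) :
    Measurable fun y => volume (body (G y)) := by
  have hcl : IsClosed {q : (Fin n → ℝ) × (Fin n → ℝ) | q.2 ∈ body (G q.1)} := by
    have : {q : (Fin n → ℝ) × (Fin n → ℝ) | q.2 ∈ body (G q.1)}
        = ⋂ w, {q : (Fin n → ℝ) × (Fin n → ℝ) | ∑ i, q.2 i * w i ≤ G q.1 w} := by
      ext q; simp [body]
    rw [this]
    exact isClosed_iInter fun w => isClosed_le (by fun_prop) ((hG w).comp continuous_fst)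
  exact measurable_measure_prodMk_left hcl.measurableSet

/-- the upper bounds of the approximating metrics -/
noncomputable def upper (m : ℕ) (x v : Co n) : ℝ :=
  (Fintype.card (Option (ι ⊕ κ)) : ℝ) ^ ((1 : ℝ) / ((m + 1 : ℕ) : ℝ)) *
    (fmax a b x v + 2 * (1 / ((m : ℝ) + 1)) * rnd x v)

theorem one_le_card : (1 : ℝ) ≤ (Fintype.card (Option (ι ⊕ κ)) : ℝ) := by
  have : 0 < Fintype.card (Option (ι ⊕ κ)) := Fintype.card_pos
  exact_mod_cast this

theorem upper_antitone (x v : Co n) {m m' : ℕ} (h : m ≤ m') :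
    upper a b m' x v ≤ upper a b m x v := by
  have h1 : (1 : ℝ) / ((m' + 1 : ℕ) : ℝ) ≤ (1 : ℝ) / ((m + 1 : ℕ) : ℝ) :=
    one_div_le_one_div_of_le (by positivity) (by exact_mod_cast Nat.succ_le_succ h)
  have h2 : (1 : ℝ) / ((m' : ℝ) + 1) ≤ 1 / ((m : ℝ) + 1) := by
    have := h1; push_cast at this; exact this
  have h3 := fmax_nonneg a b x v
  have h4 := rnd_nonneg x v
  unfold upper
  refine mul_le_mul (Real.rpow_le_rpow_of_exponent_le one_le_card h1) ?_ ?_ ?_
  · linarith [mul_le_mul_of_nonneg_right h2 h4]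
  · positivity
  · exact Real.rpow_nonneg (by positivity) _

theorem tendsto_upper (x v : Co n) :
    Tendsto (fun m => upper a b m x v) atTop (𝓝 (fmax a b x v)) := by
  have h1 : Tendsto (fun m : ℕ => (1 : ℝ) / ((m : ℝ) + 1)) atTop (𝓝 0) :=
    tendsto_one_div_add_atTop_nhds_zero_nat
  have h2 : Tendsto (fun m : ℕ => (Fintype.card (Option (ι ⊕ κ)) : ℝ) ^ ((1 : ℝ) / ((m + 1 : ℕ) : ℝ)))
      atTop (𝓝 1) := by
    have h := (Real.continuous_const_rpow (a := (Fintype.card (Option (ι ⊕ κ)) : ℝ))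
      (by have := one_le_card (ι := ι) (κ := κ); linarith)).tendsto 0
    rw [Real.rpow_zero] at h
    refine h.comp ?_
    refine h1.congr fun m => ?_
    push_cast
    rfl
  have h3 : Tendsto (fun m : ℕ => fmax a b x v + 2 * (1 / ((m : ℝ) + 1)) * rnd x v) atTop
      (𝓝 (fmax a b x v + 2 * 0 * rnd x v)) :=
    tendsto_const_nhds.add ((h1.const_mul 2).mul_const _)
  have := h2.mul h3
  simpa [upper] using this

theorem fmax_le_upper (m : ℕ) (x v : Co n) : fmax a b x v ≤ upper a b m x v := by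
  have h1 : (1 : ℝ) ≤ (Fintype.card (Option (ι ⊕ κ)) : ℝ) ^ ((1 : ℝ) / ((m + 1 : ℕ) : ℝ)) :=
    Real.one_le_rpow one_le_card (by positivity)
  have h3 := fmax_nonneg a b x v
  have h4 : 0 ≤ 2 * (1 / ((m : ℝ) + 1)) * rnd x v := mul_nonneg (by positivity) (rnd_nonneg x v)
  unfold upper
  nlinarith

theorem tendsto_volume_upper {y : Fin n → ℝ}
    (hfin : volume (body fun w => upper a b 0 (aff y) (dir w)) ≠ ⊤) :
    Tendsto (fun m => volume (body fun w => upper a b m (aff y) (dir w))) atTop
      (𝓝 (volume (body fun w => fmax a b (aff y) (dir w)))) := by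
  have hset : body (fun w => fmax a b (aff y) (dir w))
      = ⋂ m, body fun w => upper a b m (aff y) (dir w) := by
    apply Subset.antisymm
    · intro p hp
      exact mem_iInter.2 fun m w => (hp w).trans (fmax_le_upper a b m _ _)
    · intro p hp w
      exact ge_of_tendsto' (tendsto_upper a b (aff y) (dir w)) fun m => mem_iInter.1 hp m w
  rw [hset]
  refine tendsto_measure_iInter_atTop (fun m => (isClosed_body _).measurableSet.nullMeasurableSet)
    ?_ ⟨0, hfin⟩
  intro m m' h
  exact body_mono fun w => upper_antitone a b _ _ h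

theorem continuous_aff : Continuous (aff : (Fin n → ℝ) → Co n) :=
  continuous_pi fun i => by
    refine Fin.cases ?_ (fun i => ?_) i
    · simp only [aff, Fin.cons_zero]; exact continuous_const
    · simp only [aff, Fin.cons_succ]; exact continuous_apply i

theorem metric_le_upper (m : ℕ) (x v : Co n) :
    metric a b (1 / ((m : ℝ) + 1)) (m + 1) x v ≤ upper a b m x v :=
  metric_le_fmax a b (by positivity) (Nat.succ_ne_zero m) x v

/-- volumes of the bodies of the approximating metrics -/
noncomputable def vol (m : ℕ) (y : Fin n → ℝ) : ℝ≥0∞ :=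
  volume (body fun w => metric a b (1 / ((m : ℝ) + 1)) (m + 1) (aff y) (dir w))

theorem vol_le (m : ℕ) (y : Fin n → ℝ) :
    vol a b m y ≤ volume (body fun w => upper a b m (aff y) (dir w)) :=
  measure_mono (body_mono fun _ => metric_le_upper a b m _ _)

theorem continuous_metric_aff {ε : ℝ} {m : ℕ} (hm : m ≠ 0) (w : Fin n → ℝ) :
    Continuous fun y : Fin n → ℝ => metric a b ε m (aff y) (dir w) :=
  ContinuousOn.comp_continuous (g := fun p : Co n × Co n => metric a b ε m p.1 p.2)
    (f := fun y : Fin n → ℝ => ((aff y, dir w) : Co n × Co n)) (s := {p | p.1 ≠ 0})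
    (continuousOn_metric a b hm) (continuous_aff.prodMk continuous_const) fun y => aff_ne_zero y

theorem measurable_vol (m : ℕ) : Measurable (vol (n := n) a b m) := by
  have h := measurable_volume_body (n := n)
    (G := fun y w => metric a b (1 / ((m : ℝ) + 1)) (m + 1) (aff y) (dir w))
    (fun w => continuous_metric_aff a b (Nat.succ_ne_zero m) w)
  exact h

theorem upper_bound : ∃ C : ℝ, 0 ≤ C ∧ ∀ m (y w : Fin n → ℝ),
    upper a b m (aff y) (dir w) ≤ C * rnd (aff y) (dir w) := by
  obtain ⟨C, hC0, hC⟩ := fmax_bound a b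
  set N : ℝ := (Fintype.card (Option (ι ⊕ κ)) : ℝ) with hN
  have hN1 : 1 ≤ N := one_le_card
  refine ⟨N * (C + 2), by positivity, fun m y w => ?_⟩
  refine (upper_antitone a b _ _ (Nat.zero_le m)).trans ?_
  have h1 := hC (aff y) (dir w) (aff_ne_zero y)
  have h2 : upper a b 0 (aff y) (dir w)
      = N * (fmax a b (aff y) (dir w) + 2 * rnd (aff y) (dir w)) := by
    simp [upper, hN]
  rw [h2, mul_assoc, add_mul]
  exact mul_le_mul_of_nonneg_left (by linarith) (by linarith)

theorem polarBody_finsler (hb : Inv b) (m : ℕ) (y : Fin n → ℝ)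
    (h1 : 0 < 1 / ((m : ℝ) + 1)) (h2 : m + 1 ≠ 0) :
    volume ((finsler a b hb (1 / ((m : ℝ) + 1)) h1 (m + 1) h2).polarBody y) = vol a b m y := by
  rw [polarBody_eq]
  simp only [finsler_toFun]
  rw [vol]

theorem exists_volume_lt (hn : 0 < n) (hb : Inv b) {K : ℝ≥0∞}
    (hK : ∫⁻ y : Fin n → ℝ, volume (body fun w => fmax a b (aff y) (dir w)) < K) :
    ∃ (ε : ℝ) (hε : 0 < ε) (m : ℕ) (hm : m ≠ 0),
      ∫⁻ y : Fin n → ℝ, volume ((finsler a b hb ε hε m hm).polarBody y) < K := by
  by_contra hcon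
  push Not at hcon
  obtain ⟨C, hC0, hup⟩ := upper_bound a b
  obtain ⟨D, hD0, hD⟩ := volume_body_rnd_le (n := n) hn hC0
  have hKle : ∀ m, K ≤ ∫⁻ y, vol a b m y := fun m => by
    refine (hcon (1 / ((m : ℝ) + 1)) (by positivity) (m + 1) (Nat.succ_ne_zero m)).trans_eq ?_
    exact lintegral_congr fun y => polarBody_finsler a b hb m y _ _
  have hbound : ∀ m y, volume (body fun w => upper a b m (aff y) (dir w))
      ≤ ENNReal.ofReal (D * (1 + ‖y‖ ^ 2) ^ (-((n : ℝ) + 1) / 2)) :=
    fun m y => (measure_mono (body_mono fun w => hup m y w)).trans (hD y)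
  have hlim := limsup_lintegral_le (μ := volume) (f := vol a b)
    (fun y => ENNReal.ofReal (D * (1 + ‖y‖ ^ 2) ^ (-((n : ℝ) + 1) / 2))) (measurable_vol a b)
    (fun m => Eventually.of_forall fun y => (vol_le a b m y).trans (hbound m y))
    (lintegral_dom_lt_top hD0).ne
  have h1 : K ≤ limsup (fun m => ∫⁻ y, vol a b m y) atTop :=
    le_limsup_of_frequently_le (Eventually.of_forall hKle).frequently
  have h2 : ∫⁻ y, limsup (fun m => vol a b m y) atTop
      ≤ ∫⁻ y : Fin n → ℝ, volume (body fun w => fmax a b (aff y) (dir w)) := by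
    refine lintegral_mono fun y => ?_
    have hfin : volume (body fun w => upper a b 0 (aff y) (dir w)) ≠ ⊤ :=
      ((hbound 0 y).trans_lt ENNReal.ofReal_lt_top).ne
    have ht := tendsto_volume_upper a b hfin
    refine le_trans ?_ ht.limsup_eq.le
    exact limsup_le_limsup (Eventually.of_forall fun m => vol_le a b m y)
  exact absurd (lt_of_le_of_lt (h1.trans (hlim.trans h2)) hK) (lt_irrefl _)

end

end Pool.Agent.H785.RP
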