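import Pool.Agent.H785.RP.Dom

/-!
# The volume of the model polar body
-/

open MeasureTheory Set Filter
open scoped ContDiff ENNReal Nat Topology

namespace Pool.Agent.H785.RP

variable {n : ℕ}

theorem volume_hyperplane (w : Fin n → ℝ) (hw : w ≠ 0) :
    volume {p : Fin n → ℝ | ∑ i, p i * w i = 0} = 0 := by
  set lin : (Fin n → ℝ) →ₗ[ℝ] ℝ := LinearMap.lsum ℝ (fun _ => ℝ) ℝ fun i =>
    (w i) • LinearMap.id with hlin
  have hlina : ∀ p : Fin n → ℝ, lin p = ∑ i, p i * w i := fun p => by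
    simp [hlin, LinearMap.lsum_apply, mul_comm]
  have hset : {p : Fin n → ℝ | ∑ i, p i * w i = 0} = (LinearMap.ker lin : Set (Fin n → ℝ)) := by
    ext p
    simp [hlina]
  rw [hset]
  refine Measure.addHaar_submodule volume _ fun h => ?_
  have h1 : lin w = 0 := by
    have : w ∈ LinearMap.ker lin := by rw [h]; trivial
    exact this
  rw [hlina] at h1
  apply hw
  funext i
  have := (Finset.sum_eq_zero_iff_of_nonneg (fun i _ => mul_self_nonneg (w i))).1 h1 i
    (Finset.mem_univ i)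
  simpa using this

theorem volume_body_eq_zero {G : (Fin n → ℝ) → ℝ} (w : Fin n → ℝ) (hw : w ≠ 0) (h1 : G w ≤ 0)
    (h2 : G (-w) ≤ 0) : volume (body G) = 0 := by
  refine measure_mono_null ?_ (volume_hyperplane w hw)
  intro p hp
  have h3 := (hp w).trans h1
  have h4 := (hp (-w)).trans h2
  simp only [Pi.neg_apply, mul_neg, Finset.sum_neg_distrib] at h4
  exact le_antisymm h3 (by linarith)

theorem volume_coord_zero (i : Fin n) : volume {x : Fin n → ℝ | x i = 0} = 0 := by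
  have h := volume_hyperplane (Pi.single i 1 : Fin n → ℝ) (by simp)
  have e : {x : Fin n → ℝ | x i = 0} = {p | ∑ j, p j * (Pi.single i 1 : Fin n → ℝ) j = 0} := by
    ext p
    simp [Pi.single_apply]
  rw [e]; exact h

theorem volume_preimage_toLin' (M : Matrix (Fin n) (Fin n) ℝ) (hM : M.det ≠ 0)
    (S : Set (Fin n → ℝ)) :
    volume (Matrix.toLin' M ⁻¹' S) = ENNReal.ofReal |(M.det)⁻¹| * volume S := by
  rw [Measure.addHaar_preimage_linearMap volume (by rwa [LinearMap.det_toLin']),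
    LinearMap.det_toLin']

/-- half of a symmetric body -/
theorem volume_half (i : Fin n) {S : Set (Fin n → ℝ)} (hS : MeasurableSet S)
    (hsym : ∀ x : Fin n → ℝ, x ∈ S ↔ (fun j => if j = i then -x j else x j) ∈ S) :
    2 * volume (S ∩ {x | 0 ≤ x i}) ≤ volume S := by
  set d : Fin n → ℝ := fun j => if j = i then -1 else 1 with hd
  set L := Matrix.toLin' (Matrix.diagonal d) with hL
  have hdet : (Matrix.diagonal d).det = -1 := by
    rw [Matrix.det_diagonal, Finset.prod_eq_single i (fun j _ hj => by simp [hd, hj])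
      (fun h => absurd (Finset.mem_univ i) h)]
    simp [hd]
  have hLx : ∀ x : Fin n → ℝ, L x = fun j => if j = i then -x j else x j := by
    intro x
    funext j
    rw [hL, Matrix.toLin'_apply, Matrix.mulVec_diagonal, hd]
    simp only
    split_ifs <;> ring
  have hpos : MeasurableSet {x : Fin n → ℝ | 0 < x i} :=
    measurableSet_lt measurable_const (measurable_pi_apply i)
  have hneg : MeasurableSet {x : Fin n → ℝ | x i < 0} :=
    measurableSet_lt (measurable_pi_apply i) measurable_const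
  have h1 : volume (S ∩ {x | 0 ≤ x i}) ≤ volume (S ∩ {x | 0 < x i}) := by
    have hsub : S ∩ {x | 0 ≤ x i} ⊆ (S ∩ {x | 0 < x i}) ∪ {x | x i = 0} := by
      rintro x ⟨h1, h2⟩
      rcases (show 0 ≤ x i from h2).eq_or_lt with h | h
      · exact Or.inr h.symm
      · exact Or.inl ⟨h1, h⟩
    refine (measure_mono hsub).trans ((measure_union_le _ _).trans_eq ?_)
    rw [volume_coord_zero, add_zero]
  have h2 : volume (S ∩ {x | x i < 0}) = volume (S ∩ {x | 0 < x i}) := by
    have hp : L ⁻¹' (S ∩ {x | 0 < x i}) = S ∩ {x | x i < 0} := by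
      ext x
      simp only [mem_preimage, mem_inter_iff, hLx]
      rw [← hsym x]
      simp
    have := volume_preimage_toLin' (Matrix.diagonal d) (by rw [hdet]; norm_num) (S ∩ {x | 0 < x i})
    rw [← hL, hp, hdet] at this
    rw [this]
    norm_num
  have h3 : volume (S ∩ {x | 0 < x i}) + volume (S ∩ {x | x i < 0}) ≤ volume S := by
    rw [← measure_union ?_ (hS.inter hneg)]
    · exact measure_mono (union_subset inter_subset_left inter_subset_left)
    · refine Set.disjoint_left.2 fun x hx hy => ?_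
      exact absurd (show 0 < x i from hx.2) (not_lt.2 (le_of_lt (show x i < 0 from hy.2)))
  rw [two_mul]
  calc _ ≤ volume (S ∩ {x | 0 < x i}) + volume (S ∩ {x | 0 < x i}) := add_le_add h1 h1
    _ = volume (S ∩ {x | 0 < x i}) + volume (S ∩ {x | x i < 0}) := by rw [h2]
    _ ≤ _ := h3

/-- the cross-polytope of `ℝ^5` -/
def B1 : Set (Fin 5 → ℝ) := {x | ∑ i, |x i| ≤ 1}

theorem measurableSet_B1 : MeasurableSet B1 := by
  refine (isClosed_le ?_ continuous_const).measurableSet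
  fun_prop

theorem volume_B1 : volume B1 = ENNReal.ofReal (4 / 15) := by
  have h := MeasureTheory.volume_sum_rpow_le (Fin 5) (p := 1) le_rfl 1
  have e : {x : Fin 5 → ℝ | (∑ i, |x i| ^ (1 : ℝ)) ^ ((1 : ℝ) / 1) ≤ 1} = B1 := by
    ext x; simp [B1]
  rw [e] at h
  rw [h]
  have g1 : Real.Gamma (1 / 1 + 1) = 1 := by
    rw [div_one, show (1 : ℝ) + 1 = ((1 : ℕ) : ℝ) + 1 by norm_num, Real.Gamma_nat_eq_factorial]
    simp
  have g2 : Real.Gamma ((Fintype.card (Fin 5) : ℝ) / 1 + 1) = 120 := by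
    rw [div_one, Fintype.card_fin, Real.Gamma_nat_eq_factorial]
    norm_num [Nat.factorial]
  rw [g1, g2]
  simp
  norm_num

/-- a quarter of the cross-polytope -/
def QB : Set (Fin 5 → ℝ) := {x | 0 ≤ x 0 ∧ 0 ≤ x 1 ∧ x 0 + x 1 + |x 2| + |x 3| + |x 4| ≤ 1}

theorem volume_QB : volume QB ≤ ENNReal.ofReal (1 / 15) := by
  have hsym : ∀ i : Fin 5, ∀ x : Fin 5 → ℝ,
      x ∈ B1 ↔ (fun j => if j = i then -x j else x j) ∈ B1 := by
    intro i x
    have : ∑ j, |(if j = i then -x j else x j)| = ∑ j, |x j| :=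
      Finset.sum_congr rfl fun j _ => by split_ifs <;> simp
    simp only [B1, mem_ofPred_eq, this]
  have h0 := volume_half 0 measurableSet_B1 (hsym 0)
  have hm0 : MeasurableSet {x : Fin 5 → ℝ | 0 ≤ x 0} :=
    measurableSet_le measurable_const (measurable_pi_apply 0)
  have h1 := volume_half 1 (measurableSet_B1.inter hm0) (fun x => by
    simp only [mem_inter_iff, ← hsym 1 x, mem_ofPred_eq]
    simp)
  have hQ : QB = (B1 ∩ {x | 0 ≤ x 0}) ∩ {x | 0 ≤ x 1} := by
    ext x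
    simp only [QB, B1, mem_inter_iff, mem_ofPred_eq, Fin.sum_univ_five]
    constructor
    · rintro ⟨h1, h2, h3⟩
      rw [abs_of_nonneg h1, abs_of_nonneg h2]
      exact ⟨⟨h3, h1⟩, h2⟩
    · rintro ⟨⟨h3, h1⟩, h2⟩
      rw [abs_of_nonneg h1, abs_of_nonneg h2] at h3
      exact ⟨h1, h2, h3⟩
  rw [← hQ] at h1
  rw [volume_B1] at h0
  have h2 : 4 * volume QB ≤ ENNReal.ofReal (4 / 15) := by
    calc 4 * volume QB = 2 * (2 * volume QB) := by rw [← mul_assoc]; norm_num
      _ ≤ 2 * volume (B1 ∩ {x | 0 ≤ x 0}) := by gcongr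
      _ ≤ _ := h0
  have h3 : ENNReal.ofReal (4 / 15) = 4 * ENNReal.ofReal (1 / 15) := by
    rw [show (4 : ℝ≥0∞) = ENNReal.ofReal 4 by simp, ← ENNReal.ofReal_mul (by norm_num)]
    norm_num
  rw [h3] at h2
  exact (ENNReal.mul_le_mul_iff_right (by norm_num) (by norm_num)).1 h2

/-- the model norm -/
noncomputable def N0 (u : Fin 5 → ℝ) : ℝ :=
  max (max (2 * u 0) (max (2 * u 1) (-2 * u 0 - 2 * u 1))) (max |u 2| (max |u 3| |u 4|))

theorem N0_nonneg (u : Fin 5 → ℝ) : 0 ≤ N0 u := by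
  unfold N0
  exact le_max_of_le_right (le_max_of_le_left (abs_nonneg _))

theorem volume_body_N0 : volume (body N0) ≤ ENNReal.ofReal (4 / 5) := by
  have key : ∀ p ∈ body N0, ∀ a b : ℝ, 2 * a ≤ 1 → 2 * b ≤ 1 → -2 * a - 2 * b ≤ 1 →
      a * p 0 + b * p 1 + |p 2| + |p 3| + |p 4| ≤ 1 := by
    intro p hp a b h1 h2 h3
    have sgn : ∀ x : ℝ, ∃ σ : ℝ, |σ| = 1 ∧ x * σ = |x| := fun x => by
      rcases le_total 0 x with h | h
      · exact ⟨1, by simp, by rw [abs_of_nonneg h, mul_one]⟩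
      · exact ⟨-1, by simp, by rw [abs_of_nonpos h, mul_neg_one]⟩
    obtain ⟨c, hc1, hc2⟩ := sgn (p 2)
    obtain ⟨d, hd1, hd2⟩ := sgn (p 3)
    obtain ⟨e, he1, he2⟩ := sgn (p 4)
    have h := hp ![a, b, c, d, e]
    simp only [Fin.sum_univ_five, Matrix.cons_val, N0, hc2, hd2, he2, hc1, hd1, he1] at h
    have hN : max (max (2 * a) (max (2 * b) (-2 * a - 2 * b))) (max 1 (max 1 1)) = 1 := by
      rw [max_self, max_self]
      exact max_eq_right (max_le h1 (max_le h2 h3))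
    rw [hN] at h
    linarith [mul_comm a (p 0), mul_comm b (p 1)]
  set M1 : Matrix (Fin 5) (Fin 5) ℝ := !![1/2, 0, 0, 0, 0; 0, 1/2, 0, 0, 0; 0, 0, 1, 0, 0;
    0, 0, 0, 1, 0; 0, 0, 0, 0, 1] with hM1
  set M2 : Matrix (Fin 5) (Fin 5) ℝ := !![1/2, -1/2, 0, 0, 0; 0, -1/2, 0, 0, 0; 0, 0, 1, 0, 0;
    0, 0, 0, 1, 0; 0, 0, 0, 0, 1] with hM2
  set M3 : Matrix (Fin 5) (Fin 5) ℝ := !![-1/2, 1/2, 0, 0, 0; -1/2, 0, 0, 0, 0; 0, 0, 1, 0, 0;
    0, 0, 0, 1, 0; 0, 0, 0, 0, 1] with hM3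
  have d1 : M1.det = 1 / 4 := by
    simp [hM1, Matrix.det_succ_row_zero, Fin.sum_univ_succ, Fin.succAbove]; norm_num
  have d2 : M2.det = -1 / 4 := by
    simp [hM2, Matrix.det_succ_row_zero, Fin.sum_univ_succ, Fin.succAbove]; norm_num
  have d3 : M3.det = 1 / 4 := by
    simp [hM3, Matrix.det_succ_row_zero, Fin.sum_univ_succ, Fin.succAbove]; norm_num
  have hsub : body N0 ⊆ (Matrix.toLin' M1 ⁻¹' QB) ∪ ((Matrix.toLin' M2 ⁻¹' QB) ∪
      (Matrix.toLin' M3 ⁻¹' QB)) := by
    intro p hp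
    have k1 := key p hp (1 / 2) (1 / 2) (by norm_num) (by norm_num) (by norm_num)
    have k2 := key p hp (1 / 2) (-1) (by norm_num) (by norm_num) (by norm_num)
    have k3 := key p hp (-1) (1 / 2) (by norm_num) (by norm_num) (by norm_num)
    have m1 : p ∈ Matrix.toLin' M1 ⁻¹' QB ↔ 0 ≤ p 0 / 2 ∧ 0 ≤ p 1 / 2 ∧
        p 0 / 2 + p 1 / 2 + |p 2| + |p 3| + |p 4| ≤ 1 := by
      simp only [mem_preimage, Matrix.toLin'_apply, QB, mem_ofPred_eq, hM1, Matrix.mulVec,
        dotProduct, Fin.sum_univ_five, Matrix.of_apply, Matrix.cons_val]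
      ring_nf
    have m2 : p ∈ Matrix.toLin' M2 ⁻¹' QB ↔ 0 ≤ p 0 / 2 - p 1 / 2 ∧ 0 ≤ -p 1 / 2 ∧
        p 0 / 2 - p 1 / 2 + -p 1 / 2 + |p 2| + |p 3| + |p 4| ≤ 1 := by
      simp only [mem_preimage, Matrix.toLin'_apply, QB, mem_ofPred_eq, hM2, Matrix.mulVec,
        dotProduct, Fin.sum_univ_five, Matrix.of_apply, Matrix.cons_val]
      ring_nf
    have m3 : p ∈ Matrix.toLin' M3 ⁻¹' QB ↔ 0 ≤ p 1 / 2 - p 0 / 2 ∧ 0 ≤ -p 0 / 2 ∧
        p 1 / 2 - p 0 / 2 + -p 0 / 2 + |p 2| + |p 3| + |p 4| ≤ 1 := by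
      simp only [mem_preimage, Matrix.toLin'_apply, QB, mem_ofPred_eq, hM3, Matrix.mulVec,
        dotProduct, Fin.sum_univ_five, Matrix.of_apply, Matrix.cons_val]
      ring_nf
    simp only [mem_union, m1, m2, m3]
    rcases le_total 0 (p 0) with h0 | h0
    · rcases le_total 0 (p 1) with h1 | h1
      · exact Or.inl ⟨by linarith, by linarith, by linarith⟩
      · exact Or.inr (Or.inl ⟨by linarith, by linarith, by linarith⟩)
    · rcases le_total 0 (p 1) with h1 | h1
      · exact Or.inr (Or.inr ⟨by linarith, by linarith, by linarith⟩)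
      · rcases le_total (p 1) (p 0) with h2 | h2
        · exact Or.inr (Or.inl ⟨by linarith, by linarith, by linarith⟩)
        · exact Or.inr (Or.inr ⟨by linarith, by linarith, by linarith⟩)
  have v : ∀ M : Matrix (Fin 5) (Fin 5) ℝ, |(M.det)⁻¹| = 4 →
      volume (Matrix.toLin' M ⁻¹' QB) ≤ ENNReal.ofReal (4 / 15) := by
    intro M hM
    have hne : M.det ≠ 0 := by rintro h; rw [h] at hM; simp at hM
    rw [volume_preimage_toLin' M hne, hM]
    calc ENNReal.ofReal 4 * volume QB ≤ ENNReal.ofReal 4 * ENNReal.ofReal (1 / 15) := by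
          gcongr; exact volume_QB
      _ = _ := by rw [← ENNReal.ofReal_mul (by norm_num)]; norm_num
  have v1 := v M1 (by rw [d1]; norm_num)
  have v2 := v M2 (by rw [d2]; norm_num)
  have v3 := v M3 (by rw [d3]; norm_num)
  refine (measure_mono hsub).trans ((measure_union_le _ _).trans ?_)
  refine (add_le_add v1 ((measure_union_le _ _).trans (add_le_add v2 v3))).trans_eq ?_
  rw [← ENNReal.ofReal_add (by norm_num) (by norm_num),
    ← ENNReal.ofReal_add (by norm_num) (by norm_num)]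
  norm_num

/-- the volume of the body of a pulled back gauge -/
theorem volume_body_comp (M : Matrix (Fin n) (Fin n) ℝ) {G : (Fin n → ℝ) → ℝ} (hG : G 0 ≤ 0) :
    volume (body fun w => G (M.mulVec w)) ≤ ENNReal.ofReal |M.det| * volume (body G) := by
  by_cases hdet : M.det = 0
  · obtain ⟨w, hw, hMw⟩ := Matrix.exists_mulVec_eq_zero_iff.2 hdet
    rw [volume_body_eq_zero w hw (by rw [hMw]; exact hG)
      (by rw [Matrix.mulVec_neg, hMw, neg_zero]; exact hG)]
    exact zero_le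
  · have hunit : IsUnit M.det := isUnit_iff_ne_zero.2 hdet
    set K := (M⁻¹).transpose with hK
    have hKdet : K.det = (M.det)⁻¹ := by
      rw [hK, Matrix.det_transpose, Matrix.det_nonsing_inv, Ring.inverse_eq_inv']
    have hsub : body (fun w => G (M.mulVec w)) ⊆ Matrix.toLin' K ⁻¹' body G := by
      intro p hp u
      have h := hp ((M⁻¹).mulVec u)
      simp only [Matrix.mulVec_mulVec, Matrix.mul_nonsing_inv M hunit, Matrix.one_mulVec] at h
      have e : ∑ i, (Matrix.toLin' K p) i * u i = ∑ i, p i * ((M⁻¹).mulVec u) i := by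
        change (K.mulVec p) ⬝ᵥ u = p ⬝ᵥ ((M⁻¹).mulVec u)
        rw [hK, Matrix.mulVec_transpose, Matrix.dotProduct_mulVec]
      rw [e]
      exact h
    refine (measure_mono hsub).trans_eq ?_
    rw [volume_preimage_toLin' K (by rw [hKdet]; exact inv_ne_zero hdet), hKdet, inv_inv]

end Pool.Agent.H785.RP
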