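import Mathlib

/-!
# Finsler metrics on real projective space, in homogeneous coordinates

`RP^n` is the set of lines of `ℝ^(n+1)`.  A tangent vector of `RP^n` is represented by a pair
`(x, v)` with `x ≠ 0` (the velocity at time `0` of the curve `t ↦ [x + t v]`); the pairs `(x, v)`
and `(c x, c v + a x)`, `c ≠ 0`, represent the same tangent vector, and `(x, v)` represents the
zero vector exactly when `v ∈ ℝ x`.
-/

open MeasureTheory Set
open scoped ContDiff ENNReal Nat

namespace Pool.Agent.H785.RP

/-- Homogeneous coordinates on `RP^n`. -/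
abbrev Co (n : ℕ) : Type := Fin (n + 1) → ℝ

/-- The pairs `(x, v)` representing the nonzero tangent vectors of `RP^n`. -/
def nonzeroTangent (n : ℕ) : Set (Co n × Co n) :=
  {p | p.1 ≠ 0 ∧ p.2 ∉ Submodule.span ℝ {p.1}}

/-- A smooth, not necessarily reversible, Finsler metric on `RP^n`: a function on the tangent
vectors, smooth away from the zero vectors, which on every tangent space is the gauge of a convex
body with the origin in its interior (that is: positively homogeneous, subadditive, and positive
on nonzero vectors), and such that the fundamental tensor (the Hessian of `F^2 / 2` on the tangent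
spaces) is positive definite at every nonzero vector. -/
structure Finsler (n : ℕ) where
  /-- the metric, on pairs representing tangent vectors -/
  toFun : Co n → Co n → ℝ
  /-- it is a function of the tangent vector represented by the pair -/
  invariant : ∀ (x v : Co n) (c a : ℝ), x ≠ 0 → c ≠ 0 →
    toFun (c • x) (c • v + a • x) = toFun x v
  smooth : ContDiffOn ℝ ∞ (fun p : Co n × Co n => toFun p.1 p.2) (nonzeroTangent n)
  homogeneous : ∀ (x v : Co n) (r : ℝ), x ≠ 0 → 0 ≤ r → toFun x (r • v) = r * toFun x v
  subadditive : ∀ (x v w : Co n), x ≠ 0 → toFun x (v + w) ≤ toFun x v + toFun x w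
  positive : ∀ (x v : Co n), x ≠ 0 → v ∉ Submodule.span ℝ {x} → 0 < toFun x v
  strong : ∀ (x v w : Co n), x ≠ 0 → v ∉ Submodule.span ℝ {x} → w ∉ Submodule.span ℝ {x} →
    0 < deriv (deriv fun t : ℝ => toFun x (v + t • w) ^ 2) 0

/-- A non-contractible closed curve of `RP^n`, of class `C^1`, given by a lift
`γ : ℝ → ℝ^(n+1) \ {0}` of its restriction to one period `[0, 1]`: the curve closes up in `RP^n`
and is non-contractible exactly when `γ 1` is a negative multiple of `γ 0`. -/
structure IsNoncontractible {n : ℕ} (γ : ℝ → Co n) : Prop where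
  contDiff : ContDiff ℝ 1 γ
  ne_zero : ∀ t, γ t ≠ 0
  closed : ∃ c : ℝ, c < 0 ∧ γ 1 = c • γ 0

/-- The length of (one period of) a curve. -/
noncomputable def Finsler.length {n : ℕ} (F : Finsler n) (γ : ℝ → Co n) : ℝ :=
  ∫ t in (0 : ℝ)..1, F.toFun (γ t) (deriv γ t)

/-- The affine chart `y ↦ [1 : y]` of `RP^n`; it misses a hyperplane, a set of measure zero. -/
def aff {n : ℕ} (y : Fin n → ℝ) : Co n := Fin.cons 1 y

/-- The direction `w` in the affine chart. -/
def dir {n : ℕ} (w : Fin n → ℝ) : Co n := Fin.cons 0 w

/-- The polar body of the tangent unit ball at the point `[1 : y]`, in the affine chart. -/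
def Finsler.polarBody {n : ℕ} (F : Finsler n) (y : Fin n → ℝ) : Set (Fin n → ℝ) :=
  {p | ∀ w : Fin n → ℝ, F.toFun (aff y) (dir w) ≤ 1 → ∑ i, p i * w i ≤ 1}

/-- The volume of the Euclidean unit ball. -/
noncomputable def ballVolume (n : ℕ) : ℝ≥0∞ :=
  (volume : Measure (EuclideanSpace ℝ (Fin n))) (Metric.ball 0 1)

/-- The Holmes–Thompson volume, computed in the affine chart. -/
noncomputable def Finsler.htVolume {n : ℕ} (F : Finsler n) : ℝ≥0∞ :=
  (ballVolume n)⁻¹ * ∫⁻ y : Fin n → ℝ, volume (F.polarBody y)

/-- The constant `σ_n = (n! v_n)^(1/n) / 2`. -/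
noncomputable def sigma (n : ℕ) : ℝ :=
  ((n ! : ℝ) * (ballVolume n).toReal) ^ ((1 : ℝ) / n) / 2

end Pool.Agent.H785.RP
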