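import Pool.Agent.H785.RP.Forms

/-!
# Domination of polar bodies in the affine chart
-/

open MeasureTheory Set
open scoped ContDiff ENNReal Nat

namespace Pool.Agent.H785.RP

variable {n : ℕ}

/-- The polar of the unit ball of a gauge. -/
def body (G : (Fin n → ℝ) → ℝ) : Set (Fin n → ℝ) := {p | ∀ w, ∑ i, p i * w i ≤ G w}

theorem isClosed_body (G : (Fin n → ℝ) → ℝ) : IsClosed (body G) := by
  have : body G = ⋂ w, {p : Fin n → ℝ | ∑ i, p i * w i ≤ G w} := by
    ext p; simp [body]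
  rw [this]
  exact isClosed_iInter fun w => isClosed_le (by fun_prop) continuous_const

theorem body_mono {G G' : (Fin n → ℝ) → ℝ} (h : ∀ w, G w ≤ G' w) : body G ⊆ body G' :=
  fun _ hp w => (hp w).trans (h w)

theorem det_updateRow_one (i : Fin n) (v : Fin n → ℝ) :
    ((1 : Matrix (Fin n) (Fin n) ℝ).updateRow i v).det = v i := by
  have h := Matrix.cramer_transpose_apply (1 : Matrix (Fin n) (Fin n) ℝ) v i
  rw [Matrix.transpose_one, Matrix.cramer_one] at h
  rw [← h]; rfl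

/-- volume of a sheared box -/
theorem volume_shear_le (i : Fin n) (y : Fin n → ℝ) (hy : y i ≠ 0) {r T : ℝ} (hr : 0 ≤ r)
    (hT : 0 ≤ T) :
    volume {p : Fin n → ℝ | (∀ j, |p j| ≤ r) ∧ |∑ j, p j * y j| ≤ T}
      ≤ ENNReal.ofReal ((2 * r) ^ (n - 1) * (2 * (T / |y i|))) := by
  set M : Matrix (Fin n) (Fin n) ℝ := (1 : Matrix (Fin n) (Fin n) ℝ).updateRow i
    (fun j => y j / y i) with hM
  have hdet : M.det = 1 := by rw [hM, det_updateRow_one, div_self hy]
  set L := Matrix.toLin' M with hL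
  have hLdet : LinearMap.det L = 1 := by rw [hL, LinearMap.det_toLin', hdet]
  set B : Set (Fin n → ℝ) := Set.pi univ fun j => Icc (-(if j = i then T / |y i| else r))
    (if j = i then T / |y i| else r) with hB
  have hsub : {p : Fin n → ℝ | (∀ j, |p j| ≤ r) ∧ |∑ j, p j * y j| ≤ T} ⊆ L ⁻¹' B := by
    rintro p ⟨hp1, hp2⟩
    rw [mem_preimage, hB, mem_univ_pi]
    intro j
    by_cases hj : j = i
    · subst hj
      have hval : L p j = (∑ k, p k * y k) / y j := by
        rw [hL, Matrix.toLin'_apply, Matrix.mulVec, hM, Matrix.updateRow_self]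
        rw [dotProduct, Finset.sum_div]
        exact Finset.sum_congr rfl fun k _ => by ring
      rw [if_pos rfl, hval, mem_Icc, ← abs_le, abs_div]
      exact div_le_div_of_nonneg_right hp2 (abs_nonneg _)
    · have hval : L p j = p j := by
        rw [hL, Matrix.toLin'_apply, Matrix.mulVec, hM, Matrix.updateRow_ne hj]
        simp [dotProduct, Matrix.one_apply]
      rw [if_neg hj, hval, mem_Icc, ← abs_le]
      exact hp1 j
  refine (measure_mono hsub).trans ?_
  rw [Measure.addHaar_preimage_linearMap volume (by rw [hLdet]; exact one_ne_zero), hLdet,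
    inv_one, abs_one, ENNReal.ofReal_one, one_mul, hB, volume_pi_pi]
  simp only [Real.volume_Icc, sub_neg_eq_add]
  rw [← Finset.mul_prod_erase _ _ (Finset.mem_univ i), if_pos rfl,
    Finset.prod_congr rfl (g := fun _ => ENNReal.ofReal (r + r)) fun j hj => by
      rw [if_neg (Finset.ne_of_mem_erase hj)],
    Finset.prod_const, Finset.card_erase_of_mem (Finset.mem_univ i), Finset.card_univ,
    Fintype.card_fin, ← ENNReal.ofReal_pow (by positivity), ← ENNReal.ofReal_mul (by positivity)]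
  refine (congrArg ENNReal.ofReal ?_).le
  ring

theorem nsq_aff (y : Fin n → ℝ) : nsq (aff y) = 1 + ∑ i, y i * y i := by
  simp [nsq, aff, Fin.sum_univ_succ]

theorem nsq_dir (w : Fin n → ℝ) : nsq (dir w) = ∑ i, w i * w i := by
  simp [nsq, dir, Fin.sum_univ_succ]

theorem ip_aff_dir (y w : Fin n → ℝ) : ip (aff y) (dir w) = ∑ i, y i * w i := by
  simp [ip, aff, dir, Fin.sum_univ_succ]

theorem aff_ne_zero (y : Fin n → ℝ) : aff y ≠ 0 := fun h => by
  have := congrFun h 0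
  simp [aff] at this

theorem rnd_aff_dir_le (y w : Fin n → ℝ) :
    rnd (aff y) (dir w) ≤ √(nsq (dir w)) / √(nsq (aff y)) := by
  have h := nsq_pos (aff_ne_zero y)
  rw [rnd, div_le_div_iff₀ h (Real.sqrt_pos.2 h), ← Real.sqrt_mul (gram_nonneg _ _)]
  rw [Real.sqrt_le_left (by positivity), mul_pow, Real.sq_sqrt (nsq_nonneg _), gram]
  nlinarith [sq_nonneg (ip (aff y) (dir w))]

theorem rnd_aff_self (y : Fin n → ℝ) :
    rnd (aff y) (dir y) = √(∑ i, y i * y i) / nsq (aff y) := by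
  rw [rnd, gram, nsq_aff, nsq_dir, ip_aff_dir]
  congr 2
  ring

theorem sum_sq_le (y : Fin n → ℝ) : ∑ i, y i * y i ≤ n * ‖y‖ ^ 2 := by
  calc ∑ i, y i * y i ≤ ∑ _i : Fin n, ‖y‖ ^ 2 := Finset.sum_le_sum fun i _ => by
        have := norm_le_pi_norm y i
        rw [Real.norm_eq_abs] at this
        rw [← sq, ← sq_abs]
        exact pow_le_pow_left₀ (abs_nonneg _) this 2
    _ = _ := by simp

theorem sq_norm_le_sum (y : Fin n → ℝ) : ‖y‖ ^ 2 ≤ ∑ i, y i * y i := by
  have h0 : 0 ≤ ∑ i, y i * y i := Finset.sum_nonneg fun i _ => mul_self_nonneg (y i)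
  have : ‖y‖ ≤ √(∑ i, y i * y i) := (pi_norm_le_iff_of_nonneg (Real.sqrt_nonneg _)).2 fun i => by
    rw [Real.norm_eq_abs]
    refine Real.abs_le_sqrt ?_
    rw [sq]
    exact Finset.single_le_sum (f := fun i => y i * y i) (fun i _ => mul_self_nonneg (y i))
      (Finset.mem_univ i)
  calc ‖y‖ ^ 2 ≤ √(∑ i, y i * y i) ^ 2 := pow_le_pow_left₀ (norm_nonneg _) this 2
    _ = _ := Real.sq_sqrt h0

theorem mem_body_coord {C : ℝ} (hC : 0 ≤ C) {y p : Fin n → ℝ}
    (hp : p ∈ body fun w => C * rnd (aff y) (dir w)) (j : Fin n) :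
    |p j| ≤ C / √(1 + ‖y‖ ^ 2) := by
  have hs : √(1 + ‖y‖ ^ 2) ≤ √(nsq (aff y)) := Real.sqrt_le_sqrt (by
    rw [nsq_aff]; linarith [sq_norm_le_sum y])
  have hpos : 0 < √(1 + ‖y‖ ^ 2) := Real.sqrt_pos.2 (by positivity)
  have key : ∀ σ : ℝ, σ ^ 2 = 1 → σ * p j ≤ C / √(1 + ‖y‖ ^ 2) := by
    intro σ hσ
    have h1 := hp (Pi.single j σ)
    have e1 : ∑ i, p i * (Pi.single j σ : Fin n → ℝ) i = σ * p j := by
      rw [Finset.sum_eq_single j (fun b _ hb => by rw [Pi.single_eq_of_ne hb, mul_zero])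
        (fun h => absurd (Finset.mem_univ j) h), Pi.single_eq_same, mul_comm]
    have e2 : nsq (dir (Pi.single j σ : Fin n → ℝ)) = 1 := by
      rw [nsq_dir, Finset.sum_eq_single j (fun b _ hb => by rw [Pi.single_eq_of_ne hb, mul_zero])
        (fun h => absurd (Finset.mem_univ j) h), Pi.single_eq_same, ← sq, hσ]
    rw [e1] at h1
    refine h1.trans ((mul_le_mul_of_nonneg_left (rnd_aff_dir_le y _) hC).trans ?_)
    rw [e2, Real.sqrt_one, mul_one_div]
    exact div_le_div_of_nonneg_left hC hpos hs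
  rw [abs_le]
  constructor
  · have := key (-1) (by norm_num); linarith
  · have := key 1 (by norm_num); linarith

theorem mem_body_self {C : ℝ} (hC : 0 ≤ C) {y p : Fin n → ℝ}
    (hp : p ∈ body fun w => C * rnd (aff y) (dir w)) :
    |∑ j, p j * y j| ≤ C * (√n * ‖y‖) / (1 + ‖y‖ ^ 2) := by
  have hpos : (0 : ℝ) < 1 + ‖y‖ ^ 2 := by positivity
  have h0 : 0 ≤ ∑ i, y i * y i := Finset.sum_nonneg fun i _ => mul_self_nonneg (y i)
  have hb : C * rnd (aff y) (dir y) ≤ C * (√n * ‖y‖) / (1 + ‖y‖ ^ 2) := by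
    rw [rnd_aff_self, mul_div_assoc]
    refine mul_le_mul_of_nonneg_left ?_ hC
    refine div_le_div₀ (by positivity) ?_ hpos ?_
    · rw [← Real.sqrt_sq (norm_nonneg y), ← Real.sqrt_mul (by positivity)]
      exact Real.sqrt_le_sqrt (sum_sq_le y)
    · rw [nsq_aff]; linarith [sq_norm_le_sum y]
  have h1 := (hp y).trans hb
  have h2 := hp (-y)
  have e : rnd (aff y) (dir (-y)) = rnd (aff y) (dir y) := by
    have : dir (-y) = (-1 : ℝ) • dir y := by
      funext i
      refine Fin.cases ?_ (fun i => ?_) i <;> simp [dir]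
    rw [this, rnd_smul]; simp
  simp only [e, Pi.neg_apply, mul_neg, Finset.sum_neg_distrib] at h2
  rw [abs_le]
  constructor
  · linarith
  · exact h1

/-- the basic domination -/
theorem volume_body_rnd_le (hn : 0 < n) {C : ℝ} (hC : 0 ≤ C) :
    ∃ D : ℝ, 0 ≤ D ∧ ∀ y : Fin n → ℝ, volume (body fun w => C * rnd (aff y) (dir w))
      ≤ ENNReal.ofReal (D * (1 + ‖y‖ ^ 2) ^ (-((n : ℝ) + 1) / 2)) := by
  haveI : Nonempty (Fin n) := ⟨⟨0, hn⟩⟩
  refine ⟨(2 * C) ^ n * (√n + √2), by positivity, fun y => ?_⟩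
  set s : ℝ := √(1 + ‖y‖ ^ 2) with hs
  have hpos : (0 : ℝ) < 1 + ‖y‖ ^ 2 := by positivity
  have hspos : 0 < s := Real.sqrt_pos.2 hpos
  have hss : s ^ 2 = 1 + ‖y‖ ^ 2 := Real.sq_sqrt hpos.le
  have hrp : (1 + ‖y‖ ^ 2) ^ (-((n : ℝ) + 1) / 2) = (s ^ (n + 1))⁻¹ := by
    have h1 : s ^ (n + 1) = (1 + ‖y‖ ^ 2) ^ (((n : ℝ) + 1) / 2) := by
      rw [← Real.rpow_natCast s (n + 1), hs, Real.sqrt_eq_rpow, ← Real.rpow_mul hpos.le]
      congr 1
      push_cast
      ring
    rw [h1, ← Real.rpow_neg hpos.le, neg_div]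
  rw [hrp]
  obtain ⟨i, hi⟩ : ∃ i, ‖y i‖ = ‖y‖ := by
    obtain ⟨i, hi⟩ := Finite.exists_max fun i => ‖y i‖
    exact ⟨i, le_antisymm (norm_le_pi_norm y i)
      ((pi_norm_le_iff_of_nonneg (norm_nonneg _)).2 hi)⟩
  rcases le_or_gt 1 ‖y‖ with h1 | h1
  · have hyi : y i ≠ 0 := by
      intro h; rw [h, norm_zero] at hi; linarith
    have hyp : 0 < ‖y‖ := by linarith
    have hsub : (body fun w => C * rnd (aff y) (dir w)) ⊆
        {p : Fin n → ℝ | (∀ j, |p j| ≤ C / s) ∧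
          |∑ j, p j * y j| ≤ C * (√n * ‖y‖) / (1 + ‖y‖ ^ 2)} :=
      fun p hp => ⟨mem_body_coord hC hp, mem_body_self hC hp⟩
    refine (measure_mono hsub).trans ((volume_shear_le i y hyi (by positivity)
      (by positivity)).trans (ENNReal.ofReal_le_ofReal ?_))
    rw [← Real.norm_eq_abs, hi]
    have e : (2 * (C / s)) ^ (n - 1) * (2 * (C * (√n * ‖y‖) / (1 + ‖y‖ ^ 2) / ‖y‖))
        = (2 * C) ^ n * √n * (s ^ (n + 1))⁻¹ := by
      obtain ⟨k, rfl⟩ : ∃ k, n = k + 1 := ⟨n - 1, by omega⟩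
      rw [← hss, Nat.add_sub_cancel, show 2 * (C / s) = (2 * C) / s by ring, div_pow,
        show 2 * (C * (√((k + 1 : ℕ) : ℝ) * ‖y‖) / s ^ 2 / ‖y‖)
          = (2 * C) * √((k + 1 : ℕ) : ℝ) / s ^ 2 * (‖y‖ / ‖y‖) by ring, div_self hyp.ne',
        mul_one, pow_succ (2 * C) k, show s ^ (k + 1 + 1) = s ^ k * s ^ 2 by ring, mul_inv]
      ring
    rw [e]
    refine mul_le_mul_of_nonneg_right (mul_le_mul_of_nonneg_left ?_ (by positivity))
      (by positivity)
    linarith [Real.sqrt_nonneg 2]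
  · have hsub : (body fun w => C * rnd (aff y) (dir w)) ⊆
        Set.pi univ fun _ : Fin n => Icc (-(C / s)) (C / s) := fun p hp => by
      rw [mem_univ_pi]; intro j; rw [mem_Icc, ← abs_le]; exact mem_body_coord hC hp j
    refine (measure_mono hsub).trans ?_
    rw [volume_pi_pi]
    simp only [Real.volume_Icc, sub_neg_eq_add]
    rw [Finset.prod_const, Finset.card_univ, Fintype.card_fin, ← ENNReal.ofReal_pow (by positivity)]
    refine ENNReal.ofReal_le_ofReal ?_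
    have hs2 : s ≤ √2 := Real.sqrt_le_sqrt (by nlinarith [norm_nonneg y])
    have e : (C / s + C / s) ^ n = (2 * C) ^ n * s * (s ^ (n + 1))⁻¹ := by
      rw [show C / s + C / s = (2 * C) / s by ring, div_pow, pow_succ]
      field_simp
    rw [e]
    refine mul_le_mul_of_nonneg_right (mul_le_mul_of_nonneg_left ?_ (by positivity))
      (by positivity)
    linarith [Real.sqrt_nonneg n]

theorem lintegral_dom_lt_top {D : ℝ} (hD : 0 ≤ D) :
    ∫⁻ y : Fin n → ℝ, ENNReal.ofReal (D * (1 + ‖y‖ ^ 2) ^ (-((n : ℝ) + 1) / 2)) < ⊤ := by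
  have h : Integrable (fun y : Fin n → ℝ => (1 + ‖y‖ ^ 2) ^ (-((n : ℝ) + 1) / 2)) :=
    integrable_rpow_neg_one_add_norm_sq (r := (n : ℝ) + 1) (by simp)
  have h2 : Integrable (fun y : Fin n → ℝ => D * (1 + ‖y‖ ^ 2) ^ (-((n : ℝ) + 1) / 2)) :=
    h.const_mul D
  exact h2.lintegral_lt_top

end Pool.Agent.H785.RP
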