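import Pool.Agent.H785.RP.OfFun

/-!
# The functions and forms on `RP^5` used for the example
-/

open Set Filter
open scoped ContDiff Topology

namespace Pool.Agent.H785.RP.Ex

/-- indices of the real parts -/
def ix : Fin 3 → Fin 6 := ![0, 2, 4]
/-- indices of the imaginary parts -/
def iy : Fin 3 → Fin 6 := ![1, 3, 5]

/-- `|Z_k|²` -/
def sq (k : Fin 3) (x : Co 5) : ℝ := x (ix k) ^ 2 + x (iy k) ^ 2

/-- the moment map coordinates -/
noncomputable def s (k : Fin 3) (x : Co 5) : ℝ := sq k x / nsq x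

/-- the angular forms `d arg Z_k` -/
noncomputable def A (k : Fin 3) (x v : Co 5) : ℝ :=
  (x (ix k) * v (iy k) - x (iy k) * v (ix k)) / sq k x

/-- `Re (Z_1 Z_2 Z_3)` -/
def Pr (x : Co 5) : ℝ := (x 0 * x 2 - x 1 * x 3) * x 4 - (x 0 * x 3 + x 1 * x 2) * x 5
/-- `Im (Z_1 Z_2 Z_3)` -/
def Pi (x : Co 5) : ℝ := (x 0 * x 2 - x 1 * x 3) * x 5 + (x 0 * x 3 + x 1 * x 2) * x 4

noncomputable def Q (x : Co 5) : ℝ := Pr x / √(nsq x) ^ 3

noncomputable def τ (x : Co 5) : ℝ := Real.arctan (Pr x / Pi x)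

theorem nsq_five (x : Co 5) : nsq x = sq 0 x + sq 1 x + sq 2 x := by
  have h : nsq x = ∑ i : Fin 6, x i * x i := rfl
  rw [h, Fin.sum_univ_six]
  simp only [sq, ix, iy, Matrix.cons_val]
  ring

theorem sq_nonneg' (k : Fin 3) (x : Co 5) : 0 ≤ sq k x := by unfold sq; positivity

theorem sum_s {x : Co 5} (hx : x ≠ 0) : s 0 x + s 1 x + s 2 x = 1 := by
  have h := nsq_pos hx
  rw [s, s, s, ← add_div, ← add_div, ← nsq_five, div_self h.ne']

theorem s_nonneg (k : Fin 3) (x : Co 5) : 0 ≤ s k x := div_nonneg (sq_nonneg' k x) (nsq_nonneg x)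

theorem sq_pos_of {k : Fin 3} {x : Co 5} (h : 0 < s k x) : 0 < sq k x := by
  refine lt_of_le_of_ne (sq_nonneg' k x) fun h0 => ?_
  rw [s, ← h0, zero_div] at h
  exact lt_irrefl _ h

theorem normSq_P (x : Co 5) : Pr x ^ 2 + Pi x ^ 2 = sq 0 x * sq 1 x * sq 2 x := by
  simp only [Pr, Pi, sq, ix, iy, Matrix.cons_val]
  ring

theorem Q_sq (x : Co 5) : Q x ^ 2 = Pr x ^ 2 / nsq x ^ 3 := by
  rw [Q, div_pow, ← pow_mul, pow_mul', Real.sq_sqrt (nsq_nonneg x)]

theorem sss {x : Co 5} (hx : x ≠ 0) :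
    s 0 x * s 1 x * s 2 x = (Pr x ^ 2 + Pi x ^ 2) / nsq x ^ 3 := by
  rw [normSq_P, s, s, s]
  have h := (nsq_pos hx).ne'
  field_simp

theorem prod_ge {a b c : ℝ} (ha : 1 / 25 ≤ a) (hb : 1 / 25 ≤ b) (hc : 1 / 25 ≤ c)
    (h : a + b + c = 1) : 1 / 1875 ≤ a * b * c := by
  rcases le_total (1 / 3) a with h1 | h1
  · have := mul_le_mul hb hc (by norm_num) (by linarith)
    nlinarith
  · rcases le_total (1 / 3) b with h2 | h2
    · have := mul_le_mul ha hc (by norm_num) (by linarith)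
      nlinarith
    · have h3 : 1 / 3 ≤ c := by linarith
      have := mul_le_mul ha hb (by norm_num) (by linarith)
      nlinarith

theorem Pi_ne {x : Co 5} (hx : x ≠ 0) (h : ∀ k, 1 / 25 ≤ s k x) (hQ : (100 * Q x) ^ 2 < 3) :
    Pi x ≠ 0 := by
  intro h0
  have h1 := prod_ge (h 0) (h 1) (h 2) (sum_s hx)
  rw [sss hx, h0, zero_pow two_ne_zero, add_zero, ← Q_sq x] at h1
  nlinarith

/-! ### Smoothness -/

theorem contDiff_coord (i : Fin 6) : ContDiff ℝ ∞ fun x : Co 5 => x i := contDiff_apply ℝ ℝ i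

theorem contDiff_sq (k : Fin 3) : ContDiff ℝ ∞ (sq k) := by
  unfold sq
  exact ((contDiff_coord _).pow 2).add ((contDiff_coord _).pow 2)

theorem contDiff_Pr : ContDiff ℝ ∞ Pr := by
  unfold Pr
  exact ((((contDiff_coord 0).mul (contDiff_coord 2)).sub ((contDiff_coord 1).mul
    (contDiff_coord 3))).mul (contDiff_coord 4)).sub ((((contDiff_coord 0).mul
    (contDiff_coord 3)).add ((contDiff_coord 1).mul (contDiff_coord 2))).mul (contDiff_coord 5))

theorem contDiff_Pi : ContDiff ℝ ∞ Pi := by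
  unfold Pi
  exact ((((contDiff_coord 0).mul (contDiff_coord 2)).sub ((contDiff_coord 1).mul
    (contDiff_coord 3))).mul (contDiff_coord 5)).add ((((contDiff_coord 0).mul
    (contDiff_coord 3)).add ((contDiff_coord 1).mul (contDiff_coord 2))).mul (contDiff_coord 4))

theorem sq_smul (k : Fin 3) (x : Co 5) (c : ℝ) : sq k (c • x) = c ^ 2 * sq k x := by
  simp only [sq, Pi.smul_apply, smul_eq_mul]; ring

theorem s_smul (k : Fin 3) (x : Co 5) {c : ℝ} (hc : c ≠ 0) : s k (c • x) = s k x := by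
  rw [s, s, sq_smul, nsq_smul, mul_div_mul_left _ _ (pow_ne_zero 2 hc)]

theorem Pr_smul (x : Co 5) (c : ℝ) : Pr (c • x) = c ^ 3 * Pr x := by
  simp only [Pr, Pi.smul_apply, smul_eq_mul]; ring

theorem Pi_smul (x : Co 5) (c : ℝ) : Pi (c • x) = c ^ 3 * Pi x := by
  simp only [Pi, Pi.smul_apply, smul_eq_mul]; ring

theorem A_inv (k : Fin 3) (x v : Co 5) {c : ℝ} (hc : c ≠ 0) (a : ℝ) :
    A k (c • x) (c • v + a • x) = A k x v := by
  rw [A, A, sq_smul, ← mul_div_mul_left _ (sq k x) (pow_ne_zero 2 hc)]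
  congr 1
  simp only [Pi.smul_apply, Pi.add_apply, smul_eq_mul]
  ring

theorem A_add (k : Fin 3) (x v w : Co 5) : A k x (v + w) = A k x v + A k x w := by
  rw [A, A, A, ← add_div]
  congr 1
  simp only [Pi.add_apply]
  ring

theorem A_smul (k : Fin 3) (x v : Co 5) (r : ℝ) : A k x (r • v) = r * A k x v := by
  rw [A, A, mul_div_assoc']
  congr 1
  simp only [Pi.smul_apply, smul_eq_mul]
  ring

theorem neg_eq (x : Co 5) : -x = (-1 : ℝ) • x := by simp

theorem func_s (k : Fin 3) : Func (s k) 1 where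
  smooth := (contDiff_sq k).contDiffOn.div contDiff_nsq.contDiffOn fun x hx => (nsq_pos hx).ne'
  pos := fun x _ c hc => s_smul k x hc.ne'
  neg := fun x _ => by rw [neg_eq, s_smul k x (by norm_num), one_mul]

theorem func_Q : Func Q (-1) where
  smooth := contDiff_Pr.contDiffOn.div ((contDiff_nsq.contDiffOn.sqrt fun x hx =>
    (nsq_pos hx).ne').pow 3) fun x hx => pow_ne_zero 3 (Real.sqrt_pos.2 (nsq_pos hx)).ne'
  pos := fun x _ c hc => by
    rw [Q, Q, Pr_smul, nsq_smul, Real.sqrt_mul (sq_nonneg c), Real.sqrt_sq hc.le, mul_pow,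
      mul_div_mul_left _ _ (pow_ne_zero 3 hc.ne')]
  neg := fun x _ => by
    have h : nsq (-x) = nsq x := by rw [neg_eq, nsq_smul]; ring
    have h2 : Pr (-x) = - Pr x := by rw [neg_eq, Pr_smul]; ring
    rw [Q, Q, h, h2]; ring

/-! ### The functions -/

/-- `y_i = G (s_i)` -/
noncomputable def y (k : Fin 3) (x : Co 5) : ℝ := step (1 / 4) (12 / 25) (s k x)
noncomputable def h (k : Fin 3) (x : Co 5) : ℝ := step (4 / 5) (17 / 20) (s k x)
noncomputable def X (x : Co 5) : ℝ := odd (100 * Q x)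
noncomputable def lam (t : ℝ) : ℝ := 1 - step (1 / 25) (1 / 20) t
noncomputable def nu (t : ℝ) : ℝ := 1 - step (1 / 2) (3 / 4) t
/-- the weights -/
noncomputable def w : Fin 3 → Co 5 → ℝ
  | 0 => fun x => lam (s 0 x) + (1 - lam (s 0 x) - lam (s 1 x)) * (1 - nu (s 2 x))
  | 1 => fun x => lam (s 1 x)
  | 2 => fun x => (1 - lam (s 0 x) - lam (s 1 x)) * nu (s 2 x)
/-- the cut-off functions -/
noncomputable def χT (x : Co 5) : ℝ :=
  (1 - step 1 2 ((100 * Q x) * (100 * Q x))) * ((1 - step (17 / 20) (22 / 25) (s 0 x)) *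
    ((1 - step (17 / 20) (22 / 25) (s 1 x)) * (1 - step (17 / 20) (22 / 25) (s 2 x))))
noncomputable def χA (k : Fin 3) (x : Co 5) : ℝ := step (3 / 4) (4 / 5) (s k x)

/-- the forms `π dt_j` -/
noncomputable def om (j : Fin 3) (x v : Co 5) : ℝ :=
  A j x v - w j x * (A 0 x v + A 1 x v + A 2 x v) + τ x * fderiv ℝ (w j) x v

theorem contDiff_lam : ContDiff ℝ ∞ lam := by
  unfold lam; exact contDiff_const.sub contDiff_step

theorem contDiff_nu : ContDiff ℝ ∞ nu := by
  unfold nu; exact contDiff_const.sub contDiff_step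

theorem func_X : Func X (-1) := by
  have h1 : Func (fun x => 100 * Q x) (-1) := by
    have := (Func.const (n := 5) 100).mul func_Q
    rwa [one_mul] at this
  exact h1.comp_odd contDiff_odd odd_neg

theorem func_y (k : Fin 3) : Func (y k) 1 := (func_s k).comp contDiff_step

theorem func_h (k : Fin 3) : Func (h k) 1 := (func_s k).comp contDiff_step

theorem func_w (k : Fin 3) : Func (w k) 1 := by
  have l : ∀ k, Func (fun x => lam (s k x)) 1 := fun k => (func_s k).comp contDiff_lam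
  have m : Func (fun x => nu (s 2 x)) 1 := (func_s 2).comp contDiff_nu
  have c := Func.const (n := 5) 1
  have h1 : Func (fun x => 1 - lam (s 0 x) - lam (s 1 x)) 1 := (c.sub (l 0)).sub (l 1)
  match k with
  | 0 =>
    have h2 := h1.mul (c.sub m)
    rw [one_mul] at h2
    exact (l 0).add h2
  | 1 => exact l 1
  | 2 =>
    have h2 := h1.mul m
    rw [one_mul] at h2
    exact h2

theorem func_χT : Func χT 1 := by
  have c := Func.const (n := 5) 1
  have h1 : Func (fun x => 100 * Q x) (-1) := by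
    have := (Func.const (n := 5) 100).mul func_Q
    rwa [one_mul] at this
  have h2 := h1.mul h1
  rw [neg_one_mul, neg_neg] at h2
  have h3 := c.sub (h2.comp (contDiff_step (a := 1) (b := 2)))
  have h4 : ∀ k, Func (fun x => 1 - step (17 / 20) (22 / 25) (s k x)) 1 := fun k =>
    c.sub ((func_s k).comp contDiff_step)
  have h5 := h3.mul ((h4 0).mul ((h4 1).mul (h4 2)))
  rw [one_mul, one_mul, one_mul] at h5
  exact h5

theorem func_χA (k : Fin 3) : Func (χA k) 1 := (func_s k).comp contDiff_step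

theorem w_sum (x : Co 5) : w 0 x + w 1 x + w 2 x = 1 := by
  simp only [w]; ring

theorem τ_inv (x : Co 5) {c : ℝ} (hc : c ≠ 0) : τ (c • x) = τ x := by
  rw [τ, τ, Pr_smul, Pi_smul, mul_div_mul_left _ _ (pow_ne_zero 3 hc)]

theorem Func.one_inv {f : Co 5 → ℝ} (h : Func f 1) {x : Co 5} (hx : x ≠ 0) {c : ℝ}
    (hc : c ≠ 0) : f (c • x) = f x := by
  rw [h.eq hx hc]; simp

theorem Func.one_dinv {f : Co 5 → ℝ} (h : Func f 1) {x : Co 5} (hx : x ≠ 0) {c : ℝ}
    (hc : c ≠ 0) (v : Co 5) (a : ℝ) : fderiv ℝ f (c • x) (c • v + a • x) = fderiv ℝ f x v := by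
  rw [h.inv hx hc]; simp

theorem om_inv (j : Fin 3) {x : Co 5} (hx : x ≠ 0) (v : Co 5) {c : ℝ} (hc : c ≠ 0) (a : ℝ) :
    om j (c • x) (c • v + a • x) = om j x v := by
  simp only [om, A_inv _ x v hc, τ_inv x hc, Func.one_inv (func_w j) hx hc,
    Func.one_dinv (func_w j) hx hc]

theorem om_add (j : Fin 3) (x v w : Co 5) : om j x (v + w) = om j x v + om j x w := by
  simp only [om, A_add, map_add]; ring

theorem om_smul (j : Fin 3) (x v : Co 5) (r : ℝ) : om j x (r • v) = r * om j x v := by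
  simp only [om, A_smul, map_smul, smul_eq_mul]; ring

theorem om_sum {x : Co 5} (hx : x ≠ 0) (v : Co 5) : om 0 x v + om 1 x v + om 2 x v = 0 := by
  have h1 : fderiv ℝ (w 0) x v + fderiv ℝ (w 1) x v + fderiv ℝ (w 2) x v = 0 := by
    have h0 := (func_w 0).diff hx
    have h1 := (func_w 1).diff hx
    have h2 := (func_w 2).diff hx
    have e : (fun x => w 0 x + w 1 x + w 2 x) = fun _ => (1 : ℝ) := funext w_sum
    have e2 : fderiv ℝ (fun x => w 0 x + w 1 x + w 2 x) x
        = fderiv ℝ (w 0) x + fderiv ℝ (w 1) x + fderiv ℝ (w 2) x :=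
      ((h0.hasFDerivAt.add h1.hasFDerivAt).add h2.hasFDerivAt).fderiv
    rw [e, fderiv_const_apply] at e2
    have := congrArg (fun L : Co 5 →L[ℝ] ℝ => L v) e2
    simpa using this.symm
  have h2 := w_sum x
  simp only [om]
  have e : A 0 x v - w 0 x * (A 0 x v + A 1 x v + A 2 x v) + τ x * fderiv ℝ (w 0) x v
      + (A 1 x v - w 1 x * (A 0 x v + A 1 x v + A 2 x v) + τ x * fderiv ℝ (w 1) x v)
      + (A 2 x v - w 2 x * (A 0 x v + A 1 x v + A 2 x v) + τ x * fderiv ℝ (w 2) x v)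
      = (1 - (w 0 x + w 1 x + w 2 x)) * (A 0 x v + A 1 x v + A 2 x v)
        + τ x * (fderiv ℝ (w 0) x v + fderiv ℝ (w 1) x v + fderiv ℝ (w 2) x v) := by ring
  rw [e, h1, h2]; ring

end Pool.Agent.H785.RP.Ex
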