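import Pool.Agent.H785.RP.Ex

/-!
# Smoothness of the cut-off forms
-/

open Set Filter
open scoped ContDiff Topology

namespace Pool.Agent.H785.RP.Ex

theorem lam_one {t : ℝ} (h : t ≤ 1 / 25) : lam t = 1 := by
  rw [lam, step_eq_zero (by norm_num) h, sub_zero]

theorem lam_zero {t : ℝ} (h : 1 / 20 ≤ t) : lam t = 0 := by
  rw [lam, step_eq_one (by norm_num) h, sub_self]

theorem nu_one {t : ℝ} (h : t ≤ 1 / 2) : nu t = 1 := by
  rw [nu, step_eq_zero (by norm_num) h, sub_zero]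

theorem nu_zero {t : ℝ} (h : 3 / 4 ≤ t) : nu t = 0 := by
  rw [nu, step_eq_one (by norm_num) h, sub_self]

theorem lam_mem (t : ℝ) : 0 ≤ lam t ∧ lam t ≤ 1 := by
  have h1 := step_nonneg (a := 1 / 25) (b := 1 / 20) (t := t)
  have h2 := step_le_one (a := 1 / 25) (b := 1 / 20) (t := t)
  constructor <;> simp only [lam] <;> linarith

theorem nu_mem (t : ℝ) : 0 ≤ nu t ∧ nu t ≤ 1 := by
  have h1 := step_nonneg (a := 1 / 2) (b := 3 / 4) (t := t)
  have h2 := step_le_one (a := 1 / 2) (b := 3 / 4) (t := t)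
  constructor <;> simp only [nu] <;> linarith

theorem w_eq {x : Co 5} (j : Fin 3) (hj : s j x ≤ 1 / 25) (ho : ∀ i, i ≠ j → 1 / 20 ≤ s i x)
    (i : Fin 3) : w i x = if i = j then 1 else 0 := by
  fin_cases j
  · have h0 := lam_one hj
    have h1 := lam_zero (ho 1 (by decide))
    simp only [Fin.zero_eta] at h0 h1
    fin_cases i <;> simp [w, h0, h1]
  · have h0 := lam_one hj
    have h1 := lam_zero (ho 0 (by decide))
    simp only [Fin.mk_one] at h0 h1
    fin_cases i <;> simp [w, h0, h1]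
  · have h0 := lam_zero (ho 0 (by decide))
    have h1 := lam_zero (ho 1 (by decide))
    have h2 := nu_one (hj.trans (by norm_num))
    simp only [Fin.reduceFinMk] at h0 h1 h2
    fin_cases i <;> simp [w, h0, h1, h2]

/-- the forms in the region where `s j` is small -/
theorem om_eq {x : Co 5} (hx : x ≠ 0) (j : Fin 3) (hj : s j x < 1 / 25)
    (ho : ∀ i, i ≠ j → 1 / 20 < s i x) :
    ∀ᶠ z in 𝓝 x, ∀ i v, w i z = (if i = j then 1 else 0) ∧
      om i z v = A i z v - (if i = j then 1 else 0) * (A 0 z v + A 1 z v + A 2 z v) := by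
  have hs : ∀ k, ContinuousAt (s k) x := fun k => ((func_s k).diff hx).continuousAt
  have h1 : ∀ᶠ z in 𝓝 x, s j z < 1 / 25 := (hs j).eventually_lt continuousAt_const hj
  have h2 : ∀ᶠ z in 𝓝 x, ∀ i, i ≠ j → 1 / 20 < s i z := by
    rw [eventually_all]
    intro i
    by_cases hij : i = j
    · exact Eventually.of_forall fun z h => absurd hij h
    · exact (continuousAt_const.eventually_lt (hs i) (ho i hij)).mono fun z hz _ => hz
  have h3 : ∀ᶠ z in 𝓝 x, ∀ i, w i z = if i = j then 1 else 0 := by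
    filter_upwards [h1, h2] with z hz1 hz2
    exact w_eq j hz1.le fun i hi => (hz2 i hi).le
  have h4 := h3.eventually_nhds
  filter_upwards [h4] with z hz i v
  have e : w i =ᶠ[𝓝 z] fun _ => if i = j then (1 : ℝ) else 0 := hz.mono fun u hu => hu i
  have e2 : fderiv ℝ (w i) z = 0 := by
    rw [e.fderiv_eq, fderiv_const_apply]
  have e3 : w i z = if i = j then 1 else 0 := e.self_of_nhds
  refine ⟨e3, ?_⟩
  rw [om, e2, e3]
  simp

theorem contDiffAt_A {k : Fin 3} {x : Co 5} (h : 0 < s k x) (v : Co 5) :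
    ContDiffAt ℝ ∞ (fun p : Co 5 × Co 5 => A k p.1 p.2) (x, v) := by
  unfold A
  have c : ∀ i : Fin 6, ContDiffAt ℝ ∞ (fun p : Co 5 × Co 5 => p.1 i) (x, v) := fun i =>
    ((contDiff_coord i).comp contDiff_fst).contDiffAt
  have d : ∀ i : Fin 6, ContDiffAt ℝ ∞ (fun p : Co 5 × Co 5 => p.2 i) (x, v) := fun i =>
    ((contDiff_coord i).comp contDiff_snd).contDiffAt
  exact (((c _).mul (d _)).sub ((c _).mul (d _))).div
    ((contDiff_sq k).comp contDiff_fst).contDiffAt (sq_pos_of h).ne'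

theorem contDiffAt_τ {x : Co 5} (h : Pi x ≠ 0) : ContDiffAt ℝ ∞ τ x :=
  (contDiff_Pr.contDiffAt.div contDiff_Pi.contDiffAt h).arctan

theorem Func.at {f : Co 5 → ℝ} {σ : ℝ} (h : Func f σ) {x : Co 5} (hx : x ≠ 0) :
    ContDiffAt ℝ ∞ f x := h.smooth.contDiffAt (isOpen_ne.mem_nhds hx)

theorem Func.at1 {f : Co 5 → ℝ} {σ : ℝ} (h : Func f σ) {x : Co 5} (hx : x ≠ 0) (v : Co 5) :
    ContDiffAt ℝ ∞ (fun p : Co 5 × Co 5 => f p.1) (x, v) :=
  ContDiffAt.comp (g := f) (f := Prod.fst) (x, v) (Func.at h hx) contDiff_fst.contDiffAt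

theorem contDiffAt_om_of_Pi {x : Co 5} (hx : x ≠ 0) (h : ∀ k, 0 < s k x) (hP : Pi x ≠ 0)
    (j : Fin 3) (v : Co 5) : ContDiffAt ℝ ∞ (fun p : Co 5 × Co 5 => om j p.1 p.2) (x, v) := by
  have h1 : ContDiffAt ℝ ∞ (fun p : Co 5 × Co 5 => fderiv ℝ (w j) p.1 p.2) (x, v) :=
    (contDiffOn_fderiv_apply (func_w j).smooth).contDiffAt (isOpen_fst_ne.mem_nhds hx)
  have h2 : ContDiffAt ℝ ∞ (fun p : Co 5 × Co 5 => τ p.1) (x, v) :=
    ContDiffAt.comp (g := τ) (f := Prod.fst) (x, v) (contDiffAt_τ hP) contDiff_fst.contDiffAt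
  unfold om
  exact ((contDiffAt_A (h j) v).sub ((Func.at1 (func_w j) hx v).mul (((contDiffAt_A (h 0) v).add
    (contDiffAt_A (h 1) v)).add (contDiffAt_A (h 2) v)))).add (h2.mul h1)

theorem contDiffAt_om_of_small {x : Co 5} (hx : x ≠ 0) (j : Fin 3) (hj : s j x < 1 / 25)
    (ho : ∀ i, i ≠ j → 1 / 20 < s i x) (i : Fin 3) (v : Co 5) :
    ContDiffAt ℝ ∞ (fun p : Co 5 × Co 5 => om i p.1 p.2) (x, v) := by
  have h := om_eq hx j hj ho
  have h' : ∀ᶠ p : Co 5 × Co 5 in 𝓝 (x, v), om i p.1 p.2 = A i p.1 p.2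
      - (if i = j then 1 else 0) * (A 0 p.1 p.2 + A 1 p.1 p.2 + A 2 p.1 p.2) :=
    (continuousAt_fst.eventually h).mono fun p hp => (hp i p.2).2
  have hA : ∀ k, k ≠ j → ContDiffAt ℝ ∞ (fun p : Co 5 × Co 5 => A k p.1 p.2) (x, v) :=
    fun k hk => contDiffAt_A (lt_trans (by norm_num) (ho k hk)) v
  by_cases hij : i = j
  · subst hij
    have h3 : ∀ᶠ p : Co 5 × Co 5 in 𝓝 (x, v), om i p.1 p.2 = -(A (i + 1) p.1 p.2
        + A (i + 2) p.1 p.2) := by
      filter_upwards [h'] with p hp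
      rw [hp, if_pos rfl, one_mul]
      fin_cases i <;> simp <;> ring
    refine ContDiffAt.congr_of_eventuallyEq ?_ h3
    exact ((hA (i + 1) (by fin_cases i <;> decide)).add (hA (i + 2) (by fin_cases i <;> decide))).neg
  · have h3 : ∀ᶠ p : Co 5 × Co 5 in 𝓝 (x, v), om i p.1 p.2 = A i p.1 p.2 := by
      filter_upwards [h'] with p hp
      rw [hp, if_neg hij, zero_mul, sub_zero]
    exact ContDiffAt.congr_of_eventuallyEq (hA i hij) h3

/-- the region where the one-sided forms are regular -/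
def Reg (x : Co 5) : Prop := x ≠ 0 ∧ (∀ k, s k x < 9 / 10) ∧ (100 * Q x) ^ 2 < 3

theorem Reg.cases {x : Co 5} (h : Reg x) : ((∀ k, 1 / 25 ≤ s k x) ∧ Pi x ≠ 0) ∨
    ∃ j, s j x < 1 / 25 ∧ ∀ i, i ≠ j → 1 / 20 < s i x := by
  by_cases h1 : ∀ k, 1 / 25 ≤ s k x
  · exact Or.inl ⟨h1, Pi_ne h.1 h1 h.2.2⟩
  · push Not at h1
    obtain ⟨j, hj⟩ := h1
    refine Or.inr ⟨j, hj, fun i hij => ?_⟩
    have hs := sum_s h.1
    have h0 := h.2.1 0
    have h1 := h.2.1 1
    have h2 := h.2.1 2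
    fin_cases j <;> fin_cases i <;> simp_all <;> linarith

theorem Reg.contDiffAt_om {x : Co 5} (h : Reg x) (j : Fin 3) (v : Co 5) :
    ContDiffAt ℝ ∞ (fun p : Co 5 × Co 5 => om j p.1 p.2) (x, v) := by
  rcases h.cases with ⟨h1, h2⟩ | ⟨i, h1, h2⟩
  · exact contDiffAt_om_of_Pi h.1 (fun k => lt_of_lt_of_le (by norm_num) (h1 k)) h2 j v
  · exact contDiffAt_om_of_small h.1 i h1 h2 j v

theorem χT_zero_of_Q {x : Co 5} (h : 2 ≤ (100 * Q x) * (100 * Q x)) : χT x = 0 := by
  rw [χT, step_eq_one (by norm_num) h]; simp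

theorem χT_zero_of_s {x : Co 5} (k : Fin 3) (h : 22 / 25 ≤ s k x) : χT x = 0 := by
  have h1 := step_eq_one (a := 17 / 20) (b := 22 / 25) (by norm_num) h
  rw [χT]
  fin_cases k <;> simp at h1 <;> simp [h1]

theorem contDiffAt_b {x : Co 5} (hx : x ≠ 0) (j : Fin 3) (v : Co 5) :
    ContDiffAt ℝ ∞ (fun p : Co 5 × Co 5 => 2 / Real.pi * (χT p.1 * om j p.1 p.2)) (x, v) := by
  by_cases hr : Reg x
  · exact contDiffAt_const.mul ((Func.at1 func_χT hx v).mul (hr.contDiffAt_om j v))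
  · have hz : ∀ᶠ z in 𝓝 x, χT z = 0 := by
      by_cases h1 : ∀ k, s k x < 9 / 10
      · have h2 : 3 ≤ (100 * Q x) ^ 2 := by
          by_contra h; exact hr ⟨hx, h1, not_le.1 h⟩
        have hc : ContinuousAt (fun z => (100 * Q z) * (100 * Q z)) x := by
          have := (func_Q.diff hx).continuousAt
          fun_prop
        have h3 : ∀ᶠ z in 𝓝 x, 2 < (100 * Q z) * (100 * Q z) :=
          continuousAt_const.eventually_lt hc (by nlinarith)
        exact h3.mono fun z hz => χT_zero_of_Q hz.le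
      · push Not at h1
        obtain ⟨k, hk⟩ := h1
        have h3 : ∀ᶠ z in 𝓝 x, 22 / 25 < s k z :=
          continuousAt_const.eventually_lt ((func_s k).diff hx).continuousAt
            (lt_of_lt_of_le (by norm_num) hk)
        exact h3.mono fun z hz => χT_zero_of_s k hz.le
    have h4 : ∀ᶠ p : Co 5 × Co 5 in 𝓝 (x, v), 2 / Real.pi * (χT p.1 * om j p.1 p.2) = 0 :=
      (continuousAt_fst.eventually hz).mono fun p hp => by rw [hp, zero_mul, mul_zero]
    exact ContDiffAt.congr_of_eventuallyEq contDiffAt_const h4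

theorem contDiffAt_a {x : Co 5} (hx : x ≠ 0) (k : Fin 3) (v : Co 5) :
    ContDiffAt ℝ ∞ (fun p : Co 5 × Co 5 => 2 / Real.pi * (χA k p.1 * A k p.1 p.2)) (x, v) := by
  rcases lt_or_ge (s k x) (3 / 4) with h | h
  · have h3 : ∀ᶠ z in 𝓝 x, s k z < 3 / 4 :=
      ((func_s k).diff hx).continuousAt.eventually_lt continuousAt_const h
    have h4 : ∀ᶠ p : Co 5 × Co 5 in 𝓝 (x, v), 2 / Real.pi * (χA k p.1 * A k p.1 p.2) = 0 :=
      (continuousAt_fst.eventually h3).mono fun p hp => by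
        rw [χA, step_eq_zero (by norm_num) hp.le, zero_mul, mul_zero]
    exact ContDiffAt.congr_of_eventuallyEq contDiffAt_const h4
  · exact contDiffAt_const.mul ((Func.at1 (func_χA k) hx v).mul
      (contDiffAt_A (lt_of_lt_of_le (by norm_num) h) v))

/-- the angular forms -/
noncomputable def aA (k : Fin 3) : AForm 5 where
  f := fun x v => 2 / Real.pi * (χA k x * A k x v)
  smooth := fun p hp => (contDiffAt_a hp k p.2).contDiffWithinAt
  add := fun x v w => by rw [A_add]; ring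
  smul := fun x v r => by rw [A_smul]; ring
  inv := fun x v c a hx hc => by rw [A_inv k x v hc, Func.one_inv (func_χA k) hx hc]

/-- the one-sided forms -/
noncomputable def bT (j : Fin 3) : AForm 5 where
  f := fun x v => 2 / Real.pi * (χT x * om j x v)
  smooth := fun p hp => (contDiffAt_b hp j p.2).contDiffWithinAt
  add := fun x v w => by rw [om_add]; ring
  smul := fun x v r => by rw [om_smul]; ring
  inv := fun x v c a hx hc => by rw [om_inv j hx v hc, Func.one_inv func_χT hx hc]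

theorem inv_bT : Inv bT := fun j x v c a hx hc => by
  simp only [bT]
  rw [om_inv j hx v hc, Func.one_inv func_χT hx hc]

/-- the symmetric forms -/
noncomputable def aF : (Fin 2 ⊕ Fin 3) ⊕ (Fin 3 ⊕ Unit) → AForm 5
  | Sum.inl (Sum.inl i) => AForm.ofFun (y i.castSucc) (by simp) (func_y _)
  | Sum.inl (Sum.inr k) => AForm.ofFun (h k) (by simp) (func_h k)
  | Sum.inr (Sum.inl k) => aA k
  | Sum.inr (Sum.inr _) => AForm.ofFun X (by simp) func_X

end Pool.Agent.H785.RP.Ex
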