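import Pool.Agent.H785.RP.Ang2
import Pool.Agent.H785.RP.Strong

/-!
# The lower bound for the lengths of the non-contractible curves
-/

open Set Filter MeasureTheory
open scoped ContDiff Topology ComplexConjugate

namespace Pool.Agent.H785.RP

section general
variable {n : ℕ} {γ : ℝ → Co n} (hγ : IsNoncontractible γ)
include hγ

theorem IsNoncontractible.hasDerivAt (t : ℝ) : HasDerivAt γ (deriv γ t) t :=
  (hγ.contDiff.differentiable (by norm_num) t).hasDerivAt

theorem IsNoncontractible.continuous_form (α : AForm n) :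
    Continuous fun t => α.f (γ t) (deriv γ t) :=
  ContinuousOn.comp_continuous (g := fun p : Co n × Co n => α.f p.1 p.2)
    (f := fun t => ((γ t, deriv γ t) : Co n × Co n)) (s := {p | p.1 ≠ 0})
    α.smooth.continuousOn (hγ.contDiff.continuous.prodMk (hγ.contDiff.continuous_deriv le_rfl))
    fun t => hγ.ne_zero t

variable {ι κ : Type} [Fintype ι] [Fintype κ] (a : ι → AForm n) (b : κ → AForm n)

theorem continuous_metric_curve {ε : ℝ} {m : ℕ} (hm : m ≠ 0) :
    Continuous fun t => metric a b ε m (γ t) (deriv γ t) :=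
  ContinuousOn.comp_continuous (g := fun p : Co n × Co n => metric a b ε m p.1 p.2)
    (f := fun t => ((γ t, deriv γ t) : Co n × Co n)) (s := {p | p.1 ≠ 0})
    (continuousOn_metric a b hm)
    (hγ.contDiff.continuous.prodMk (hγ.contDiff.continuous_deriv le_rfl))
    fun t => hγ.ne_zero t

theorem length_ge_abs (hb : Inv b) {ε : ℝ} (hε : 0 < ε) {m : ℕ} (hm : m ≠ 0) (i : ι) :
    ∫ t in (0 : ℝ)..1, |(a i).f (γ t) (deriv γ t)| ≤ (finsler a b hb ε hε m hm).length γ := by
  rw [Finsler.length]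
  simp only [finsler_toFun]
  exact intervalIntegral.integral_mono_on zero_le_one
    ((hγ.continuous_form (a i)).abs.intervalIntegrable 0 1)
    ((continuous_metric_curve hγ a b hm).intervalIntegrable 0 1)
    fun t _ => abs_le_metric a b hε.le hm i _ _

theorem length_ge (hb : Inv b) {ε : ℝ} (hε : 0 < ε) {m : ℕ} (hm : m ≠ 0) (j : κ) :
    ∫ t in (0 : ℝ)..1, (b j).f (γ t) (deriv γ t) ≤ (finsler a b hb ε hε m hm).length γ := by
  rw [Finsler.length]
  simp only [finsler_toFun]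
  exact intervalIntegral.integral_mono_on zero_le_one
    ((hγ.continuous_form (b j)).intervalIntegrable 0 1)
    ((continuous_metric_curve hγ a b hm).intervalIntegrable 0 1)
    fun t _ => le_metric a b hε.le hm j _ _

omit [Fintype ι] [Fintype κ] in
theorem IsNoncontractible.hasDerivAt_fun {f : Co n → ℝ} {σ : ℝ} (hσ : |σ| = 1) (hf : Func f σ)
    (t : ℝ) : HasDerivAt (fun t => f (γ t)) ((AForm.ofFun f hσ hf).f (γ t) (deriv γ t)) t :=
  ((hf.diff (hγ.ne_zero t)).hasFDerivAt).comp_hasDerivAt t (hγ.hasDerivAt t)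

end general

namespace Ex

theorem h_one {k : Fin 3} {x : Co 5} (hx : 17 / 20 ≤ s k x) : h k x = 1 :=
  step_eq_one (by norm_num) hx

theorem h_zero {k : Fin 3} {x : Co 5} (hx : s k x ≤ 4 / 5) : h k x = 0 :=
  step_eq_zero (by norm_num) hx

theorem y_one {k : Fin 3} {x : Co 5} (hx : 12 / 25 ≤ s k x) : y k x = 1 :=
  step_eq_one (by norm_num) hx

theorem y_zero {k : Fin 3} {x : Co 5} (hx : s k x ≤ 1 / 4) : y k x = 0 :=
  step_eq_zero (by norm_num) hx

theorem χA_one {k : Fin 3} {x : Co 5} (hx : 4 / 5 ≤ s k x) : χA k x = 1 :=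
  step_eq_one (by norm_num) hx

theorem χT_one {x : Co 5} (h1 : |100 * Q x| < 1) (h2 : ∀ k, s k x < 17 / 20) : χT x = 1 := by
  rw [χT, step_eq_zero (by norm_num) (h2 0).le, step_eq_zero (by norm_num) (h2 1).le,
    step_eq_zero (by norm_num) (h2 2).le, step_eq_zero (a := 1) (b := 2) (by norm_num)]
  · norm_num
  · rw [← pow_two, ← sq_abs]
    nlinarith [abs_nonneg (100 * Q x)]

variable {γ : ℝ → Co 5} (hγ : IsNoncontractible γ) {ε : ℝ} (hε : 0 < ε) {m : ℕ} (hm : m ≠ 0)
include hγ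

/-- a curve along which `s k` stays large -/
theorem length_big (k : Fin 3) (hk : ∀ t ∈ Icc (0 : ℝ) 1, 4 / 5 < s k (γ t)) :
    2 ≤ (finsler aF bT inv_bT ε hε m hm).length γ := by
  obtain ⟨c, hc, hc1⟩ := hγ.closed
  have hpos : ∀ t ∈ Icc (0 : ℝ) 1, 0 < s k (γ t) := fun t ht => lt_trans (by norm_num) (hk t ht)
  set g : ℝ → ℝ := fun t => Real.pi / 2 * (aA k).f (γ t) (deriv γ t) with hg
  have hgc : Continuous g := continuous_const.mul (hγ.continuous_form (aA k))
  have hg1 : ∀ t ∈ Icc (0 : ℝ) 1, g t = A k (γ t) (deriv γ t) := by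
    intro t ht
    simp only [hg, aA]
    rw [χA_one (hk t ht).le]
    field_simp
  have hE : ∀ t ∈ Icc (0 : ℝ) 1, HasDerivAt (fun t => U k (γ t))
      (2 * Complex.I * g t * U k (γ t)) t := by
    intro t ht
    rw [hg1 t ht]
    exact hasDerivAt_U' k (hγ.hasDerivAt t) (hpos t ht)
  have h0 : (0 : ℝ) ∈ Icc (0 : ℝ) 1 := ⟨le_rfl, zero_le_one⟩
  have hE0 : ‖U k (γ 0)‖ = 1 := norm_U' (hpos 0 h0)
  have hE1 : U k (γ 1) = U k (γ 0) := by rw [hc1, U_smul k _ hc.ne]
  obtain ⟨N, hN⟩ := lift_int (E := fun t => U k (γ t)) hgc hE hE0 hE1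
  have hZc : Continuous fun t => Z k (γ t) :=
    continuous_iff_continuousAt.2 fun t => (hasDerivAt_Z k (hγ.hasDerivAt t)).continuousAt
  have hN0 : N ≠ 0 := by
    rintro rfl
    obtain ⟨t, ht, h⟩ := lift_zero (E := fun t => U k (γ t)) (Z := fun t => Z k (γ t)) hgc hE hE0
      hZc.continuousOn hc (by simp only [hc1, Z_smul]) (by rw [hN]; simp)
    simp only [U] at h
    have hz := Z_ne (hpos t ht)
    rw [conj_U_mul_sq hz] at h
    have h2 : ‖Z k (γ t)‖ ^ 2 = -(‖Z k (γ t)‖ ^ 2) := by exact_mod_cast h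
    have h3 : 0 < ‖Z k (γ t)‖ := norm_pos_iff.2 hz
    nlinarith
  have h1 : (1 : ℝ) ≤ |(N : ℝ)| := by
    rw [← Int.cast_abs]; exact_mod_cast Int.one_le_abs hN0
  have h2 : ∫ t in (0 : ℝ)..1, (aA k).f (γ t) (deriv γ t) = 2 * N := by
    have : ∫ t in (0 : ℝ)..1, g t = Real.pi / 2 * ∫ t in (0 : ℝ)..1, (aA k).f (γ t) (deriv γ t) := by
      simp only [hg]; rw [intervalIntegral.integral_const_mul]
    rw [hN] at this
    have hpi := Real.pi_pos
    field_simp at this
    linarith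
  have h3 : |∫ t in (0 : ℝ)..1, (aA k).f (γ t) (deriv γ t)|
      ≤ ∫ t in (0 : ℝ)..1, |(aA k).f (γ t) (deriv γ t)| :=
    intervalIntegral.abs_integral_le_integral_abs zero_le_one
  rw [h2, abs_mul, abs_two] at h3
  have h4 := length_ge_abs hγ aF bT inv_bT hε hm (Sum.inr (Sum.inl k))
  have h5 : aF (Sum.inr (Sum.inl k)) = aA k := rfl
  rw [h5] at h4
  linarith

theorem two_le_length : 2 ≤ (finsler aF bT inv_bT ε hε m hm).length γ := by
  by_contra hlen
  rw [not_le] at hlen
  obtain ⟨c, hc, hc1⟩ := hγ.closed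
  have hx0 := hγ.ne_zero 0
  -- step 1
  have H1 : ∀ t ∈ Icc (0 : ℝ) 1, |100 * Q (γ t)| < 1 := by
    intro t ht
    by_contra h
    rw [not_lt] at h
    have h1 : |X (γ t)| = 1 := abs_odd_eq_one h
    have h2 := var_odd (f := fun t => X (γ t)) (hγ.hasDerivAt_fun (by simp) func_X)
      (hγ.continuous_form _) (by
        simp only [hc1]
        rw [func_X.eq hx0 hc.ne, if_neg (not_lt.2 hc.le)]; ring) ht
    have h3 := length_ge_abs hγ aF bT inv_bT hε hm (Sum.inr (Sum.inr ()))
    simp only [h1] at h2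
    simp only [aF] at h3
    linarith
  have closed : ∀ {f : Co 5 → ℝ} (hf : Func f 1), f (γ 1) = f (γ 0) := fun {f} hf => by
    rw [hc1, hf.eq hx0 hc.ne]; simp
  -- step 2
  have H2 : ∀ t ∈ Icc (0 : ℝ) 1, ∀ k, s k (γ t) < 17 / 20 := by
    intro t ht k
    by_contra h
    rw [not_lt] at h
    by_cases hk : ∀ t ∈ Icc (0 : ℝ) 1, 4 / 5 < s k (γ t)
    · exact absurd (length_big hγ hε hm k hk) (not_le.2 hlen)
    · push Not at hk
      obtain ⟨u, hu, hu2⟩ := hk
      have h2 := var_closed (f := fun t => Ex.h k (γ t)) (hγ.hasDerivAt_fun (by simp) (func_h k))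
        (hγ.continuous_form _) (closed (func_h k)) ht hu
      have h3 := length_ge_abs hγ aF bT inv_bT hε hm (Sum.inl (Sum.inr k))
      simp only [h_one h, h_zero hu2] at h2
      simp only [aF] at h3
      norm_num at h2
      linarith
  have hReg : ∀ t ∈ Icc (0 : ℝ) 1, Reg (γ t) := fun t ht =>
    ⟨hγ.ne_zero t, fun k => (H2 t ht k).trans (by norm_num), by
      have := H1 t ht
      rw [← sq_abs]
      nlinarith [abs_nonneg (100 * Q (γ t))]⟩
  set g : Fin 3 → ℝ → ℝ := fun j t => Real.pi / 2 * (bT j).f (γ t) (deriv γ t) with hg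
  have hgc : ∀ j, Continuous (g j) := fun j => continuous_const.mul (hγ.continuous_form (bT j))
  have hg1 : ∀ j, ∀ t ∈ Icc (0 : ℝ) 1, g j t = om j (γ t) (deriv γ t) := by
    intro j t ht
    simp only [hg, bT]
    rw [χT_one (H1 t ht) (H2 t ht)]
    field_simp
  have hE : ∀ j, ∀ t ∈ Icc (0 : ℝ) 1, HasDerivAt (fun t => EE j (γ t))
      (2 * Complex.I * g j t * EE j (γ t)) t := by
    intro j t ht
    rw [hg1 j t ht]
    exact hasDerivAt_EE j (hγ.hasDerivAt t) (hReg t ht)
  have h0 : (0 : ℝ) ∈ Icc (0 : ℝ) 1 := ⟨le_rfl, zero_le_one⟩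
  have hE0 : ∀ j, ‖EE j (γ 0)‖ = 1 := fun j => norm_EE j (hReg 0 h0)
  have hE1 : ∀ j, EE j (γ 1) = EE j (γ 0) := fun j => by rw [hc1, EE_smul j hx0 hc.ne]
  have hN : ∀ j, ∃ N : ℤ, ∫ u in (0 : ℝ)..1, g j u = N * Real.pi := fun j =>
    lift_int (E := fun t => EE j (γ t)) (hgc j) (hE j) (hE0 j) (hE1 j)
  choose N hN using hN
  have hpi := Real.pi_pos
  have hNle : ∀ j, N j ≤ 0 := by
    intro j
    have h1 := length_ge hγ aF bT inv_bT hε hm j
    have h2 : ∫ t in (0 : ℝ)..1, (bT j).f (γ t) (deriv γ t) = 2 * N j := by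
      have : ∫ t in (0 : ℝ)..1, g j t
          = Real.pi / 2 * ∫ t in (0 : ℝ)..1, (bT j).f (γ t) (deriv γ t) := by
        simp only [hg]; rw [intervalIntegral.integral_const_mul]
      rw [hN j] at this
      field_simp at this
      linarith
    rw [h2] at h1
    have h3 : (N j : ℝ) < 1 := by linarith
    have h4 : N j < 1 := by exact_mod_cast h3
    omega
  have hsum : N 0 + N 1 + N 2 = 0 := by
    have h1 : ∫ t in (0 : ℝ)..1, (g 0 t + g 1 t + g 2 t) = 0 := by
      have : ∫ t in (0 : ℝ)..1, (g 0 t + g 1 t + g 2 t) = ∫ t in (0 : ℝ)..1, (0 : ℝ) := by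
        refine intervalIntegral.integral_congr fun t ht => ?_
        rw [uIcc_of_le zero_le_one] at ht
        simp only [hg1 _ t ht]
        exact om_sum (hγ.ne_zero t) _
      rw [this]; simp
    rw [intervalIntegral.integral_add (f := fun t => g 0 t + g 1 t) (g := fun t => g 2 t)
      (((hgc 0).add (hgc 1)).intervalIntegrable 0 1)
      ((hgc 2).intervalIntegrable 0 1), intervalIntegral.integral_add (f := fun t => g 0 t)
      (g := fun t => g 1 t)
      ((hgc 0).intervalIntegrable 0 1) ((hgc 1).intervalIntegrable 0 1), hN, hN, hN] at h1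
    have h2 : ((N 0 + N 1 + N 2 : ℤ) : ℝ) * Real.pi = 0 := by push_cast; linarith
    have h3 := (mul_eq_zero.1 h2).resolve_right hpi.ne'
    exact_mod_cast h3
  have hN0 : ∀ j, N j = 0 := by
    have h0 := hNle 0
    have h1 := hNle 1
    have h2 := hNle 2
    intro j
    fin_cases j <;> simp <;> omega
  have hZc : ∀ j, Continuous fun t => Z j (γ t) := fun j =>
    continuous_iff_continuousAt.2 fun t => (hasDerivAt_Z j (hγ.hasDerivAt t)).continuousAt
  have hzero : ∀ j, ∃ t ∈ Icc (0 : ℝ) 1, s j (γ t) < 1 / 25 := by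
    intro j
    obtain ⟨t, ht, h⟩ := lift_zero (E := fun t => EE j (γ t)) (Z := fun t => Z j (γ t)) (hgc j)
      (hE j) (hE0 j) (hZc j).continuousOn hc (by simp only [hc1, Z_smul])
      (by rw [hN j, hN0 j]; simp)
    refine ⟨t, ht, ?_⟩
    by_contra hs
    exact EE_ne j (hReg t ht) (not_lt.1 hs) h
  obtain ⟨t₂, ht₂, h2⟩ := hzero 2
  have hs := sum_s (hγ.ne_zero t₂)
  have fin : ∀ i : Fin 2, ¬ (12 / 25 ≤ s i.castSucc (γ t₂)) := by
    intro i hi
    obtain ⟨t₁, ht₁, h1⟩ := hzero i.castSucc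
    have h2 := var_closed (f := fun t => y i.castSucc (γ t))
      (hγ.hasDerivAt_fun (by simp) (func_y i.castSucc))
      (hγ.continuous_form _) (closed (func_y _)) ht₂ ht₁
    have h3 := length_ge_abs hγ aF bT inv_bT hε hm (Sum.inl (Sum.inl i))
    simp only [y_one hi, y_zero (h1.le.trans (by norm_num))] at h2
    simp only [aF] at h3
    norm_num at h2
    linarith
  have f0 := fin 0
  have f1 := fin 1
  simp only [Fin.castSucc_zero, Fin.castSucc_one] at f0 f1
  rw [not_le] at f0 f1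
  linarith

end Ex

end Pool.Agent.H785.RP
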