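import Pool.Agent.H785.RP.VolFin
import Pool.Agent.H785.RP.Len
import Pool.Agent.H785.RP.Approx

/-!
# The counterexample
-/

open MeasureTheory Set Filter
open scoped ContDiff ENNReal Nat Topology

namespace Pool.Agent.H785.RP

theorem ballVolume_pos (n : ℕ) : 0 < (ballVolume n).toReal := by
  refine ENNReal.toReal_pos ?_ ?_
  · exact (Metric.measure_ball_pos _ _ one_pos).ne'
  · exact measure_ball_lt_top.ne

theorem ballVolume_ne_zero (n : ℕ) : ballVolume n ≠ 0 := (Metric.measure_ball_pos _ _ one_pos).ne'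

theorem htVolume_lt_top {n : ℕ} (F : Finsler n)
    (h : ∫⁻ y : Fin n → ℝ, volume (F.polarBody y) < ⊤) : F.htVolume < ⊤ := by
  rw [Finsler.htVolume]
  exact ENNReal.mul_lt_top (ENNReal.inv_lt_top.2 (pos_iff_ne_zero.2 (ballVolume_ne_zero n))) h

theorem sigma_mul {n : ℕ} (hn : 0 < n) (F : Finsler n) :
    sigma n * F.htVolume.toReal ^ ((1 : ℝ) / n)
      = ((n ! : ℝ) * (∫⁻ y : Fin n → ℝ, volume (F.polarBody y)).toReal) ^ ((1 : ℝ) / n) / 2 := by
  have hb := ballVolume_pos n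
  rw [sigma, Finsler.htVolume, ENNReal.toReal_mul, ENNReal.toReal_inv, div_mul_eq_mul_div,
    ← Real.mul_rpow (by positivity) (by positivity)]
  congr 2
  field_simp

theorem sigma_mul_lt {n : ℕ} (hn : 0 < n) (F : Finsler n)
    (h : ∫⁻ y : Fin n → ℝ, volume (F.polarBody y) < ENNReal.ofReal (4 ^ n / n !)) :
    sigma n * F.htVolume.toReal ^ ((1 : ℝ) / n) < 2 := by
  have hn' : (0 : ℝ) < n := by exact_mod_cast hn
  rw [sigma_mul hn F]
  have h1 : (∫⁻ y : Fin n → ℝ, volume (F.polarBody y)).toReal < 4 ^ n / n ! := by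
    have := (ENNReal.toReal_lt_toReal (h.trans_le le_top).ne ENNReal.ofReal_ne_top).2 h
    rwa [ENNReal.toReal_ofReal (by positivity)] at this
  have hf : (0 : ℝ) < n ! := by exact_mod_cast Nat.factorial_pos n
  have h2 : (n ! : ℝ) * (∫⁻ y : Fin n → ℝ, volume (F.polarBody y)).toReal < 4 ^ n := by
    rw [lt_div_iff₀ hf] at h1; linarith
  have h3 : ((n ! : ℝ) * (∫⁻ y : Fin n → ℝ, volume (F.polarBody y)).toReal) ^ ((1 : ℝ) / n)
      < ((4 : ℝ) ^ n) ^ ((1 : ℝ) / n) :=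
    Real.rpow_lt_rpow (by positivity) h2 (by positivity)
  have h4 : ((4 : ℝ) ^ n) ^ ((1 : ℝ) / n) = 4 := by
    rw [one_div, Real.pow_rpow_inv_natCast (by norm_num) hn.ne']
  rw [h4] at h3
  linarith

theorem main_five : ∃ F : Finsler 5, F.htVolume < ⊤ ∧ ∀ γ : ℝ → Co 5, IsNoncontractible γ →
    sigma 5 * F.htVolume.toReal ^ ((1 : ℝ) / (5 : ℕ)) < F.length γ := by
  obtain ⟨ε, hε, m, hm, h⟩ := exists_volume_lt Ex.aF Ex.bT (n := 5) (by norm_num) Ex.inv_bT
    (K := ENNReal.ofReal (4 ^ 5 / (5 !))) (lt_of_le_of_lt Ex.lintegral_V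
      ((ENNReal.ofReal_lt_ofReal_iff (by positivity)).2 (by norm_num [Nat.factorial])))
  refine ⟨finsler Ex.aF Ex.bT Ex.inv_bT ε hε m hm, htVolume_lt_top _ (h.trans_le le_top),
    fun γ hγ => ?_⟩
  exact (sigma_mul_lt (by norm_num) _ h).trans_le (Ex.two_le_length hγ hε hm)

end Pool.Agent.H785.RP
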