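import Pool.Agent.H785.RP.Round

/-!
# Smooth Finsler metrics approximating the maximum of finitely many forms
-/

open MeasureTheory Set
open scoped ContDiff ENNReal Nat

namespace Pool.Agent.H785.RP

variable {n : ℕ}

/-- A smooth `1`-form on `RP^n`, well defined up to sign. -/
structure AForm (n : ℕ) where
  f : Co n → Co n → ℝ
  smooth : ContDiffOn ℝ ∞ (fun p : Co n × Co n => f p.1 p.2) {p | p.1 ≠ 0}
  add : ∀ x v w, f x (v + w) = f x v + f x w
  smul : ∀ x v (r : ℝ), f x (r • v) = r * f x v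
  inv : ∀ x v (c a : ℝ), x ≠ 0 → c ≠ 0 → |f (c • x) (c • v + a • x)| = |f x v|

/-- the smoothed absolute value -/
noncomputable def sab (α r : ℝ) : ℝ := √(α ^ 2 + r ^ 2)

theorem sab_nonneg (α r : ℝ) : 0 ≤ sab α r := Real.sqrt_nonneg _

theorem abs_le_sab (α r : ℝ) : |α| ≤ sab α r := by
  rw [sab, ← Real.sqrt_sq_eq_abs]
  exact Real.sqrt_le_sqrt (by nlinarith [sq_nonneg r])

theorem sab_le (α : ℝ) {r : ℝ} (hr : 0 ≤ r) : sab α r ≤ |α| + r := by
  rw [sab, Real.sqrt_le_left (by positivity)]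
  nlinarith [abs_nonneg α, sq_abs α]

theorem sab_add_le (α β : ℝ) {r r₁ r₂ : ℝ} (hr : 0 ≤ r) (h : r ≤ r₁ + r₂) :
    sab (α + β) r ≤ sab α r₁ + sab β r₂ := by
  have e : ∀ x y : ℝ, sab x y = ‖(x : ℂ) + y * Complex.I‖ := fun x y => by
    rw [Complex.norm_add_mul_I, sab]
  have h1 : sab (α + β) r ≤ sab (α + β) (r₁ + r₂) :=
    Real.sqrt_le_sqrt (by nlinarith)
  refine h1.trans ?_
  rw [e, e, e]
  calc ‖((α + β : ℝ) : ℂ) + ((r₁ + r₂ : ℝ) : ℂ) * Complex.I‖
      = ‖((α : ℂ) + r₁ * Complex.I) + ((β : ℂ) + r₂ * Complex.I)‖ := by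
        congr 1; push_cast; ring
    _ ≤ _ := norm_add_le _ _

theorem sab_mul (α r : ℝ) {c : ℝ} (hc : 0 ≤ c) : sab (c * α) (c * r) = c * sab α r := by
  rw [sab, sab, show (c * α) ^ 2 + (c * r) ^ 2 = c ^ 2 * (α ^ 2 + r ^ 2) by ring,
    Real.sqrt_mul (sq_nonneg c), Real.sqrt_sq hc]

section
variable {ι κ : Type} [Fintype ι] [Fintype κ]

/-- the terms of the metric -/
noncomputable def term (a : ι → AForm n) (b : κ → AForm n) (ε : ℝ) :
    Option (ι ⊕ κ) → Co n → Co n → ℝ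
  | none, x, v => ε * rnd x v
  | some (Sum.inl i), x, v => sab ((a i).f x v) (ε * rnd x v)
  | some (Sum.inr j), x, v => (sab ((b j).f x v) (ε * rnd x v) + (b j).f x v) / 2

variable (a : ι → AForm n) (b : κ → AForm n) {ε : ℝ}

theorem term_nonneg (hε : 0 ≤ ε) (k : Option (ι ⊕ κ)) (x v : Co n) : 0 ≤ term a b ε k x v := by
  match k with
  | none => exact mul_nonneg hε (rnd_nonneg x v)
  | some (Sum.inl i) => exact sab_nonneg _ _
  | some (Sum.inr j) =>
    have := (neg_abs_le ((b j).f x v)).trans (le_refl _)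
    have h2 := abs_le_sab ((b j).f x v) (ε * rnd x v)
    simp only [term]
    linarith

theorem term_add_le (hε : 0 ≤ ε) (k : Option (ι ⊕ κ)) {x : Co n} (hx : x ≠ 0) (v w : Co n) :
    term a b ε k x (v + w) ≤ term a b ε k x v + term a b ε k x w := by
  have hr : ε * rnd x (v + w) ≤ ε * rnd x v + ε * rnd x w := by
    rw [← mul_add]; exact mul_le_mul_of_nonneg_left (rnd_add_le hx v w) hε
  have h0 : 0 ≤ ε * rnd x (v + w) := mul_nonneg hε (rnd_nonneg _ _)
  match k with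
  | none => exact hr
  | some (Sum.inl i) =>
    simp only [term, (a i).add]
    exact sab_add_le _ _ h0 hr
  | some (Sum.inr j) =>
    simp only [term, (b j).add]
    have := sab_add_le ((b j).f x v) ((b j).f x w) h0 hr
    linarith

theorem term_smul (k : Option (ι ⊕ κ)) (x v : Co n) {r : ℝ} (hr : 0 ≤ r) :
    term a b ε k x (r • v) = r * term a b ε k x v := by
  have e : ε * (r * rnd x v) = r * (ε * rnd x v) := by ring
  match k with
  | none => simp only [term, rnd_smul, abs_of_nonneg hr]; ring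
  | some (Sum.inl i) =>
    simp only [term, rnd_smul, abs_of_nonneg hr, (a i).smul, e, sab_mul _ _ hr]
  | some (Sum.inr j) =>
    simp only [term, rnd_smul, abs_of_nonneg hr, (b j).smul, e, sab_mul _ _ hr]; ring

/-- the invariance assumption on the one-sided forms -/
def Inv (b : κ → AForm n) : Prop :=
  ∀ j x v (c a : ℝ), x ≠ 0 → c ≠ 0 → (b j).f (c • x) (c • v + a • x) = (b j).f x v

theorem term_invariant (hb : Inv b) (k : Option (ι ⊕ κ)) {x : Co n} (hx : x ≠ 0) (v : Co n)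
    {c : ℝ} (hc : c ≠ 0) (α : ℝ) :
    term a b ε k (c • x) (c • v + α • x) = term a b ε k x v := by
  match k with
  | none => simp only [term, rnd_invariant hx v hc]
  | some (Sum.inl i) =>
    simp only [term, rnd_invariant hx v hc]
    rw [sab, sab, ← sq_abs, (a i).inv x v c α hx hc, sq_abs]
  | some (Sum.inr j) =>
    simp only [term, rnd_invariant hx v hc, hb j x v c α hx hc]

theorem contDiffOn_term (hε : 0 < ε) (k : Option (ι ⊕ κ)) :
    ContDiffOn ℝ ∞ (fun p : Co n × Co n => term a b ε k p.1 p.2) (nonzeroTangent n) := by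
  have hsub : nonzeroTangent n ⊆ {p | p.1 ≠ 0} := fun p hp => hp.1
  have hr : ContDiffOn ℝ ∞ (fun p : Co n × Co n => ε * rnd p.1 p.2) (nonzeroTangent n) :=
    contDiffOn_const.mul contDiffOn_rnd
  have key : ∀ g : Co n × Co n → ℝ, ContDiffOn ℝ ∞ g {p | p.1 ≠ 0} →
      ContDiffOn ℝ ∞ (fun p : Co n × Co n => sab (g p) (ε * rnd p.1 p.2)) (nonzeroTangent n) := by
    intro g hg
    unfold sab
    refine ContDiffOn.sqrt (((hg.mono hsub).pow 2).add (hr.pow 2)) fun p hp => ?_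
    have : 0 < ε * rnd p.1 p.2 := mul_pos hε (rnd_pos hp.1 hp.2)
    positivity
  match k with
  | none => exact hr
  | some (Sum.inl i) => exact key _ (a i).smooth
  | some (Sum.inr j) =>
    exact ((key _ (b j).smooth).add ((b j).smooth.mono hsub)).div_const 2

theorem continuousOn_term (k : Option (ι ⊕ κ)) :
    ContinuousOn (fun p : Co n × Co n => term a b ε k p.1 p.2) {p | p.1 ≠ 0} := by
  have hr : ContinuousOn (fun p : Co n × Co n => ε * rnd p.1 p.2) {p | p.1 ≠ 0} :=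
    continuousOn_const.mul continuousOn_rnd
  have key : ∀ g : Co n × Co n → ℝ, ContDiffOn ℝ ∞ g {p | p.1 ≠ 0} →
      ContinuousOn (fun p : Co n × Co n => sab (g p) (ε * rnd p.1 p.2)) {p | p.1 ≠ 0} := by
    intro g hg
    unfold sab
    exact ((hg.continuousOn.pow 2).add (hr.pow 2)).sqrt
  match k with
  | none => exact hr
  | some (Sum.inl i) => exact key _ (a i).smooth
  | some (Sum.inr j) =>
    exact ((key _ (b j).smooth).add (b j).smooth.continuousOn).div_const 2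

/-- the `ℓ^m` combination of the terms -/
noncomputable def pre (a : ι → AForm n) (b : κ → AForm n) (ε : ℝ) (m : ℕ) (x v : Co n) : ℝ :=
  (∑ k : Option (ι ⊕ κ), term a b ε k x v ^ m) ^ ((1 : ℝ) / m)

theorem sum_nonneg' (hε : 0 ≤ ε) (m : ℕ) (x v : Co n) :
    0 ≤ ∑ k : Option (ι ⊕ κ), term a b ε k x v ^ m :=
  Finset.sum_nonneg fun k _ => pow_nonneg (term_nonneg a b hε k x v) m

theorem pre_nonneg (hε : 0 ≤ ε) (m : ℕ) (x v : Co n) : 0 ≤ pre a b ε m x v :=
  Real.rpow_nonneg (sum_nonneg' a b hε m x v) _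

theorem term_le_pre (hε : 0 ≤ ε) {m : ℕ} (hm : m ≠ 0) (k : Option (ι ⊕ κ)) (x v : Co n) :
    term a b ε k x v ≤ pre a b ε m x v := by
  have h1 : term a b ε k x v ^ m ≤ ∑ k : Option (ι ⊕ κ), term a b ε k x v ^ m :=
    Finset.single_le_sum (f := fun k => term a b ε k x v ^ m)
      (fun k _ => pow_nonneg (term_nonneg a b hε k x v) m) (Finset.mem_univ k)
  have h2 := Real.rpow_le_rpow (pow_nonneg (term_nonneg a b hε k x v) m) h1
    (z := (1 : ℝ) / m) (by positivity)
  rw [one_div, Real.pow_rpow_inv_natCast (term_nonneg a b hε k x v) hm] at h2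
  rwa [pre, one_div]

theorem pre_le (hε : 0 ≤ ε) {m : ℕ} (hm : m ≠ 0) (x v : Co n) {M : ℝ} (hM : 0 ≤ M)
    (h : ∀ k, term a b ε k x v ≤ M) :
    pre a b ε m x v ≤ (Fintype.card (Option (ι ⊕ κ)) : ℝ) ^ ((1 : ℝ) / m) * M := by
  have h1 : ∑ k : Option (ι ⊕ κ), term a b ε k x v ^ m
      ≤ (Fintype.card (Option (ι ⊕ κ)) : ℝ) * M ^ m := by
    calc _ ≤ ∑ _k : Option (ι ⊕ κ), M ^ m := Finset.sum_le_sum fun k _ =>
          pow_le_pow_left₀ (term_nonneg a b hε k x v) (h k) m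
      _ = _ := by rw [Finset.sum_const, nsmul_eq_mul, Finset.card_univ]
  have h2 := Real.rpow_le_rpow (sum_nonneg' a b hε m x v) h1 (z := (1 : ℝ) / m) (by positivity)
  rw [Real.mul_rpow (by positivity) (by positivity)] at h2
  refine h2.trans_eq ?_
  congr 1
  rw [one_div, Real.pow_rpow_inv_natCast hM hm]

theorem pre_add_le (hε : 0 ≤ ε) {m : ℕ} (hm : 1 ≤ m) {x : Co n} (hx : x ≠ 0) (v w : Co n) :
    pre a b ε m x (v + w) ≤ pre a b ε m x v + pre a b ε m x w := by
  have hm' : (1 : ℝ) ≤ m := by exact_mod_cast hm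
  have h1 := Real.Lp_add_le_of_nonneg (Finset.univ : Finset (Option (ι ⊕ κ)))
    (f := fun k => term a b ε k x v) (g := fun k => term a b ε k x w) hm'
    (fun k _ => term_nonneg a b hε k x v) (fun k _ => term_nonneg a b hε k x w)
  simp only [Real.rpow_natCast] at h1
  refine le_trans ?_ h1
  refine Real.rpow_le_rpow (sum_nonneg' a b hε m x _) ?_ (by positivity)
  exact Finset.sum_le_sum fun k _ => pow_le_pow_left₀ (term_nonneg a b hε k x _)
    (term_add_le a b hε k hx v w) m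

theorem pre_smul (hε : 0 ≤ ε) {m : ℕ} (hm : m ≠ 0) (x v : Co n) {r : ℝ} (hr : 0 ≤ r) :
    pre a b ε m x (r • v) = r * pre a b ε m x v := by
  simp only [pre, term_smul a b _ x v hr, mul_pow, ← Finset.mul_sum]
  rw [Real.mul_rpow (by positivity) (sum_nonneg' a b hε m x v), one_div,
    Real.pow_rpow_inv_natCast hr hm]

theorem pre_invariant (hb : Inv b) (m : ℕ) {x : Co n} (hx : x ≠ 0) (v : Co n)
    {c : ℝ} (hc : c ≠ 0) (α : ℝ) :
    pre a b ε m (c • x) (c • v + α • x) = pre a b ε m x v := by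
  simp only [pre, term_invariant a b hb _ hx v hc]

theorem pre_pos (hε : 0 < ε) {m : ℕ} (hm : m ≠ 0) {x v : Co n} (hx : x ≠ 0)
    (hv : v ∉ Submodule.span ℝ {x}) : 0 < pre a b ε m x v :=
  lt_of_lt_of_le (mul_pos hε (rnd_pos hx hv)) (term_le_pre a b hε.le hm none x v)

theorem contDiffOn_pre (hε : 0 < ε) {m : ℕ} (_hm : m ≠ 0) :
    ContDiffOn ℝ ∞ (fun p : Co n × Co n => pre a b ε m p.1 p.2) (nonzeroTangent n) := by
  unfold pre
  refine ContDiffOn.rpow_const_of_ne (ContDiffOn.sum fun k _ =>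
    (contDiffOn_term a b hε k).pow m) fun p hp => ?_
  refine ne_of_gt (lt_of_lt_of_le (pow_pos (mul_pos hε (rnd_pos hp.1 hp.2)) m) ?_)
  exact Finset.single_le_sum (f := fun k => term a b ε k p.1 p.2 ^ m)
      (fun k _ => pow_nonneg (term_nonneg a b hε.le k p.1 p.2) m) (Finset.mem_univ none)

theorem continuousOn_pre {m : ℕ} (_hm : m ≠ 0) :
    ContinuousOn (fun p : Co n × Co n => pre a b ε m p.1 p.2) {p | p.1 ≠ 0} := by
  unfold pre
  exact ContinuousOn.rpow_const (continuousOn_finset_sum _ fun k _ =>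
    (continuousOn_term a b k).pow m) fun p _ => Or.inr (by positivity)

/-- the maximum of the forms -/
noncomputable def fmax (a : ι → AForm n) (b : κ → AForm n) (x v : Co n) : ℝ :=
  max ‖(fun i => (a i).f x v)‖ ‖(fun j => max ((b j).f x v) 0)‖

theorem fmax_nonneg (x v : Co n) : 0 ≤ fmax a b x v := le_max_of_le_left (norm_nonneg _)

theorem abs_le_fmax (i : ι) (x v : Co n) : |(a i).f x v| ≤ fmax a b x v :=
  le_max_of_le_left (norm_le_pi_norm (fun i => (a i).f x v) i)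

theorem le_fmax (j : κ) (x v : Co n) : (b j).f x v ≤ fmax a b x v :=
  le_max_of_le_right (((le_max_left _ _).trans (le_abs_self _)).trans
    (norm_le_pi_norm (fun j => max ((b j).f x v) 0) j))

theorem fmax_le {x v : Co n} {M : ℝ} (hM : 0 ≤ M) (h1 : ∀ i, |(a i).f x v| ≤ M)
    (h2 : ∀ j, (b j).f x v ≤ M) : fmax a b x v ≤ M := by
  refine max_le ((pi_norm_le_iff_of_nonneg hM).2 h1) ((pi_norm_le_iff_of_nonneg hM).2 fun j => ?_)
  rw [Real.norm_eq_abs, abs_of_nonneg (le_max_right _ _)]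
  exact max_le (h2 j) hM

theorem term_le_fmax (hε : 0 ≤ ε) (k : Option (ι ⊕ κ)) (x v : Co n) :
    term a b ε k x v ≤ fmax a b x v + ε * rnd x v := by
  have h0 := fmax_nonneg a b x v
  have hr : 0 ≤ ε * rnd x v := mul_nonneg hε (rnd_nonneg x v)
  match k with
  | none => simp only [term]; linarith
  | some (Sum.inl i) =>
    simp only [term]
    have := sab_le ((a i).f x v) hr
    have := abs_le_fmax a b i x v
    linarith
  | some (Sum.inr j) =>
    simp only [term]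
    have h3 := sab_le ((b j).f x v) hr
    have h4 := le_fmax a b j x v
    rcases le_total 0 ((b j).f x v) with h | h
    · rw [abs_of_nonneg h] at h3; linarith
    · rw [abs_of_nonpos h] at h3; linarith

theorem pre_le_fmax (hε : 0 ≤ ε) {m : ℕ} (hm : m ≠ 0) (x v : Co n) :
    pre a b ε m x v
      ≤ (Fintype.card (Option (ι ⊕ κ)) : ℝ) ^ ((1 : ℝ) / m) * (fmax a b x v + ε * rnd x v) :=
  pre_le a b hε hm x v (add_nonneg (fmax_nonneg a b x v) (mul_nonneg hε (rnd_nonneg x v)))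
    fun k => term_le_fmax a b hε k x v

theorem abs_le_pre (hε : 0 ≤ ε) {m : ℕ} (hm : m ≠ 0) (i : ι) (x v : Co n) :
    |(a i).f x v| ≤ pre a b ε m x v :=
  (abs_le_sab _ _).trans (term_le_pre a b hε hm (some (Sum.inl i)) x v)

theorem le_pre (hε : 0 ≤ ε) {m : ℕ} (hm : m ≠ 0) (j : κ) (x v : Co n) :
    (b j).f x v ≤ pre a b ε m x v := by
  have h := term_le_pre a b hε hm (some (Sum.inr j)) x v
  have h2 := abs_le_sab ((b j).f x v) (ε * rnd x v)
  have h3 := le_abs_self ((b j).f x v)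
  simp only [term] at h
  linarith

/-- the metric -/
noncomputable def metric (a : ι → AForm n) (b : κ → AForm n) (ε : ℝ) (m : ℕ) (x v : Co n) : ℝ :=
  √(pre a b ε m x v ^ 2 + (ε * rnd x v) ^ 2)

theorem metric_nonneg (m : ℕ) (x v : Co n) : 0 ≤ metric a b ε m x v := Real.sqrt_nonneg _

theorem metric_sq (m : ℕ) (x v : Co n) :
    metric a b ε m x v ^ 2 = pre a b ε m x v ^ 2 + (ε * rnd x v) ^ 2 :=
  Real.sq_sqrt (by positivity)

theorem pre_le_metric (m : ℕ) (x v : Co n) : pre a b ε m x v ≤ metric a b ε m x v :=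
  Real.le_sqrt_of_sq_le (by nlinarith [sq_nonneg (ε * rnd x v)])

theorem sqrt_add_le {p q p₁ q₁ p₂ q₂ : ℝ} (hp : 0 ≤ p) (hq : 0 ≤ q)
    (h1 : p ≤ p₁ + p₂) (h2 : q ≤ q₁ + q₂) :
    √(p ^ 2 + q ^ 2) ≤ √(p₁ ^ 2 + q₁ ^ 2) + √(p₂ ^ 2 + q₂ ^ 2) := by
  have h := sab_add_le p₁ p₂ hq h2
  refine le_trans ?_ h
  exact Real.sqrt_le_sqrt (by nlinarith)

theorem metric_add_le (hε : 0 ≤ ε) {m : ℕ} (hm : 1 ≤ m) {x : Co n} (hx : x ≠ 0) (v w : Co n) :
    metric a b ε m x (v + w) ≤ metric a b ε m x v + metric a b ε m x w := by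
  refine sqrt_add_le (pre_nonneg a b hε m x _) (mul_nonneg hε (rnd_nonneg _ _))
    (pre_add_le a b hε hm hx v w) ?_
  rw [← mul_add]; exact mul_le_mul_of_nonneg_left (rnd_add_le hx v w) hε

theorem metric_smul (hε : 0 ≤ ε) {m : ℕ} (hm : m ≠ 0) (x v : Co n) {r : ℝ} (hr : 0 ≤ r) :
    metric a b ε m x (r • v) = r * metric a b ε m x v := by
  rw [metric, pre_smul a b hε hm x v hr, rnd_smul, abs_of_nonneg hr,
    show (r * pre a b ε m x v) ^ 2 + (ε * (r * rnd x v)) ^ 2
      = r ^ 2 * (pre a b ε m x v ^ 2 + (ε * rnd x v) ^ 2) by ring,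
    Real.sqrt_mul (sq_nonneg r), Real.sqrt_sq hr, metric]

theorem metric_invariant (hb : Inv b) (m : ℕ) {x : Co n} (hx : x ≠ 0) (v : Co n)
    {c : ℝ} (hc : c ≠ 0) (α : ℝ) :
    metric a b ε m (c • x) (c • v + α • x) = metric a b ε m x v := by
  rw [metric, pre_invariant a b hb m hx v hc, rnd_invariant hx v hc, metric]

theorem metric_pos (hε : 0 < ε) (m : ℕ) {x v : Co n} (hx : x ≠ 0)
    (hv : v ∉ Submodule.span ℝ {x}) : 0 < metric a b ε m x v := by
  have := mul_pos hε (rnd_pos hx hv)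
  exact Real.sqrt_pos.2 (by positivity)

theorem contDiffOn_metric (hε : 0 < ε) {m : ℕ} (hm : m ≠ 0) :
    ContDiffOn ℝ ∞ (fun p : Co n × Co n => metric a b ε m p.1 p.2) (nonzeroTangent n) := by
  unfold metric
  refine ContDiffOn.sqrt (((contDiffOn_pre a b hε hm).pow 2).add
    ((contDiffOn_const.mul contDiffOn_rnd).pow 2)) fun p hp => ?_
  have := mul_pos hε (rnd_pos hp.1 hp.2)
  positivity

theorem continuousOn_metric {m : ℕ} (hm : m ≠ 0) :
    ContinuousOn (fun p : Co n × Co n => metric a b ε m p.1 p.2) {p | p.1 ≠ 0} := by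
  unfold metric
  exact (((continuousOn_pre a b hm).pow 2).add
    ((continuousOn_const.mul continuousOn_rnd).pow 2)).sqrt

theorem metric_le_fmax (hε : 0 ≤ ε) {m : ℕ} (hm : m ≠ 0) (x v : Co n) :
    metric a b ε m x v
      ≤ (Fintype.card (Option (ι ⊕ κ)) : ℝ) ^ ((1 : ℝ) / m)
        * (fmax a b x v + 2 * ε * rnd x v) := by
  have h1 := pre_le_fmax a b hε hm x v
  have h2 : metric a b ε m x v ≤ pre a b ε m x v + ε * rnd x v := by
    have h0 := pre_nonneg a b hε m x v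
    have h3 : 0 ≤ ε * rnd x v := mul_nonneg hε (rnd_nonneg x v)
    rw [metric, Real.sqrt_le_left (by positivity)]
    nlinarith [mul_nonneg h0 h3]
  have hN : (1 : ℝ) ≤ (Fintype.card (Option (ι ⊕ κ)) : ℝ) ^ ((1 : ℝ) / m) := by
    refine Real.one_le_rpow ?_ (by positivity)
    have : 0 < Fintype.card (Option (ι ⊕ κ)) := Fintype.card_pos
    exact_mod_cast this
  have h3 : 0 ≤ ε * rnd x v := mul_nonneg hε (rnd_nonneg x v)
  nlinarith

theorem abs_le_metric (hε : 0 ≤ ε) {m : ℕ} (hm : m ≠ 0) (i : ι) (x v : Co n) :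
    |(a i).f x v| ≤ metric a b ε m x v :=
  (abs_le_pre a b hε hm i x v).trans (pre_le_metric a b m x v)

theorem le_metric (hε : 0 ≤ ε) {m : ℕ} (hm : m ≠ 0) (j : κ) (x v : Co n) :
    (b j).f x v ≤ metric a b ε m x v :=
  (le_pre a b hε hm j x v).trans (pre_le_metric a b m x v)

end

end Pool.Agent.H785.RP
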