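import Pool.Agent.H785.RP.Null
import Pool.Agent.H785.RP.Ang

/-!
# The main region
-/

open MeasureTheory Set Filter
open scoped ContDiff ENNReal Topology

namespace Pool.Agent.H785.RP.Ex

theorem om_main {x : Co 5} (hx : x ≠ 0) (h0 : 1 / 4 < s 0 x) (h0' : s 0 x < 12 / 25)
    (h1 : 1 / 4 < s 1 x) (h1' : s 1 x < 12 / 25) (i : Fin 3) (v : Co 5) :
    om i x v = A i x v - (if i = 2 then 1 else 0) * (A 0 x v + A 1 x v + A 2 x v) := by
  have c : ∀ k, ContinuousAt (s k) x := fun k => ((func_s k).diff hx).continuousAt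
  have e1 : ∀ᶠ z in 𝓝 x, 1 / 4 < s 0 z := continuousAt_const.eventually_lt (c 0) h0
  have e2 : ∀ᶠ z in 𝓝 x, 1 / 4 < s 1 z := continuousAt_const.eventually_lt (c 1) h1
  have e3 : ∀ᶠ z in 𝓝 x, z ≠ 0 := isOpen_ne.mem_nhds hx
  have e4 : w i =ᶠ[𝓝 x] fun _ => if i = 2 then (1 : ℝ) else 0 := by
    filter_upwards [e1, e2, e3] with z hz1 hz2 hz3
    have a1 : lam (s 0 z) = 0 := lam_zero (by linarith)
    have a2 : lam (s 1 z) = 0 := lam_zero (by linarith)
    have a3 : nu (s 2 z) = 1 := nu_one (by have := sum_s hz3; linarith)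
    fin_cases i <;> simp [w, a1, a2, a3]
  have e5 : fderiv ℝ (w i) x = 0 := by rw [e4.fderiv_eq, fderiv_const_apply]
  have e6 : w i x = if i = 2 then 1 else 0 := e4.self_of_nhds
  rw [om, e5, e6]
  simp

/-- the components of the differential of the main chart -/
noncomputable def comp (z w : Fin 5 → ℝ) : Fin 5 → ℝ :=
  ![A 0 (aff z) (dir w) / Real.pi, A 1 (aff z) (dir w) / Real.pi, fderiv ℝ X (aff z) (dir w),
    fderiv ℝ (y 0) (aff z) (dir w), fderiv ℝ (y 1) (aff z) (dir w)]

theorem s_main {z : Fin 5 → ℝ} (hz : Main z) : ∀ k, 1 / 25 < s k (aff z) ∧ s k (aff z) < 1 / 2 := by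
  have hs := sum_s (aff_ne_zero z)
  obtain ⟨⟨h0, h0'⟩, ⟨h1, h1'⟩, -⟩ := hz
  intro k
  fin_cases k <;> simp <;> constructor <;> linarith

theorem fmax_le_N0 {z : Fin 5 → ℝ} (hz : Main z) (w : Fin 5 → ℝ) :
    fmax aF bT (aff z) (dir w) ≤ N0 (comp z w) := by
  have hx := aff_ne_zero z
  have hs := s_main hz
  obtain ⟨⟨h0, h0'⟩, ⟨h1, h1'⟩, hQ⟩ := hz
  have hχ : χT (aff z) = 1 := by
    have hq : (100 * Q (aff z)) * (100 * Q (aff z)) ≤ 1 := by
      rw [← pow_two, ← sq_abs]
      nlinarith [abs_nonneg (100 * Q (aff z))]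
    rw [χT, step_eq_zero (by norm_num) ((hs 0).2.le.trans (by norm_num)),
      step_eq_zero (by norm_num) ((hs 1).2.le.trans (by norm_num)),
      step_eq_zero (by norm_num) ((hs 2).2.le.trans (by norm_num)),
      step_eq_zero (a := 1) (b := 2) (by norm_num) hq]
    norm_num
  have hpi := Real.pi_pos
  refine fmax_le aF bT (N0_nonneg _) ?_ ?_
  · rintro ((i | k) | (k | u))
    · fin_cases i
      · exact le_max_of_le_right (le_max_of_le_right (le_max_left _ _))
      · exact le_max_of_le_right (le_max_of_le_right (le_max_right _ _))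
    · have : (aF (Sum.inl (Sum.inr k))).f (aff z) (dir w) = 0 := by
        change fderiv ℝ (h k) (aff z) (dir w) = 0
        rw [fderiv_h _ hx, deriv_step_eq_zero (by norm_num)
          (Or.inl ((hs k).2.le.trans (by norm_num))), zero_mul]
      rw [this, abs_zero]
      exact N0_nonneg _
    · have : (aF (Sum.inr (Sum.inl k))).f (aff z) (dir w) = 0 := by
        change 2 / Real.pi * (χA k (aff z) * A k (aff z) (dir w)) = 0
        rw [χA, step_eq_zero (by norm_num) ((hs k).2.le.trans (by norm_num)), zero_mul, mul_zero]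
      rw [this, abs_zero]
      exact N0_nonneg _
    · exact le_max_of_le_right (le_max_left _ _)
  · intro j
    change 2 / Real.pi * (χT (aff z) * om j (aff z) (dir w)) ≤ _
    rw [hχ, one_mul, om_main hx h0 h0' h1 h1']
    refine le_max_of_le_left ?_
    fin_cases j
    · refine le_max_of_le_left (le_of_eq ?_)
      simp [comp]; ring
    · refine le_max_of_le_right (le_max_of_le_left (le_of_eq ?_))
      simp [comp]; ring
    · refine le_max_of_le_right (le_max_of_le_right (le_of_eq ?_))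
      simp [comp]; ring

/-- the main chart -/
noncomputable def ff (z : Fin 5 → ℝ) : Fin 5 → ℝ :=
  ![Real.arctan (z 0) / Real.pi, -Real.arctan (z 1 / z 2) / Real.pi, X (aff z),
    y 0 (aff z), y 1 (aff z)]

/-- `A k x` as a linear map -/
noncomputable def AL (k : Fin 3) (x : Co 5) : Co 5 →ₗ[ℝ] ℝ where
  toFun := A k x
  map_add' := A_add k x
  map_smul' := fun r v => A_smul k x v r

/-- `dir` as a continuous linear map -/
noncomputable def dirC : (Fin 5 → ℝ) →L[ℝ] Co 5 := LinearMap.toContinuousLinearMap (dirL 5)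

theorem hasFDerivAt_aff (z : Fin 5 → ℝ) : HasFDerivAt (aff : (Fin 5 → ℝ) → Co 5) dirC z := by
  have h : (aff : (Fin 5 → ℝ) → Co 5) = fun z => aff 0 + dirC z := by
    funext z i
    change aff z i = aff 0 i + dir z i
    refine Fin.cases ?_ (fun i => ?_) i <;> simp [aff, dir]
  rw [h]
  exact (dirC.hasFDerivAt).const_add _

/-- the differential of the main chart -/
noncomputable def ff' (z : Fin 5 → ℝ) : (Fin 5 → ℝ) →L[ℝ] (Fin 5 → ℝ) :=
  ContinuousLinearMap.pi ![
    (1 / Real.pi) • (LinearMap.toContinuousLinearMap (AL 0 (aff z))).comp dirC,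
    (1 / Real.pi) • (LinearMap.toContinuousLinearMap (AL 1 (aff z))).comp dirC,
    (fderiv ℝ X (aff z)).comp dirC, (fderiv ℝ (y 0) (aff z)).comp dirC,
    (fderiv ℝ (y 1) (aff z)).comp dirC]

theorem ff'_apply (z w : Fin 5 → ℝ) : ff' z w = comp z w := by
  funext i
  fin_cases i
  · change (1 / Real.pi) * A 0 (aff z) (dir w) = A 0 (aff z) (dir w) / Real.pi; ring
  · change (1 / Real.pi) * A 1 (aff z) (dir w) = A 1 (aff z) (dir w) / Real.pi; ring
  · rfl
  · rfl
  · rfl

theorem hasFDerivAt_ff {z : Fin 5 → ℝ} (hz : z 2 ≠ 0) : HasFDerivAt ff (ff' z) z := by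
  have hx := aff_ne_zero z
  rw [hasFDerivAt_pi']
  intro i
  fin_cases i
  · change HasFDerivAt (fun z : Fin 5 → ℝ => Real.arctan (z 0) / Real.pi) _ z
    have h1 : HasFDerivAt (fun z : Fin 5 → ℝ => z 0)
      (ContinuousLinearMap.proj (R := ℝ) (φ := fun _ : Fin 5 => ℝ) 0) z := hasFDerivAt_apply 0 z
    have h2 := (h1.arctan).const_mul (1 / Real.pi)
    have h3 : (fun z : Fin 5 → ℝ => Real.arctan (z 0) / Real.pi)
        = fun z => 1 / Real.pi * Real.arctan (z 0) := by funext z; ring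
    rw [h3]
    refine h2.congr_fderiv ?_
    ext w
    change 1 / Real.pi * (1 / (1 + z 0 ^ 2) * w 0) = (1 / Real.pi) * A 0 (aff z) (dir w)
    have e : A 0 (aff z) (dir w) = (1 * w 0 - z 0 * 0) / (1 ^ 2 + z 0 ^ 2) := rfl
    rw [e]; ring
  · change HasFDerivAt (fun z : Fin 5 → ℝ => -Real.arctan (z 1 / z 2) / Real.pi) _ z
    have h1 : HasFDerivAt (fun z : Fin 5 → ℝ => z 1)
      (ContinuousLinearMap.proj (R := ℝ) (φ := fun _ : Fin 5 => ℝ) 1) z := hasFDerivAt_apply 1 z
    have h1' : HasFDerivAt (fun z : Fin 5 → ℝ => z 2)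
      (ContinuousLinearMap.proj (R := ℝ) (φ := fun _ : Fin 5 => ℝ) 2) z := hasFDerivAt_apply 2 z
    have h1i := (hasDerivAt_inv hz).comp_hasFDerivAt z h1'
    have h2 := ((h1.mul h1i).arctan).const_mul (-1 / Real.pi)
    have h3 : (fun z : Fin 5 → ℝ => -Real.arctan (z 1 / z 2) / Real.pi)
        = fun z => -1 / Real.pi * Real.arctan (z 1 * (z 2)⁻¹) := by
      funext z; rw [div_eq_mul_inv (z 1)]; ring
    rw [h3]
    refine h2.congr_fderiv ?_
    ext w
    change -1 / Real.pi * (1 / (1 + (z 1 * (z 2)⁻¹) ^ 2) * (z 1 * (-(z 2 ^ 2)⁻¹ * w 2)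
      + (z 2)⁻¹ * w 1)) = (1 / Real.pi) * A 1 (aff z) (dir w)
    rw [← div_eq_mul_inv (z 1)]
    have e : A 1 (aff z) (dir w) = (z 1 * w 2 - z 2 * w 1) / (z 1 ^ 2 + z 2 ^ 2) := rfl
    rw [e]
    have h4 : z 1 ^ 2 + z 2 ^ 2 ≠ 0 := by positivity
    have h5 : 1 + (z 1 / z 2) ^ 2 = (z 1 ^ 2 + z 2 ^ 2) / z 2 ^ 2 := by field_simp; ring
    have h6 := Real.pi_pos.ne'
    rw [h5]
    field_simp
    ring
  · exact HasFDerivAt.comp z (func_X.diff hx).hasFDerivAt (hasFDerivAt_aff z)
  · exact HasFDerivAt.comp z ((func_y 0).diff hx).hasFDerivAt (hasFDerivAt_aff z)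
  · exact HasFDerivAt.comp z ((func_y 1).diff hx).hasFDerivAt (hasFDerivAt_aff z)

/-- the bound of the volumes of the polar bodies in the main region -/
theorem volume_main_le {z : Fin 5 → ℝ} (hz : Main z) :
    volume (body fun w => fmax aF bT (aff z) (dir w))
      ≤ ENNReal.ofReal |(ff' z).det| * ENNReal.ofReal (4 / 5) := by
  set M := LinearMap.toMatrix' ((ff' z : (Fin 5 → ℝ) →L[ℝ] (Fin 5 → ℝ)) :
    (Fin 5 → ℝ) →ₗ[ℝ] (Fin 5 → ℝ)) with hM
  have hMw : ∀ w, M.mulVec w = comp z w := fun w => by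
    rw [hM, LinearMap.toMatrix'_mulVec, ← ff'_apply]; rfl
  have hdet : M.det = (ff' z).det := by
    rw [hM, LinearMap.det_toMatrix']
  have h1 : body (fun w => fmax aF bT (aff z) (dir w)) ⊆ body fun w => N0 (M.mulVec w) :=
    body_mono fun w => by rw [hMw]; exact fmax_le_N0 hz w
  refine (measure_mono h1).trans ((volume_body_comp M ?_).trans ?_)
  · simp [N0]
  · rw [hdet]
    gcongr
    exact volume_body_N0

/-- the sheets -/
def Sheet (a b : ℝ) : Set (Fin 5 → ℝ) := {z | Main z ∧ 0 < a * z 2 ∧ 0 < b * Pi (aff z)}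

theorem continuous_func {f : Co 5 → ℝ} {σ : ℝ} (hf : Func f σ) :
    Continuous fun z : Fin 5 → ℝ => f (aff z) := by
  have h : Continuous (aff : (Fin 5 → ℝ) → Co 5) :=
    continuous_iff_continuousAt.2 fun z => (hasFDerivAt_aff z).continuousAt
  exact continuous_iff_continuousAt.2 fun z =>
    ContinuousAt.comp (g := f) (f := aff) (hf.diff (aff_ne_zero z)).continuousAt h.continuousAt

theorem measurableSet_sheet (a b : ℝ) : MeasurableSet (Sheet a b) := by
  have h : Continuous (aff : (Fin 5 → ℝ) → Co 5) :=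
    continuous_iff_continuousAt.2 fun z => (hasFDerivAt_aff z).continuousAt
  have c0 := continuous_func (func_s 0)
  have c1 := continuous_func (func_s 1)
  have c2 := continuous_func func_Q
  have c3 : Continuous fun z : Fin 5 → ℝ => Pi (aff z) := contDiff_Pi.continuous.comp h
  have hopen : IsOpen (Sheet a b) := by
    refine IsOpen.inter (IsOpen.inter (IsOpen.inter ?_ ?_) (IsOpen.inter (IsOpen.inter ?_ ?_) ?_))
      (IsOpen.inter ?_ ?_)
    · exact isOpen_lt continuous_const c0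
    · exact isOpen_lt c0 continuous_const
    · exact isOpen_lt continuous_const c1
    · exact isOpen_lt c1 continuous_const
    · exact isOpen_lt (f := fun z : Fin 5 → ℝ => |100 * Q (aff z)|) (by fun_prop)
        continuous_const
    · exact isOpen_lt (g := fun z : Fin 5 → ℝ => a * z 2) continuous_const (by fun_prop)
    · exact isOpen_lt (g := fun z : Fin 5 → ℝ => b * Pi (aff z)) continuous_const (by fun_prop)
  exact hopen.measurableSet

end Pool.Agent.H785.RP.Ex
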