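import Pool.Agent.H785.RP.Ex2
import Pool.Agent.H785.RP.Body0

/-!
# The polar bodies are degenerate outside the main region
-/

open MeasureTheory Set Filter
open scoped ContDiff ENNReal Topology

namespace Pool.Agent.H785.RP

/-- `dir` as a linear map -/
def dirL (n : ℕ) : (Fin n → ℝ) →ₗ[ℝ] Co n where
  toFun := dir
  map_add' := fun v w => by
    funext i
    refine Fin.cases ?_ (fun i => ?_) i <;> simp [dir]
  map_smul' := fun r w => by
    funext i
    refine Fin.cases ?_ (fun i => ?_) i <;> simp [dir]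

theorem dirL_apply {n : ℕ} (w : Fin n → ℝ) : dirL n w = dir w := rfl

theorem exists_ker (L : Fin 4 → ((Fin 5 → ℝ) →ₗ[ℝ] ℝ)) : ∃ w ≠ 0, ∀ i, L i w = 0 := by
  have h := LinearMap.ker_ne_bot_of_finrank_lt (f := LinearMap.pi L) (by simp)
  obtain ⟨w, hw, hw0⟩ := Submodule.exists_mem_ne_zero_of_ne_bot h
  refine ⟨w, hw0, fun i => ?_⟩
  have := congrFun (LinearMap.mem_ker.1 hw) i
  simpa using this

namespace Ex

theorem fderiv_comp' {f : Co 5 → ℝ} {σ : ℝ} (hf : Func f σ) {g : ℝ → ℝ} (hg : ContDiff ℝ ∞ g)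
    {x : Co 5} (hx : x ≠ 0) (v : Co 5) :
    fderiv ℝ (fun x => g (f x)) x v = deriv g (f x) * fderiv ℝ f x v := by
  have h1 : HasDerivAt g (deriv g (f x)) (f x) :=
    (hg.differentiable (by simp) (f x)).hasDerivAt
  have h2 := h1.comp_hasFDerivAt x (hf.diff hx).hasFDerivAt
  have h3 : fderiv ℝ (fun x => g (f x)) x = deriv g (f x) • fderiv ℝ f x := h2.fderiv
  rw [h3]
  simp

theorem func_Q100 : Func (fun x => 100 * Q x) (-1) := by
  have := (Func.const (n := 5) 100).mul func_Q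
  rwa [one_mul] at this

theorem fderiv_y (k : Fin 3) {x : Co 5} (hx : x ≠ 0) (v : Co 5) :
    fderiv ℝ (y k) x v = deriv (step (1 / 4) (12 / 25)) (s k x) * fderiv ℝ (s k) x v :=
  fderiv_comp' (func_s k) contDiff_step hx v

theorem fderiv_h (k : Fin 3) {x : Co 5} (hx : x ≠ 0) (v : Co 5) :
    fderiv ℝ (h k) x v = deriv (step (4 / 5) (17 / 20)) (s k x) * fderiv ℝ (s k) x v :=
  fderiv_comp' (func_s k) contDiff_step hx v

theorem fderiv_X {x : Co 5} (hx : x ≠ 0) (v : Co 5) :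
    fderiv ℝ X x v = deriv odd (100 * Q x) * fderiv ℝ (fun x => 100 * Q x) x v :=
  fderiv_comp' func_Q100 contDiff_odd hx v

/-- `om j x` as a linear map -/
noncomputable def omL (j : Fin 3) (x : Co 5) : Co 5 →ₗ[ℝ] ℝ where
  toFun := om j x
  map_add' := om_add j x
  map_smul' := fun r v => om_smul j x v r

theorem null_of_forms {z w : Fin 5 → ℝ} (hw : w ≠ 0)
    (hX : fderiv ℝ X (aff z) (dir w) = 0)
    (hy : ∀ i : Fin 2, fderiv ℝ (y i.castSucc) (aff z) (dir w) = 0)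
    (hh : ∀ k, fderiv ℝ (h k) (aff z) (dir w) = 0)
    (hA : ∀ k, χA k (aff z) * A k (aff z) (dir w) = 0)
    (h0 : om 0 (aff z) (dir w) = 0) (h1 : om 1 (aff z) (dir w) = 0) :
    volume (body fun w => fmax aF bT (aff z) (dir w)) = 0 := by
  have hx := aff_ne_zero z
  have h2 : om 2 (aff z) (dir w) = 0 := by
    have := om_sum hx (dir w); linarith
  have ha : ∀ i, (aF i).f (aff z) (dir w) = 0 := by
    rintro ((i | k) | (k | u))
    · exact hy i
    · exact hh k
    · change 2 / Real.pi * (χA k (aff z) * A k (aff z) (dir w)) = 0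
      rw [hA k, mul_zero]
    · exact hX
  have hb : ∀ j, (bT j).f (aff z) (dir w) = 0 := by
    intro j
    change 2 / Real.pi * (χT (aff z) * om j (aff z) (dir w)) = 0
    have : om j (aff z) (dir w) = 0 := by fin_cases j <;> assumption
    rw [this, mul_zero, mul_zero]
  have hneg : dir (-w) = (-1 : ℝ) • dir w := by
    rw [← dirL_apply, ← dirL_apply, ← map_smul]; simp
  refine volume_body_eq_zero w hw ?_ ?_
  · exact fmax_le aF bT le_rfl (fun i => by rw [ha i, abs_zero]) (fun j => (hb j).le)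
  · refine fmax_le aF bT le_rfl (fun i => ?_) (fun j => ?_)
    · rw [hneg, (aF i).smul, ha i, mul_zero, abs_zero]
    · rw [hneg, (bT j).smul, hb j, mul_zero]

theorem w_zero_of_big {x : Co 5} (hx : x ≠ 0) {k : Fin 3} (hk : 3 / 4 < s k x) : w k x = 0 := by
  have hs := sum_s hx
  have h0 := s_nonneg 0 x
  have h1 := s_nonneg 1 x
  have h2 := s_nonneg 2 x
  fin_cases k <;> simp at hk
  · have e1 : lam (s 0 x) = 0 := lam_zero (by linarith)
    have e2 : nu (s 2 x) = 1 := nu_one (by linarith)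
    simp [w, e1, e2]
  · have e1 : lam (s 1 x) = 0 := lam_zero (by linarith)
    simp [w, e1]
  · have e2 : nu (s 2 x) = 0 := nu_zero (by linarith)
    simp [w, e2]

theorem om_big {x : Co 5} (hx : x ≠ 0) {k : Fin 3} (hk : 3 / 4 < s k x) (v : Co 5) :
    om k x v = A k x v := by
  have h1 : ∀ᶠ z in 𝓝 x, 3 / 4 < s k z :=
    continuousAt_const.eventually_lt ((func_s k).diff hx).continuousAt hk
  have h2 : ∀ᶠ z in 𝓝 x, z ≠ 0 := isOpen_ne.mem_nhds hx
  have h3 : w k =ᶠ[𝓝 x] fun _ => (0 : ℝ) := by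
    filter_upwards [h1, h2] with z hz1 hz2 using w_zero_of_big hz2 hz1
  have h4 : fderiv ℝ (w k) x = 0 := by rw [h3.fderiv_eq, fderiv_const_apply]
  have h5 : w k x = 0 := h3.self_of_nhds
  rw [om, h4, h5]
  simp

/-- the main region, in the affine chart -/
def Main (z : Fin 5 → ℝ) : Prop :=
  (1 / 4 < s 0 (aff z) ∧ s 0 (aff z) < 12 / 25) ∧ (1 / 4 < s 1 (aff z) ∧ s 1 (aff z) < 12 / 25) ∧
    |100 * Q (aff z)| < 1

theorem null_of_big {z : Fin 5 → ℝ} {k : Fin 3} (hk : 3 / 4 < s k (aff z)) :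
    volume (body fun w => fmax aF bT (aff z) (dir w)) = 0 := by
  have hx := aff_ne_zero z
  obtain ⟨w, hw, hL⟩ := exists_ker ![(fderiv ℝ X (aff z)).toLinearMap ∘ₗ dirL 5,
    (fderiv ℝ (s k) (aff z)).toLinearMap ∘ₗ dirL 5, omL 0 (aff z) ∘ₗ dirL 5,
    omL 1 (aff z) ∘ₗ dirL 5]
  have l0 : fderiv ℝ X (aff z) (dir w) = 0 := hL 0
  have l1 : fderiv ℝ (s k) (aff z) (dir w) = 0 := hL 1
  have l2 : om 0 (aff z) (dir w) = 0 := hL 2
  have l3 : om 1 (aff z) (dir w) = 0 := hL 3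
  have l4 : om 2 (aff z) (dir w) = 0 := by
    have := om_sum hx (dir w); linarith
  have lk : om k (aff z) (dir w) = 0 := by fin_cases k <;> assumption
  have hsm : ∀ i, i ≠ k → s i (aff z) ≤ 1 / 4 := by
    intro i hik
    have hs := sum_s hx
    have h0 := s_nonneg 0 (aff z)
    have h1 := s_nonneg 1 (aff z)
    have h2 := s_nonneg 2 (aff z)
    fin_cases k <;> fin_cases i <;> simp_all <;> linarith
  refine null_of_forms hw l0 (fun i => ?_) (fun i => ?_) (fun i => ?_) l2 l3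
  · rw [fderiv_y _ hx]
    by_cases hik : i.castSucc = k
    · rw [hik, l1, mul_zero]
    · rw [deriv_step_eq_zero (by norm_num) (Or.inl (hsm _ hik)), zero_mul]
  · rw [fderiv_h _ hx]
    by_cases hik : i = k
    · rw [hik, l1, mul_zero]
    · rw [deriv_step_eq_zero (by norm_num) (Or.inl ((hsm _ hik).trans (by norm_num))), zero_mul]
  · by_cases hik : i = k
    · rw [hik, ← om_big hx hk, lk, mul_zero]
    · rw [χA, step_eq_zero (by norm_num) ((hsm _ hik).trans (by norm_num)), zero_mul]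

theorem null_of_not_main {z : Fin 5 → ℝ} (hz : ¬ Main z) :
    volume (body fun w => fmax aF bT (aff z) (dir w)) = 0 := by
  have hx := aff_ne_zero z
  by_cases hbig : ∃ k, 3 / 4 < s k (aff z)
  · obtain ⟨k, hk⟩ := hbig
    exact null_of_big hk
  push Not at hbig
  have hh : ∀ k v, fderiv ℝ (h k) (aff z) v = 0 := fun k v => by
    rw [fderiv_h _ hx, deriv_step_eq_zero (by norm_num) (Or.inl ((hbig k).trans (by norm_num))),
      zero_mul]
  have hA : ∀ k v, χA k (aff z) * A k (aff z) v = 0 := fun k v => by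
    rw [χA, step_eq_zero (by norm_num) (hbig k), zero_mul]
  have hcase : (s 0 (aff z) ≤ 1 / 4 ∨ 12 / 25 ≤ s 0 (aff z)) ∨
      (s 1 (aff z) ≤ 1 / 4 ∨ 12 / 25 ≤ s 1 (aff z)) ∨ 1 ≤ |100 * Q (aff z)| := by
    by_contra hc
    push Not at hc
    exact hz ⟨⟨hc.1.1, hc.1.2⟩, ⟨hc.2.1.1, hc.2.1.2⟩, hc.2.2⟩
  rcases hcase with h0 | h1 | h2
  · obtain ⟨w, hw, hL⟩ := exists_ker ![(fderiv ℝ X (aff z)).toLinearMap ∘ₗ dirL 5,
      (fderiv ℝ (s 1) (aff z)).toLinearMap ∘ₗ dirL 5, omL 0 (aff z) ∘ₗ dirL 5,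
      omL 1 (aff z) ∘ₗ dirL 5]
    have l0 : fderiv ℝ X (aff z) (dir w) = 0 := hL 0
    have l1 : fderiv ℝ (s 1) (aff z) (dir w) = 0 := hL 1
    have l2 : om 0 (aff z) (dir w) = 0 := hL 2
    have l3 : om 1 (aff z) (dir w) = 0 := hL 3
    refine null_of_forms hw l0 (fun i => ?_) (fun i => hh i _) (fun i => hA i _) l2 l3
    rw [fderiv_y _ hx]
    fin_cases i
    · simp only [Fin.zero_eta, Fin.castSucc_zero]
      rw [deriv_step_eq_zero (by norm_num) h0, zero_mul]
    · simp only [Fin.mk_one, Fin.castSucc_one]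
      rw [l1, mul_zero]
  · obtain ⟨w, hw, hL⟩ := exists_ker ![(fderiv ℝ X (aff z)).toLinearMap ∘ₗ dirL 5,
      (fderiv ℝ (s 0) (aff z)).toLinearMap ∘ₗ dirL 5, omL 0 (aff z) ∘ₗ dirL 5,
      omL 1 (aff z) ∘ₗ dirL 5]
    have l0 : fderiv ℝ X (aff z) (dir w) = 0 := hL 0
    have l1 : fderiv ℝ (s 0) (aff z) (dir w) = 0 := hL 1
    have l2 : om 0 (aff z) (dir w) = 0 := hL 2
    have l3 : om 1 (aff z) (dir w) = 0 := hL 3
    refine null_of_forms hw l0 (fun i => ?_) (fun i => hh i _) (fun i => hA i _) l2 l3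
    rw [fderiv_y _ hx]
    fin_cases i
    · simp only [Fin.zero_eta, Fin.castSucc_zero]
      rw [l1, mul_zero]
    · simp only [Fin.mk_one, Fin.castSucc_one]
      rw [deriv_step_eq_zero (by norm_num) h1, zero_mul]
  · obtain ⟨w, hw, hL⟩ := exists_ker ![(fderiv ℝ (s 0) (aff z)).toLinearMap ∘ₗ dirL 5,
      (fderiv ℝ (s 1) (aff z)).toLinearMap ∘ₗ dirL 5, omL 0 (aff z) ∘ₗ dirL 5,
      omL 1 (aff z) ∘ₗ dirL 5]
    have l0 : fderiv ℝ (s 0) (aff z) (dir w) = 0 := hL 0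
    have l1 : fderiv ℝ (s 1) (aff z) (dir w) = 0 := hL 1
    have l2 : om 0 (aff z) (dir w) = 0 := hL 2
    have l3 : om 1 (aff z) (dir w) = 0 := hL 3
    refine null_of_forms hw ?_ (fun i => ?_) (fun i => hh i _) (fun i => hA i _) l2 l3
    · rw [fderiv_X hx, deriv_odd_eq_zero h2, zero_mul]
    · rw [fderiv_y _ hx]
      fin_cases i
      · simp only [Fin.zero_eta, Fin.castSucc_zero]
        rw [l0, mul_zero]
      · simp only [Fin.mk_one, Fin.castSucc_one]
        rw [l1, mul_zero]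

end Ex

end Pool.Agent.H785.RP
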