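import Mathlib

/-!
# Smooth steps
-/

open Set Filter
open scoped ContDiff Topology

namespace Pool.Agent.H785.RP

theorem expNegInvGlue_strictMonoOn : StrictMonoOn expNegInvGlue (Ici 0) := by
  intro x hx y _ hxy
  have hx0 : (0 : ℝ) ≤ x := hx
  rcases hx0.eq_or_lt with h | h
  · rw [← h, expNegInvGlue.zero]
    exact expNegInvGlue.pos_of_pos (by linarith)
  · have hy : 0 < y := h.trans hxy
    rw [expNegInvGlue, expNegInvGlue, if_neg (not_le.2 h), if_neg (not_le.2 hy)]
    apply Real.exp_lt_exp.2
    exact neg_lt_neg (inv_strictAnti₀ h hxy)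

theorem smoothTransition_strictMonoOn : StrictMonoOn Real.smoothTransition (Icc 0 1) := by
  intro x hx y hy hxy
  have h1 : expNegInvGlue x < expNegInvGlue y := expNegInvGlue_strictMonoOn hx.1 hy.1 hxy
  have h2 : expNegInvGlue (1 - y) ≤ expNegInvGlue (1 - x) :=
    expNegInvGlue.monotone (by linarith)
  have h3 : 0 < expNegInvGlue (1 - x) := expNegInvGlue.pos_of_pos (by linarith [hy.2])
  have h4 := expNegInvGlue.nonneg x
  rw [Real.smoothTransition, Real.smoothTransition,
    div_lt_div_iff₀ (Real.smoothTransition.pos_denom x) (Real.smoothTransition.pos_denom y)]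
  nlinarith [mul_le_mul_of_nonneg_left h2 h4, mul_lt_mul_of_pos_right h1 h3]

theorem smoothTransition_one_sub (t : ℝ) :
    Real.smoothTransition (1 - t) = 1 - Real.smoothTransition t := by
  have h := Real.smoothTransition.pos_denom t
  rw [Real.smoothTransition, Real.smoothTransition, sub_sub_cancel, add_comm, eq_sub_iff_add_eq,
    ← add_div, add_comm (expNegInvGlue (1 - t)), div_self h.ne']

/-- a smooth step from `0` on `(-∞, a]` to `1` on `[b, ∞)` -/
noncomputable def step (a b t : ℝ) : ℝ := Real.smoothTransition ((t - a) / (b - a))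

variable {a b t : ℝ}

theorem step_nonneg : 0 ≤ step a b t := Real.smoothTransition.nonneg _

theorem step_le_one : step a b t ≤ 1 := Real.smoothTransition.le_one _

theorem step_eq_zero (h : a < b) (ht : t ≤ a) : step a b t = 0 :=
  Real.smoothTransition.zero_of_nonpos (div_nonpos_of_nonpos_of_nonneg (by linarith) (by linarith))

theorem step_eq_one (h : a < b) (ht : b ≤ t) : step a b t = 1 :=
  Real.smoothTransition.one_of_one_le ((one_le_div (by linarith)).2 (by linarith))

theorem contDiff_step : ContDiff ℝ ∞ (step a b) :=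
  Real.smoothTransition.contDiff.comp (by fun_prop)

theorem step_strictMonoOn (h : a < b) : StrictMonoOn (step a b) (Icc a b) := by
  intro x hx y hy hxy
  have hb : 0 < b - a := by linarith
  refine smoothTransition_strictMonoOn ⟨?_, ?_⟩ ⟨?_, ?_⟩ ?_
  · exact div_nonneg (by linarith [hx.1]) hb.le
  · rw [div_le_one hb]; linarith [hx.2]
  · exact div_nonneg (by linarith [hy.1]) hb.le
  · rw [div_le_one hb]; linarith [hy.2]
  · exact div_lt_div_of_pos_right (by linarith) hb

theorem step_pos (h : a < b) (ht : a < t) : 0 < step a b t :=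
  Real.smoothTransition.pos_of_pos (div_pos (by linarith) (by linarith))

theorem step_lt_one (h : a < b) (ht : t < b) : step a b t < 1 :=
  Real.smoothTransition.lt_one_of_lt_one ((div_lt_one (by linarith)).2 (by linarith))

theorem deriv_step_eq_zero (h : a < b) (ht : t ≤ a ∨ b ≤ t) : deriv (step a b) t = 0 := by
  rcases ht with ht | ht
  · refine IsLocalMin.deriv_eq_zero (Eventually.of_forall fun u => ?_)
    rw [step_eq_zero h ht]; exact step_nonneg
  · refine IsLocalMax.deriv_eq_zero (Eventually.of_forall fun u => ?_)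
    rw [step_eq_one h ht]; exact step_le_one

/-- an odd smooth function, equal to `1` on `[1, ∞)` -/
noncomputable def odd (u : ℝ) : ℝ := 2 * step (-1) 1 u - 1

theorem odd_neg (u : ℝ) : odd (-u) = -odd u := by
  have : step (-1) 1 (-u) = 1 - step (-1) 1 u := by
    rw [step, step, ← smoothTransition_one_sub]
    congr 1
    ring
  rw [odd, odd, this]; ring

theorem contDiff_odd : ContDiff ℝ ∞ odd := by
  unfold odd
  exact (contDiff_const.mul contDiff_step).sub contDiff_const

theorem odd_eq_one (h : 1 ≤ t) : odd t = 1 := by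
  rw [odd, step_eq_one (by norm_num) h]; norm_num

theorem abs_odd_eq_one (h : 1 ≤ |t|) : |odd t| = 1 := by
  rcases le_abs.1 h with h | h
  · rw [odd_eq_one h, abs_one]
  · have := odd_eq_one h
    rw [odd_neg] at this
    rw [← abs_neg, this, abs_one]

theorem odd_strictMonoOn : StrictMonoOn odd (Icc (-1) 1) := by
  intro x hx y hy hxy
  have := step_strictMonoOn (by norm_num) hx hy hxy
  simp only [odd]; linarith

theorem odd_mem (h : |t| < 1) : odd t ∈ Ioo (-1 : ℝ) 1 := by
  rw [abs_lt] at h
  have h1 := step_pos (a := -1) (b := 1) (by norm_num) h.1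
  have h2 := step_lt_one (a := -1) (b := 1) (by norm_num) h.2
  constructor <;> simp only [odd] <;> linarith

theorem deriv_odd_eq_zero (h : 1 ≤ |t|) : deriv odd t = 0 := by
  have h1 : deriv (step (-1) 1) t = 0 := by
    refine deriv_step_eq_zero (by norm_num) ?_
    rcases le_abs.1 h with h | h
    · exact Or.inr h
    · exact Or.inl (by linarith)
  have h2 : HasDerivAt odd (2 * deriv (step (-1) 1) t) t := by
    have := ((contDiff_step (a := -1) (b := 1)).differentiable (by simp) t).hasDerivAt
    exact (this.const_mul 2).sub_const 1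
  rw [h2.deriv, h1, mul_zero]

end Pool.Agent.H785.RP
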