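import Pool.Agent.H785.RP.Forms
import Pool.Agent.H785.RP.Step

/-!
# Exact forms
-/

open Set Filter
open scoped ContDiff Topology

namespace Pool.Agent.H785.RP

variable {n : ℕ}

theorem isOpen_ne : IsOpen {x : Co n | x ≠ 0} := isOpen_compl_singleton

theorem isOpen_fst_ne : IsOpen {p : Co n × Co n | p.1 ≠ 0} := isOpen_ne.preimage continuous_fst

/-- the differential of a homogeneous function is invariant -/
theorem fderiv_inv {f : Co n → ℝ} (hf : ∀ x, x ≠ 0 → DifferentiableAt ℝ f x) {ρ : ℝ}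
    {x : Co n} (hx : x ≠ 0) {c : ℝ} (hc : c ≠ 0)
    (hρ : ∀ y : Co n, y ≠ 0 → ∀ c' : ℝ, 0 < c' * c → f (c' • y) = ρ * f y) (v : Co n) (α : ℝ) :
    fderiv ℝ f (c • x) (c • v + α • x) = ρ * fderiv ℝ f x v := by
  have hcx : c • x ≠ 0 := smul_ne_zero hc hx
  have h1 : HasDerivAt (fun t : ℝ => c • x + t • (c • v + α • x)) (c • v + α • x) 0 := by
    have := ((hasDerivAt_id (0 : ℝ)).smul_const (c • v + α • x)).const_add (c • x)
    simpa using this
  have h2 : HasDerivAt (fun t : ℝ => f (c • x + t • (c • v + α • x)))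
      (fderiv ℝ f (c • x) (c • v + α • x)) 0 := by
    have hd := (hf _ hcx).hasFDerivAt
    have e : c • x + (0 : ℝ) • (c • v + α • x) = c • x := by rw [zero_smul, add_zero]
    exact HasFDerivAt.comp_hasDerivAt (f := fun t : ℝ => c • x + t • (c • v + α • x)) (0 : ℝ)
      (by rw [e]; exact hd) h1
  have h3 : HasDerivAt (fun t : ℝ => x + (t * c / (c + t * α)) • v) v 0 := by
    have ha : HasDerivAt (fun t : ℝ => t * c / (c + t * α))
        ((1 * c * (c + 0 * α) - 0 * c * (0 + 1 * α)) / (c + 0 * α) ^ 2) 0 :=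
      ((hasDerivAt_id' (0 : ℝ)).mul_const c).div
        ((hasDerivAt_const (0 : ℝ) c).add ((hasDerivAt_id' (0 : ℝ)).mul_const α)) (by simpa using hc)
    have hb : (1 * c * (c + 0 * α) - 0 * c * (0 + 1 * α)) / (c + 0 * α) ^ 2 = 1 := by
      rw [zero_mul, zero_mul, add_zero, zero_mul, sub_zero, one_mul, ← sq,
        div_self (pow_ne_zero 2 hc)]
    rw [hb] at ha
    have := (ha.smul_const v).const_add x
    simpa using this
  have h4 : HasDerivAt (fun t : ℝ => f (x + (t * c / (c + t * α)) • v)) (fderiv ℝ f x v) 0 := by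
    have hd := (hf _ hx).hasFDerivAt
    have e : x + ((0 : ℝ) * c / (c + 0 * α)) • v = x := by simp
    exact HasFDerivAt.comp_hasDerivAt (f := fun t : ℝ => x + (t * c / (c + t * α)) • v) (0 : ℝ)
      (by rw [e]; exact hd) h3
  have hev : (fun t : ℝ => f (c • x + t • (c • v + α • x)))
      =ᶠ[𝓝 0] fun t => ρ * f (x + (t * c / (c + t * α)) • v) := by
    have e1 : ∀ᶠ t : ℝ in 𝓝 0, 0 < (c + t * α) * c := by
      have : ContinuousAt (fun t : ℝ => (c + t * α) * c) 0 := by fun_prop
      refine continuousAt_const.eventually_lt this ?_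
      simp only [zero_mul, add_zero]
      exact mul_self_pos.2 hc
    have e2 : ∀ᶠ t : ℝ in 𝓝 0, x + (t * c / (c + t * α)) • v ≠ 0 := by
      have := h3.continuousAt
      refine this.eventually_ne ?_
      simpa using hx
    filter_upwards [e1, e2] with t h1 h2
    have hne : c + t * α ≠ 0 := by
      intro h; rw [h] at h1; simp at h1
    rw [← hρ _ h2 _ h1]
    congr 1
    have e : (c + t * α) * (t * c / (c + t * α)) = t * c := by field_simp
    rw [smul_add (c + t * α), smul_smul (c + t * α), e]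
    simp only [smul_add, add_smul, smul_smul]
    abel
  exact h2.unique (((h4.const_mul ρ)).congr_of_eventuallyEq hev)

theorem contDiffOn_fderiv_apply {f : Co n → ℝ} (hf : ContDiffOn ℝ ∞ f {x | x ≠ 0}) :
    ContDiffOn ℝ ∞ (fun p : Co n × Co n => fderiv ℝ f p.1 p.2) {p | p.1 ≠ 0} := by
  have h1 : ContDiffOn ℝ ∞ (fderiv ℝ f) {x | x ≠ 0} :=
    hf.fderiv_of_isOpen isOpen_ne (by simp)
  exact (h1.comp contDiff_fst.contDiffOn fun p hp => hp).clm_apply contDiff_snd.contDiffOn

/-- `f` is a function on `RP^n`, up to sign -/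
structure Func (f : Co n → ℝ) (σ : ℝ) : Prop where
  smooth : ContDiffOn ℝ ∞ f {x | x ≠ 0}
  pos : ∀ x, x ≠ 0 → ∀ c : ℝ, 0 < c → f (c • x) = f x
  neg : ∀ x, x ≠ 0 → f (-x) = σ * f x

theorem Func.diff {f : Co n → ℝ} {σ : ℝ} (h : Func f σ) {x : Co n} (hx : x ≠ 0) :
    DifferentiableAt ℝ f x :=
  ((h.smooth.differentiableOn (by simp)) x hx).differentiableAt (isOpen_ne.mem_nhds hx)

theorem Func.eq {f : Co n → ℝ} {σ : ℝ} (h : Func f σ) {x : Co n} (hx : x ≠ 0) {c : ℝ}
    (hc : c ≠ 0) : f (c • x) = (if 0 < c then 1 else σ) * f x := by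
  split_ifs with h0
  · rw [one_mul, h.pos x hx c h0]
  · have hc' : 0 < -c := by
      have := lt_of_le_of_ne (not_lt.1 h0) hc
      linarith
    rw [← h.neg x hx, ← h.pos (-x) (neg_ne_zero.2 hx) _ hc', smul_neg, neg_smul, neg_neg]

theorem Func.inv {f : Co n → ℝ} {σ : ℝ} (h : Func f σ) {x : Co n} (hx : x ≠ 0) {c : ℝ}
    (hc : c ≠ 0) (v : Co n) (α : ℝ) :
    fderiv ℝ f (c • x) (c • v + α • x) = (if 0 < c then 1 else σ) * fderiv ℝ f x v := by
  refine fderiv_inv (fun x hx => h.diff hx) hx hc (fun y hy c' hc' => ?_) v α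
  have hc0 : c' ≠ 0 := by rintro rfl; simp at hc'
  rw [h.eq hy hc0]
  congr 1
  have : 0 < c' ↔ 0 < c := by
    constructor
    · intro h; exact (pos_iff_pos_of_mul_pos hc').1 h
    · intro h; exact (pos_iff_pos_of_mul_pos hc').2 h
  simp only [this]

/-- the exact form `df` -/
noncomputable def AForm.ofFun (f : Co n → ℝ) {σ : ℝ} (hσ : |σ| = 1) (hf : Func f σ) : AForm n where
  f := fun x v => fderiv ℝ f x v
  smooth := contDiffOn_fderiv_apply hf.smooth
  add := fun x v w => map_add _ _ _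
  smul := fun x v r => by rw [map_smul, smul_eq_mul]
  inv := fun x v c a hx hc => by
    rw [hf.inv hx hc, abs_mul]
    split_ifs
    · rw [abs_one, one_mul]
    · rw [hσ, one_mul]

theorem Func.comp {f : Co n → ℝ} (h : Func f 1) {g : ℝ → ℝ} (hg : ContDiff ℝ ∞ g) :
    Func (fun x => g (f x)) 1 where
  smooth := hg.comp_contDiffOn h.smooth
  pos := fun x hx c hc => by rw [h.pos x hx c hc]
  neg := fun x hx => by rw [h.neg x hx, one_mul, one_mul]

theorem Func.comp_odd {f : Co n → ℝ} (h : Func f (-1)) {g : ℝ → ℝ} (hg : ContDiff ℝ ∞ g)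
    (ho : ∀ t, g (-t) = -g t) : Func (fun x => g (f x)) (-1) where
  smooth := hg.comp_contDiffOn h.smooth
  pos := fun x hx c hc => by rw [h.pos x hx c hc]
  neg := fun x hx => by rw [h.neg x hx, neg_one_mul, neg_one_mul, ho]

theorem Func.mul {f g : Co n → ℝ} {σ τ : ℝ} (hf : Func f σ) (hg : Func g τ) :
    Func (fun x => f x * g x) (σ * τ) where
  smooth := hf.smooth.mul hg.smooth
  pos := fun x hx c hc => by rw [hf.pos x hx c hc, hg.pos x hx c hc]
  neg := fun x hx => by rw [hf.neg x hx, hg.neg x hx]; ring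

theorem Func.add {f g : Co n → ℝ} {σ : ℝ} (hf : Func f σ) (hg : Func g σ) :
    Func (fun x => f x + g x) σ where
  smooth := hf.smooth.add hg.smooth
  pos := fun x hx c hc => by rw [hf.pos x hx c hc, hg.pos x hx c hc]
  neg := fun x hx => by rw [hf.neg x hx, hg.neg x hx]; ring

theorem Func.sub {f g : Co n → ℝ} {σ : ℝ} (hf : Func f σ) (hg : Func g σ) :
    Func (fun x => f x - g x) σ where
  smooth := hf.smooth.sub hg.smooth
  pos := fun x hx c hc => by rw [hf.pos x hx c hc, hg.pos x hx c hc]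
  neg := fun x hx => by rw [hf.neg x hx, hg.neg x hx]; ring

theorem Func.const (r : ℝ) : Func (fun _ : Co n => r) 1 where
  smooth := contDiffOn_const
  pos := fun _ _ _ _ => rfl
  neg := fun _ _ => by ring

end Pool.Agent.H785.RP
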