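import Pool.Agent.H785.RP.Defs

/-!
# The round metric of `RP^n` in homogeneous coordinates
-/

open MeasureTheory Set
open scoped ContDiff ENNReal Nat

namespace Pool.Agent.H785.RP

variable {n : ℕ}

/-- the inner product of `ℝ^(n+1)` -/
def ip (x v : Co n) : ℝ := ∑ i, x i * v i

/-- the squared Euclidean norm -/
def nsq (x : Co n) : ℝ := ∑ i, x i * x i

theorem nsq_eq (x : Co n) : nsq x = ip x x := rfl

theorem nsq_nonneg (x : Co n) : 0 ≤ nsq x :=
  Finset.sum_nonneg fun i _ => mul_self_nonneg (x i)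

theorem nsq_eq_zero {x : Co n} : nsq x = 0 ↔ x = 0 := by
  constructor
  · intro h
    have := (Finset.sum_eq_zero_iff_of_nonneg (fun i _ => mul_self_nonneg (x i))).1 h
    funext i
    simpa using this i (Finset.mem_univ i)
  · rintro rfl
    simp [nsq]

theorem nsq_pos {x : Co n} (h : x ≠ 0) : 0 < nsq x :=
  lt_of_le_of_ne (nsq_nonneg x) fun h0 => h (nsq_eq_zero.1 h0.symm)

theorem ip_comm (x v : Co n) : ip x v = ip v x := by
  unfold ip; exact Finset.sum_congr rfl fun i _ => mul_comm _ _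

theorem ip_add_right (x v w : Co n) : ip x (v + w) = ip x v + ip x w := by
  simp [ip, mul_add, Finset.sum_add_distrib]

theorem ip_smul_right (x v : Co n) (r : ℝ) : ip x (r • v) = r * ip x v := by
  simp [ip, Finset.mul_sum]; exact Finset.sum_congr rfl fun i _ => by ring

theorem ip_smul_left (x v : Co n) (r : ℝ) : ip (r • x) v = r * ip x v := by
  simp [ip, Finset.mul_sum]; exact Finset.sum_congr rfl fun i _ => by ring

theorem ip_add_left (x v w : Co n) : ip (x + w) v = ip x v + ip w v := by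
  simp [ip, add_mul, Finset.sum_add_distrib]

theorem nsq_smul (x : Co n) (r : ℝ) : nsq (r • x) = r ^ 2 * nsq x := by
  simp [nsq, Finset.mul_sum]; exact Finset.sum_congr rfl fun i _ => by ring

theorem nsq_add (x v : Co n) : nsq (x + v) = nsq x + 2 * ip x v + nsq v := by
  simp only [nsq_eq, ip_add_right, ip_add_left, ip_comm v x]; ring

/-- the Gram determinant of `x, v` -/
def gram (x v : Co n) : ℝ := nsq x * nsq v - ip x v ^ 2

theorem gram_eq {x : Co n} (hx : x ≠ 0) (v : Co n) :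
    gram x v = nsq x * nsq (v + (-(ip x v / nsq x)) • x) := by
  have h := (nsq_pos hx).ne'
  rw [nsq_add, nsq_smul, ip_smul_right, ip_comm v x, gram]
  field_simp
  ring

theorem gram_nonneg (x v : Co n) : 0 ≤ gram x v := by
  by_cases hx : x = 0
  · subst hx; simp [gram, nsq, ip]
  · rw [gram_eq hx]; exact mul_nonneg (nsq_nonneg _) (nsq_nonneg _)

theorem gram_pos {x v : Co n} (hx : x ≠ 0) (hv : v ∉ Submodule.span ℝ {x}) : 0 < gram x v := by
  rw [gram_eq hx]
  refine mul_pos (nsq_pos hx) (nsq_pos fun h => hv ?_)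
  rw [Submodule.mem_span_singleton]
  rw [neg_smul] at h
  exact ⟨ip x v / nsq x, (add_neg_eq_zero.1 h).symm⟩

/-- the round metric -/
noncomputable def rnd (x v : Co n) : ℝ := √(gram x v) / nsq x

theorem rnd_nonneg (x v : Co n) : 0 ≤ rnd x v := div_nonneg (Real.sqrt_nonneg _) (nsq_nonneg x)

theorem rnd_pos {x v : Co n} (hx : x ≠ 0) (hv : v ∉ Submodule.span ℝ {x}) : 0 < rnd x v :=
  div_pos (Real.sqrt_pos.2 (gram_pos hx hv)) (nsq_pos hx)

/-- the Euclidean norm -/
noncomputable def en (x : Co n) : ℝ := √(nsq x)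

theorem en_eq (x : Co n) : en x = ‖(WithLp.toLp 2 x : EuclideanSpace ℝ (Fin (n + 1)))‖ := by
  rw [EuclideanSpace.norm_eq, en, nsq]
  congr 1
  exact Finset.sum_congr rfl fun i _ => by simp [sq]

theorem en_add_le (x y : Co n) : en (x + y) ≤ en x + en y := by
  rw [en_eq, en_eq, en_eq]
  exact norm_add_le _ _

theorem en_smul (r : ℝ) (x : Co n) : en (r • x) = |r| * en x := by
  rw [en, nsq_smul, Real.sqrt_mul (sq_nonneg r), Real.sqrt_sq_eq_abs, en]

theorem en_pos {x : Co n} (hx : x ≠ 0) : 0 < en x := Real.sqrt_pos.2 (nsq_pos hx)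

theorem en_mul_self (x : Co n) : en x * en x = nsq x := Real.mul_self_sqrt (nsq_nonneg x)

theorem rnd_eq {x : Co n} (hx : x ≠ 0) (v : Co n) :
    rnd x v = en (v + (-(ip x v / nsq x)) • x) / en x := by
  rw [rnd, gram_eq hx, Real.sqrt_mul (nsq_nonneg x), ← en, ← en, div_eq_div_iff (nsq_pos hx).ne'
    (en_pos hx).ne', ← en_mul_self x]
  ring

theorem rnd_add_le {x : Co n} (hx : x ≠ 0) (v w : Co n) :
    rnd x (v + w) ≤ rnd x v + rnd x w := by
  rw [rnd_eq hx, rnd_eq hx, rnd_eq hx, ← add_div]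
  refine div_le_div_of_nonneg_right ?_ (en_pos hx).le
  have : v + w + (-(ip x (v + w) / nsq x)) • x
      = (v + (-(ip x v / nsq x)) • x) + (w + (-(ip x w / nsq x)) • x) := by
    rw [ip_add_right, add_div, neg_add, add_smul]; abel
  rw [this]
  exact en_add_le _ _

theorem rnd_smul (x v : Co n) (r : ℝ) : rnd x (r • v) = |r| * rnd x v := by
  rw [rnd, rnd, gram, nsq_smul, ip_smul_right,
    show nsq x * (r ^ 2 * nsq v) - (r * ip x v) ^ 2 = r ^ 2 * gram x v by rw [gram]; ring,
    Real.sqrt_mul (sq_nonneg r), Real.sqrt_sq_eq_abs, mul_div_assoc]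

theorem rnd_invariant {x : Co n} (hx : x ≠ 0) (v : Co n) {c : ℝ} (hc : c ≠ 0) (a : ℝ) :
    rnd (c • x) (c • v + a • x) = rnd x v := by
  have h := (nsq_pos hx).ne'
  have hg : gram (c • x) (c • v + a • x) = (c ^ 2) ^ 2 * gram x v := by
    have e1 : ip (c • x) (c • v + a • x) = c ^ 2 * ip x v + c * a * nsq x := by
      rw [ip_add_right, ip_smul_right, ip_smul_right, ip_smul_left, ip_smul_left, nsq_eq]; ring
    have e2 : ip (c • v) (a • x) = c * a * ip x v := by
      rw [ip_smul_left, ip_smul_right, ip_comm v x]; ring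
    rw [gram, gram, e1, nsq_smul, nsq_add, nsq_smul, nsq_smul, e2]
    ring
  rw [rnd, rnd, hg, Real.sqrt_mul (sq_nonneg _), Real.sqrt_sq (sq_nonneg c), nsq_smul,
    mul_div_mul_left _ _ (pow_ne_zero 2 hc)]

theorem contDiff_ip : ContDiff ℝ ∞ (fun p : Co n × Co n => ip p.1 p.2) := by
  unfold ip; fun_prop

theorem contDiff_nsq : ContDiff ℝ ∞ (nsq : Co n → ℝ) := by
  unfold nsq; fun_prop

theorem contDiff_gram : ContDiff ℝ ∞ (fun p : Co n × Co n => gram p.1 p.2) := by
  unfold gram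
  have h1 : ContDiff ℝ ∞ (fun p : Co n × Co n => nsq p.1) := contDiff_nsq.comp contDiff_fst
  have h2 : ContDiff ℝ ∞ (fun p : Co n × Co n => nsq p.2) := contDiff_nsq.comp contDiff_snd
  exact (h1.mul h2).sub (contDiff_ip.pow 2)

theorem contDiffOn_rnd :
    ContDiffOn ℝ ∞ (fun p : Co n × Co n => rnd p.1 p.2) (nonzeroTangent n) := by
  unfold rnd
  refine ContDiffOn.div (contDiff_gram.contDiffOn.sqrt fun p hp => (gram_pos hp.1 hp.2).ne')
    (contDiff_nsq.comp contDiff_fst).contDiffOn fun p hp => (nsq_pos hp.1).ne'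

theorem continuousOn_rnd :
    ContinuousOn (fun p : Co n × Co n => rnd p.1 p.2) {p | p.1 ≠ 0} := by
  unfold rnd
  refine ContinuousOn.div (contDiff_gram.continuous.continuousOn.sqrt)
    (contDiff_nsq.comp contDiff_fst).continuous.continuousOn fun p hp => (nsq_pos hp).ne'

end Pool.Agent.H785.RP
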