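import Pool.Agent.H785.RP.MainReg

/-!
# The integral of the volumes of the polar bodies
-/

open MeasureTheory Set Filter
open scoped ContDiff ENNReal Topology

namespace Pool.Agent.H785.RP.Ex

theorem sign_unique {a u v : ℝ} (h : u ^ 2 = v ^ 2) (hu : 0 < a * u) (hv : 0 < a * v) : u = v := by
  rcases sq_eq_sq_iff_eq_or_eq_neg.1 h with h | h
  · exact h
  · rw [h] at hu
    exfalso
    nlinarith

theorem aff_coord (z : Fin 5 → ℝ) : aff z 0 = 1 ∧ aff z 1 = z 0 ∧ aff z 2 = z 1 ∧ aff z 3 = z 2 ∧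
    aff z 4 = z 3 ∧ aff z 5 = z 4 := ⟨rfl, rfl, rfl, rfl, rfl, rfl⟩

theorem injOn_ff (a b : ℝ) : InjOn ff (Sheet a b) := by
  rintro z ⟨hz, hz1, hz2⟩ z' ⟨hz', hz1', hz2'⟩ heq
  have hx := aff_ne_zero z
  have hx' := aff_ne_zero z'
  have hm := s_main hz
  have hm' := s_main hz'
  obtain ⟨⟨a1, a2⟩, ⟨a3, a4⟩, a5⟩ := hz
  obtain ⟨⟨b1, b2⟩, ⟨b3, b4⟩, b5⟩ := hz'
  have e0 : Real.arctan (z 0) / Real.pi = Real.arctan (z' 0) / Real.pi := congrFun heq 0
  have e1 : -Real.arctan (z 1 / z 2) / Real.pi = -Real.arctan (z' 1 / z' 2) / Real.pi :=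
    congrFun heq 1
  have e2 : odd (100 * Q (aff z)) = odd (100 * Q (aff z')) := congrFun heq 2
  have e3 : step (1 / 4) (12 / 25) (s 0 (aff z)) = step (1 / 4) (12 / 25) (s 0 (aff z')) :=
    congrFun heq 3
  have e4 : step (1 / 4) (12 / 25) (s 1 (aff z)) = step (1 / 4) (12 / 25) (s 1 (aff z')) :=
    congrFun heq 4
  have hpi := Real.pi_pos.ne'
  have f0 : z 0 = z' 0 := Real.arctan_injective (by field_simp at e0; exact e0)
  have f1 : z 1 / z 2 = z' 1 / z' 2 := Real.arctan_injective (by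
    rw [div_left_inj' hpi, neg_inj] at e1; exact e1)
  have f2 : Q (aff z) = Q (aff z') := by
    rw [abs_lt] at a5 b5
    have := odd_strictMonoOn.injOn ⟨a5.1.le, a5.2.le⟩ ⟨b5.1.le, b5.2.le⟩ e2
    linarith
  have f3 : s 0 (aff z) = s 0 (aff z') :=
    (step_strictMonoOn (by norm_num)).injOn ⟨a1.le, a2.le⟩ ⟨b1.le, b2.le⟩ e3
  have f4 : s 1 (aff z) = s 1 (aff z') :=
    (step_strictMonoOn (by norm_num)).injOn ⟨a3.le, a4.le⟩ ⟨b3.le, b4.le⟩ e4
  have hN := nsq_pos hx
  have hN' := nsq_pos hx'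
  -- the norms
  have q0 : sq 0 (aff z) = 1 + z 0 ^ 2 := by
    change (1 : ℝ) ^ 2 + z 0 ^ 2 = _; ring
  have q0' : sq 0 (aff z') = 1 + z' 0 ^ 2 := by
    change (1 : ℝ) ^ 2 + z' 0 ^ 2 = _; ring
  have g0 : sq 0 (aff z) = sq 0 (aff z') := by rw [q0, q0', f0]
  have hq0 : 0 < sq 0 (aff z) := by rw [q0]; positivity
  have g1 : nsq (aff z) = nsq (aff z') := by
    rw [s, s, ← g0, div_eq_div_iff hN.ne' hN'.ne'] at f3
    exact (mul_left_cancel₀ hq0.ne' f3).symm
  have g2 : sq 1 (aff z) = sq 1 (aff z') := by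
    rw [s, s, ← g1, div_left_inj' hN.ne'] at f4
    exact f4
  have q1 : sq 1 (aff z) = z 1 ^ 2 + z 2 ^ 2 := rfl
  have q1' : sq 1 (aff z') = z' 1 ^ 2 + z' 2 ^ 2 := rfl
  have hz2n : z 2 ≠ 0 := by rintro h; rw [h, mul_zero] at hz1; exact lt_irrefl _ hz1
  have hz2n' : z' 2 ≠ 0 := by rintro h; rw [h, mul_zero] at hz1'; exact lt_irrefl _ hz1'
  have f5 : z 2 = z' 2 := by
    refine sign_unique ?_ hz1 hz1'
    have h1 : sq 1 (aff z) = ((z 1 / z 2) ^ 2 + 1) * z 2 ^ 2 := by rw [q1]; field_simp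
    have h2 : sq 1 (aff z') = ((z 1 / z 2) ^ 2 + 1) * z' 2 ^ 2 := by
      rw [q1', f1]; field_simp
    rw [h1, h2] at g2
    exact mul_left_cancel₀ (by positivity) g2
  have f6 : z 1 = z' 1 := by
    rw [← f5, div_left_inj' hz2n] at f1; exact f1
  have g3 : sq 2 (aff z) = sq 2 (aff z') := by
    have h1 := nsq_five (aff z)
    have h2 := nsq_five (aff z')
    linarith
  have g4 : Pr (aff z) = Pr (aff z') := by
    have hs : 0 < √(nsq (aff z)) := Real.sqrt_pos.2 hN
    rw [Q, Q, ← g1, div_left_inj' (by positivity)] at f2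
    exact f2
  have g5 : Pi (aff z) = Pi (aff z') := by
    refine sign_unique ?_ hz2 hz2'
    have h1 := normSq_P (aff z)
    have h2 := normSq_P (aff z')
    rw [← g0, ← g2, ← g3, ← g4] at h2
    linarith
  -- recover the third coordinate
  have p1 : Pr (aff z) = (1 * z 1 - z 0 * z 2) * z 3 - (1 * z 2 + z 0 * z 1) * z 4 := rfl
  have p1' : Pr (aff z') = (1 * z' 1 - z' 0 * z' 2) * z' 3 - (1 * z' 2 + z' 0 * z' 1) * z' 4 := rfl
  have p2 : Pi (aff z) = (1 * z 1 - z 0 * z 2) * z 4 + (1 * z 2 + z 0 * z 1) * z 3 := rfl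
  have p2' : Pi (aff z') = (1 * z' 1 - z' 0 * z' 2) * z' 4 + (1 * z' 2 + z' 0 * z' 1) * z' 3 := rfl
  rw [p1, p1', ← f0, ← f5, ← f6] at g4
  rw [p2, p2', ← f0, ← f5, ← f6] at g5
  have hne : (z 1 - z 0 * z 2) ^ 2 + (z 2 + z 0 * z 1) ^ 2 ≠ 0 := by
    have : (z 1 - z 0 * z 2) ^ 2 + (z 2 + z 0 * z 1) ^ 2 = (1 + z 0 ^ 2) * (z 1 ^ 2 + z 2 ^ 2) := by
      ring
    rw [this]
    positivity
  have f7 : z 3 = z' 3 := by
    have : ((z 1 - z 0 * z 2) ^ 2 + (z 2 + z 0 * z 1) ^ 2) * (z 3 - z' 3) = 0 := by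
      linear_combination (z 1 - z 0 * z 2) * g4 + (z 2 + z 0 * z 1) * g5
    have := (mul_eq_zero.1 this).resolve_left hne
    linarith
  have f8 : z 4 = z' 4 := by
    have : ((z 1 - z 0 * z 2) ^ 2 + (z 2 + z 0 * z 1) ^ 2) * (z 4 - z' 4) = 0 := by
      linear_combination (-(z 2 + z 0 * z 1)) * g4 + (z 1 - z 0 * z 2) * g5
    have := (mul_eq_zero.1 this).resolve_left hne
    linarith
  funext i
  fin_cases i
  · exact f0
  · exact f6
  · exact f5
  · exact f7
  · exact f8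

/-- the box containing the image of the main chart -/
def Box : Set (Fin 5 → ℝ) := Set.pi univ fun i => Icc ((![-1 / 2, -1 / 2, -1, 0, 0] : Fin 5 → ℝ) i)
  ((![1 / 2, 1 / 2, 1, 1, 1] : Fin 5 → ℝ) i)

theorem volume_Box : volume Box = ENNReal.ofReal 2 := by
  rw [Box, volume_pi_pi]
  simp only [Real.volume_Icc, Fin.prod_univ_five, Matrix.cons_val]
  rw [← ENNReal.ofReal_mul (by norm_num), ← ENNReal.ofReal_mul (by norm_num),
    ← ENNReal.ofReal_mul (by norm_num), ← ENNReal.ofReal_mul (by norm_num)]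
  norm_num

theorem arctan_mem (t : ℝ) : Real.arctan t / Real.pi ∈ Icc (-1 / 2 : ℝ) (1 / 2) := by
  have h1 := Real.neg_pi_div_two_lt_arctan t
  have h2 := Real.arctan_lt_pi_div_two t
  have hpi := Real.pi_pos
  constructor
  · rw [le_div_iff₀ hpi]; linarith
  · rw [div_le_iff₀ hpi]; linarith

theorem ff_mem (z : Fin 5 → ℝ) : ff z ∈ Box := by
  rw [Box, mem_univ_pi]
  intro i
  fin_cases i
  · exact arctan_mem _
  · change -Real.arctan (z 1 / z 2) / Real.pi ∈ Icc (-1 / 2 : ℝ) (1 / 2)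
    rw [← Real.arctan_neg]
    exact arctan_mem _
  · change odd (100 * Q (aff z)) ∈ Icc (-1 : ℝ) 1
    have h1 := step_nonneg (a := -1) (b := 1) (t := 100 * Q (aff z))
    have h2 := step_le_one (a := -1) (b := 1) (t := 100 * Q (aff z))
    constructor <;> simp only [odd] <;> linarith
  · exact ⟨step_nonneg, step_le_one⟩
  · exact ⟨step_nonneg, step_le_one⟩

/-- the volume of the polar bodies -/
noncomputable def V (z : Fin 5 → ℝ) : ℝ≥0∞ := volume (body fun w => fmax aF bT (aff z) (dir w))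

theorem lintegral_sheet (a b : ℝ) : ∫⁻ z in Sheet a b, V z ≤ ENNReal.ofReal (8 / 5) := by
  have h1 : ∫⁻ z in Sheet a b, ENNReal.ofReal |(ff' z).det| = volume (ff '' Sheet a b) := by
    refine lintegral_abs_det_fderiv_eq_addHaar_image volume (measurableSet_sheet a b)
      (fun z hz => (hasFDerivAt_ff ?_).hasFDerivWithinAt) (injOn_ff a b)
    rintro h
    have := hz.2.1
    rw [h, mul_zero] at this
    exact lt_irrefl _ this
  calc ∫⁻ z in Sheet a b, V z
      ≤ ∫⁻ z in Sheet a b, ENNReal.ofReal |(ff' z).det| * ENNReal.ofReal (4 / 5) :=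
        setLIntegral_mono' (measurableSet_sheet a b) fun z hz => volume_main_le hz.1
    _ = (∫⁻ z in Sheet a b, ENNReal.ofReal |(ff' z).det|) * ENNReal.ofReal (4 / 5) :=
        lintegral_mul_const' _ _ ENNReal.ofReal_ne_top
    _ ≤ ENNReal.ofReal 2 * ENNReal.ofReal (4 / 5) := by
        rw [h1, ← volume_Box]
        gcongr
        rintro _ ⟨z, -, rfl⟩
        exact ff_mem z
    _ = _ := by rw [← ENNReal.ofReal_mul (by norm_num)]; norm_num

theorem lintegral_V : ∫⁻ z, V z ≤ ENNReal.ofReal (32 / 5) := by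
  set S : Set (Fin 5 → ℝ) := (Sheet 1 1 ∪ Sheet 1 (-1)) ∪ (Sheet (-1) 1 ∪ Sheet (-1) (-1)) with hS
  have hSm : MeasurableSet S := ((measurableSet_sheet _ _).union (measurableSet_sheet _ _)).union
    ((measurableSet_sheet _ _).union (measurableSet_sheet _ _))
  have hae : V =ᵐ[volume] S.indicator V := by
    have h0 : ∀ᵐ z : Fin 5 → ℝ, z 2 ≠ 0 := by
      have := volume_coord_zero (2 : Fin 5)
      exact measure_eq_zero_iff_ae_notMem.1 this
    filter_upwards [h0] with z hz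
    by_cases hzS : z ∈ S
    · rw [indicator_of_mem hzS]
    · rw [indicator_of_notMem hzS]
      refine null_of_not_main fun hmain => hzS ?_
      have hx := aff_ne_zero z
      have hm := s_main hmain
      have hP : Pi (aff z) ≠ 0 := by
        refine Pi_ne hx (fun k => (hm k).1.le) ?_
        have := hmain.2.2
        rw [← sq_abs]
        nlinarith [abs_nonneg (100 * Q (aff z))]
      rcases lt_or_gt_of_ne hz with h1 | h1 <;> rcases lt_or_gt_of_ne hP with h2 | h2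
      · exact Or.inr (Or.inr ⟨hmain, by linarith, by linarith⟩)
      · exact Or.inr (Or.inl ⟨hmain, by linarith, by linarith⟩)
      · exact Or.inl (Or.inr ⟨hmain, by linarith, by linarith⟩)
      · exact Or.inl (Or.inl ⟨hmain, by linarith, by linarith⟩)
  rw [lintegral_congr_ae hae, lintegral_indicator hSm]
  refine (lintegral_union_le V _ _).trans ?_
  refine (add_le_add ((lintegral_union_le V _ _).trans
    (add_le_add (lintegral_sheet _ _) (lintegral_sheet _ _))) ((lintegral_union_le V _ _).trans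
    (add_le_add (lintegral_sheet _ _) (lintegral_sheet _ _)))).trans_eq ?_
  rw [← ENNReal.ofReal_add (by norm_num) (by norm_num),
    ← ENNReal.ofReal_add (by norm_num) (by norm_num)]
  norm_num

end Pool.Agent.H785.RP.Ex
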